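import Pool.Agent.Lib.MP_646b81.Hits

/-! Sipser functions on blocks, and one round of random projections. -/

namespace Pool.Agent.Lib.MP_646b81

open Classical Finset

abbrev Nd (β : Type) : Type := β × List (ℕ × ℕ)

noncomputable def Paths (G : ℕ) : ℕ → Finset (List (ℕ × ℕ))
  | 0 => {[]}
  | n + 1 => ((range G ×ˢ range G) ×ˢ Paths G n).image (fun p => p.1 :: p.2)

theorem mem_Paths_zero {G : ℕ} {p : List (ℕ × ℕ)} : p ∈ Paths G 0 ↔ p = [] := by
  simp [Paths]

theorem mem_Paths_succ {G n : ℕ} {p : List (ℕ × ℕ)} :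
    p ∈ Paths G (n + 1) ↔ ∃ g g' p', g < G ∧ g' < G ∧ p' ∈ Paths G n ∧ p = (g, g') :: p' := by
  simp only [Paths, Finset.mem_image, Finset.mem_product, Finset.mem_range]
  constructor
  · rintro ⟨⟨⟨g, g'⟩, p'⟩, ⟨⟨h1, h2⟩, h3⟩, rfl⟩
    exact ⟨g, g', p', h1, h2, h3, rfl⟩
  · rintro ⟨g, g', p', h1, h2, h3, rfl⟩
    exact ⟨((g, g'), p'), ⟨⟨h1, h2⟩, h3⟩, rfl⟩

theorem cons_mem_Paths {G n g g' : ℕ} {p : List (ℕ × ℕ)} (h1 : g < G) (h2 : g' < G)
    (h3 : p ∈ Paths G n) : (g, g') :: p ∈ Paths G (n + 1) :=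
  mem_Paths_succ.2 ⟨g, g', p, h1, h2, h3, rfl⟩

theorem card_Paths (G n : ℕ) : (Paths G n).card ≤ (G * G) ^ n := by
  induction n with
  | zero => simp [Paths]
  | succ n ih =>
    refine le_trans Finset.card_image_le ?_
    rw [Finset.card_product, Finset.card_product, Finset.card_range, pow_succ']
    exact Nat.mul_le_mul_left _ ih

theorem length_of_mem_Paths {G : ℕ} : ∀ {n : ℕ} {p : List (ℕ × ℕ)}, p ∈ Paths G n →
    p.length = n := by
  intro n
  induction n with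
  | zero => intro p hp; simp [mem_Paths_zero.1 hp]
  | succ n ih =>
    intro p hp
    obtain ⟨g, g', p', _, _, h, rfl⟩ := mem_Paths_succ.1 hp
    simp [ih h]

/-- the NAND-tree (Sipser function) of height `n` and fan-in `G * G` below the node `p` -/
noncomputable def sip (G : ℕ) (x : List (ℕ × ℕ) → Bool) : ℕ → List (ℕ × ℕ) → Bool
  | 0, p => x p
  | n + 1, p => !decide (∀ g g', g < G → g' < G → sip G x n ((g, g') :: p) = true)

variable {β : Type}

noncomputable def nandV (G : ℕ) (y : Nd β → Bool) (b : β) (p : List (ℕ × ℕ)) : Bool :=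
  !decide (∀ g, g < G → y (b, (g, 0) :: p) = true)

def gam (v : Nd β) : Nd β := (v.1, v.2.tail)

noncomputable def qq (B : Finset β) (K : β → ℕ) (i : Nd β ⊕ Nd β) : ℝ :=
  if (Sum.elim Prod.fst Prod.fst i : β) ∈ B then 1 / (K (Sum.elim Prod.fst Prod.fst i) : ℝ) else 0

noncomputable def UU (B : Finset β) (K n : β → ℕ) : Finset (Nd β ⊕ Nd β) :=
  B.biUnion (fun b => ((Paths (K b * K b) (n b + 1)).image (fun p => Sum.inl (b, p))) ∪
    ((Paths (K b * K b) (n b)).image (fun p => Sum.inr (b, p))))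

variable {B : Finset β} {K n : β → ℕ} {K0 : ℕ}

theorem qq_le (hK0 : 2 ≤ K0) (hK : ∀ b ∈ B, K0 ≤ K b) (i : Nd β ⊕ Nd β) :
    0 ≤ qq B K i ∧ qq B K i ≤ 1 / K0 := by
  unfold qq
  split_ifs with h
  · refine ⟨by positivity, ?_⟩
    apply one_div_le_one_div_of_le
    · have : 0 < K0 := by omega
      exact_mod_cast this
    · exact_mod_cast hK _ h
  · exact ⟨le_rfl, by positivity⟩

theorem le_ratio {a : ℝ} {k : ℕ} (hk : 2 ≤ k) (h0 : 0 ≤ a) (h : a ≤ 1 / k) :
    a ≤ 1 ∧ a ≤ 2 / k * (1 - a) := by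
  have h2 : (2 : ℝ) ≤ k := by exact_mod_cast hk
  have h3 : (1 : ℝ) / k ≤ 1 / 2 := one_div_le_one_div_of_le (by norm_num) h2
  refine ⟨by linarith, ?_⟩
  have h4 : (2 : ℝ) / k = 2 * (1 / k) := by ring
  have h5 : (0 : ℝ) ≤ 1 / k := by positivity
  rw [h4]
  nlinarith

theorem qq_hq (hK0 : 2 ≤ K0) (hK : ∀ b ∈ B, K0 ≤ K b) (i : Nd β ⊕ Nd β) :
    0 ≤ qq B K i ∧ qq B K i ≤ 1 :=
  ⟨(qq_le hK0 hK i).1, (le_ratio hK0 (qq_le hK0 hK i).1 (qq_le hK0 hK i).2).1⟩

theorem qq_hqr (hK0 : 2 ≤ K0) (hK : ∀ b ∈ B, K0 ≤ K b) (i : Nd β ⊕ Nd β) :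
    qq B K i ≤ 2 / K0 * (1 - qq B K i) :=
  (le_ratio hK0 (qq_le hK0 hK i).1 (qq_le hK0 hK i).2).2

theorem surv_bound {k : ℕ} (hk : 2 ≤ k) : (1 - 1 / (k : ℝ)) ^ (k * k) ≤ (1 / 2) ^ k := by
  have h2 : (2 : ℝ) ≤ k := by exact_mod_cast hk
  have hk0 : (0 : ℝ) < k := by linarith
  rw [pow_mul]
  have h3 : (1 : ℝ) / k ≤ 1 / 2 := one_div_le_one_div_of_le (by norm_num) h2
  apply pow_le_pow_left₀ (pow_nonneg (by linarith) _)
  have a : (1 : ℝ) + k * (1 / k) ≤ (1 + 1 / k) ^ k :=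
    one_add_mul_le_pow (by have : (0 : ℝ) ≤ 1 / k := by positivity
                           linarith) k
  have b : (k : ℝ) * (1 / k) = 1 := by field_simp
  have c : (1 - 1 / (k : ℝ)) ^ k * (1 + 1 / k) ^ k ≤ 1 := by
    rw [← mul_pow]
    apply pow_le_one₀
    · apply mul_nonneg (by linarith) (by positivity)
    · have : (0 : ℝ) ≤ (1 / k) * (1 / k) := by positivity
      nlinarith
  have d : 0 ≤ (1 - 1 / (k : ℝ)) ^ k := pow_nonneg (by linarith) _
  nlinarith

theorem Pr_group (hK0 : 2 ≤ K0) (hK : ∀ b ∈ B, K0 ≤ K b) {b : β} (hb : b ∈ B)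
    (φ : ℕ → Nd β ⊕ Nd β) (hφ : Function.Injective φ)
    (h1 : ∀ g, g < K b * K b → φ g ∈ UU B K n)
    (h2 : ∀ g, (Sum.elim Prod.fst Prod.fst (φ g) : β) = b) :
    Pr (UU B K n) (qq B K) (fun Z => ¬∃ g, g < K b * K b ∧ φ g ∈ Z) ≤ (1 / 2) ^ K b := by
  have h := Pr_avoid (U := UU B K n) (q := qq B K) ((range (K b * K b)).image φ) (by
    intro i hi
    obtain ⟨g, hg, rfl⟩ := Finset.mem_image.1 hi
    exact h1 g (Finset.mem_range.1 hg))
  refine le_trans (Pr_mono (qq_hq hK0 hK) ?_) (le_trans (le_of_eq h) ?_)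
  · intro Z _ hZ i hi hiZ
    obtain ⟨g, hg, rfl⟩ := Finset.mem_image.1 hi
    exact hZ ⟨g, Finset.mem_range.1 hg, hiZ⟩
  · rw [Finset.prod_image (fun _ _ _ _ e => hφ e)]
    have : ∀ g ∈ range (K b * K b), 1 - qq B K (φ g) = 1 - 1 / (K b : ℝ) := by
      intro g _
      unfold qq
      rw [h2 g, if_pos hb]
    rw [Finset.prod_congr rfl this, Finset.prod_const, Finset.card_range]
    exact surv_bound (le_trans hK0 (hK b hb))

def Surv (B : Finset β) (K n : β → ℕ) (Z : Finset (Nd β ⊕ Nd β)) : Prop :=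
  ∀ b ∈ B, ∀ p ∈ Paths (K b * K b) (n b),
    (∃ g, g < K b * K b ∧ Sum.inl (b, (g, 0) :: p) ∈ Z) ∧
    ∀ g1 g2 p', p = (g1, g2) :: p' → ∃ g, g < K b * K b ∧ Sum.inr (b, (g1, g) :: p') ∈ Z

theorem Pr_surv (hK0 : 2 ≤ K0) (hK : ∀ b ∈ B, K0 ≤ K b)
    (hN : ∀ b ∈ B, B.card * 8 * (K b * K b * (K b * K b)) ^ n b ≤ 2 ^ K b) :
    Pr (UU B K n) (qq B K) (fun Z => ¬Surv B K n Z) ≤ 1 / 4 := by
  have hq := qq_hq hK0 hK
  have h1 : Pr (UU B K n) (qq B K) (fun Z => ¬Surv B K n Z) ≤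
      ∑ b ∈ B, ∑ p ∈ Paths (K b * K b) (n b), Pr (UU B K n) (qq B K) (fun Z =>
        (¬∃ g, g < K b * K b ∧ Sum.inl (b, (g, 0) :: p) ∈ Z) ∨
        ¬∀ g1 g2 p', p = (g1, g2) :: p' →
          ∃ g, g < K b * K b ∧ Sum.inr (b, (g1, g) :: p') ∈ Z) := by
    refine le_trans (Pr_mono hq ?_) (le_trans (Pr_exists hq B (fun b Z =>
      ∃ p ∈ Paths (K b * K b) (n b), (¬∃ g, g < K b * K b ∧ Sum.inl (b, (g, 0) :: p) ∈ Z) ∨
        ¬∀ g1 g2 p', p = (g1, g2) :: p' →
          ∃ g, g < K b * K b ∧ Sum.inr (b, (g1, g) :: p') ∈ Z))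
      (Finset.sum_le_sum (fun b _ => Pr_exists hq _ _)))
    intro Z _ hZ
    unfold Surv at hZ
    by_contra hc
    apply hZ
    intro b hb p hp
    by_contra hc'
    exact hc ⟨b, hb, p, hp, not_and_or.1 hc'⟩
  refine le_trans h1 ?_
  have h2 : ∀ b ∈ B, ∑ p ∈ Paths (K b * K b) (n b), Pr (UU B K n) (qq B K) (fun Z =>
        (¬∃ g, g < K b * K b ∧ Sum.inl (b, (g, 0) :: p) ∈ Z) ∨
        ¬∀ g1 g2 p', p = (g1, g2) :: p' →
          ∃ g, g < K b * K b ∧ Sum.inr (b, (g1, g) :: p') ∈ Z) ≤ 1 / (4 * B.card) := by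
    intro b hb
    have hKb : 2 ≤ K b := le_trans hK0 (hK b hb)
    have hpos : 0 < K b * K b := by positivity
    have h3 : ∀ p ∈ Paths (K b * K b) (n b), Pr (UU B K n) (qq B K) (fun Z =>
        (¬∃ g, g < K b * K b ∧ Sum.inl (b, (g, 0) :: p) ∈ Z) ∨
        ¬∀ g1 g2 p', p = (g1, g2) :: p' →
          ∃ g, g < K b * K b ∧ Sum.inr (b, (g1, g) :: p') ∈ Z) ≤ 2 * (1 / 2) ^ K b := by
      intro p hp
      refine le_trans (Pr_or hq _ _) ?_
      rw [two_mul]
      apply add_le_add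
      · apply Pr_group hK0 hK hb (fun g => Sum.inl (b, (g, 0) :: p))
        · intro g g' e
          simpa using e
        · intro g hg
          unfold UU
          refine Finset.mem_biUnion.2 ⟨b, hb, Finset.mem_union_left _ ?_⟩
          exact Finset.mem_image.2 ⟨_, cons_mem_Paths hg hpos hp, rfl⟩
        · intro g
          rfl
      · cases p with
        | nil =>
          refine le_trans (Pr_mono hq (F := fun _ => False) ?_) ?_
          · intro Z _ h
            apply h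
            intro g1 g2 p' e
            simp at e
          · rw [Pr_false]
            positivity
        | cons g0 p0 =>
          obtain ⟨g1, g2⟩ := g0
          refine le_trans (Pr_mono hq ?_)
            (Pr_group hK0 hK hb (fun g => Sum.inr (b, (g1, g) :: p0)) ?_ ?_ ?_)
          · intro Z _ h h'
            apply h
            intro a1 a2 p' e
            simp only [List.cons.injEq, Prod.mk.injEq] at e
            obtain ⟨⟨rfl, rfl⟩, rfl⟩ := e
            exact h'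
          · intro g g' e
            simpa using e
          · intro g hg
            unfold UU
            refine Finset.mem_biUnion.2 ⟨b, hb, Finset.mem_union_right _ ?_⟩
            refine Finset.mem_image.2 ⟨_, ?_, rfl⟩
            have hl := length_of_mem_Paths hp
            cases hn : n b with
            | zero => simp [hn] at hl
            | succ m =>
              rw [hn] at hp
              obtain ⟨a1, a2, p', k1, _, k3, e⟩ := mem_Paths_succ.1 hp
              simp only [List.cons.injEq, Prod.mk.injEq] at e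
              obtain ⟨⟨rfl, rfl⟩, rfl⟩ := e
              exact cons_mem_Paths k1 hg k3
          · intro g
            rfl
    refine le_trans (Finset.sum_le_sum h3) ?_
    rw [Finset.sum_const, nsmul_eq_mul]
    have hc : ((Paths (K b * K b) (n b)).card : ℝ) ≤
        ((K b * K b * (K b * K b)) ^ n b : ℕ) := by exact_mod_cast card_Paths _ _
    have hN' : (B.card : ℝ) * 8 * ((K b * K b * (K b * K b)) ^ n b : ℕ) ≤ 2 ^ K b := by
      exact_mod_cast hN b hb
    have hB : (0 : ℝ) < B.card := by exact_mod_cast Finset.card_pos.2 ⟨b, hb⟩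
    have hp2 : (0 : ℝ) < 2 ^ K b := by positivity
    rw [one_div_pow, le_div_iff₀ (by positivity)]
    set c : ℝ := ((Paths (K b * K b) (n b)).card : ℝ)
    have : c * (2 * (1 / 2 ^ K b)) * (4 * B.card) = (B.card * 8 * c) / 2 ^ K b := by ring
    rw [this, div_le_one hp2]
    refine le_trans ?_ hN'
    exact mul_le_mul_of_nonneg_left hc (by positivity)
  refine le_trans (Finset.sum_le_sum h2) ?_
  rw [Finset.sum_const, nsmul_eq_mul]
  by_cases hB : B.card = 0
  · simp [hB]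
  · have : (0 : ℝ) < B.card := by exact_mod_cast Nat.pos_of_ne_zero hB
    apply le_of_eq
    field_simp

theorem nandV_proj {G : ℕ} {Z : Finset (Nd β ⊕ Nd β)} {b : β} {p : List (ℕ × ℕ)}
    (h : ∃ g, g < G ∧ Sum.inl (b, (g, 0) :: p) ∈ Z) (y : Nd β → Bool) :
    nandV G (proj gam Z y) b p = if Sum.inr (b, p) ∈ Z then y (b, p) else true := by
  obtain ⟨g, hg, hZ⟩ := h
  unfold nandV
  by_cases hs : Sum.inr (b, p) ∈ Z
  · rw [if_pos hs]
    cases hy : y (b, p) with
    | true =>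
      simp only [Bool.not_eq_eq_eq_not, Bool.not_true, decide_eq_false_iff_not]
      intro hh
      have := hh g hg
      simp [proj, gam, hZ, hs, hy] at this
    | false =>
      simp only [Bool.not_eq_eq_eq_not, Bool.not_false, decide_eq_true_eq]
      intro g' _
      simp [proj, gam, hs, hy]
  · rw [if_neg hs]
    simp only [Bool.not_eq_eq_eq_not, Bool.not_true, decide_eq_false_iff_not]
    intro hh
    have := hh g hg
    simp [proj, gam, hZ, hs] at this

theorem sh_proj {V W : Type} (γ : V → W) (Z : Finset (V ⊕ W)) (v : V) :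
    Sh 1 (fun y => proj γ Z y v) := by
  unfold proj
  split_ifs
  · exact (Sh.var (γ v)).not
  · exact Sh.const _ _
  · exact Sh.const _ _

theorem round (hK0 : 2 ≤ K0) (hK : ∀ b ∈ B, K0 ≤ K b)
    (hN : ∀ b ∈ B, B.card * 8 * (K b * K b * (K b * K b)) ^ n b ≤ 2 ^ K b)
    (Bad : Finset (Nd β ⊕ Nd β) → Prop) (hBad : Pr (UU B K n) (qq B K) Bad ≤ 1 / 2) :
    ∃ (Z Zp : Finset (Nd β ⊕ Nd β)) (τ : (Nd β → Bool) → Nd β → Bool), ¬Bad Z ∧
      (∀ v, Sum.inl v ∈ Zp ↔ Sum.inl v ∈ Z) ∧ ((∀ b ∈ B, n b ≠ 0) → Zp = Z) ∧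
      (∀ w, Sh 1 (fun y => τ y w)) ∧
      (∀ y y' b, (∀ p, y (b, p) = y' (b, p)) → ∀ p, τ y (b, p) = τ y' (b, p)) ∧
      (∀ b ∈ B, n b = 0 → ∀ y, nandV (K b * K b) (proj gam Zp (τ y)) b [] = y (b, [])) ∧
      (∀ b ∈ B, ∀ m, n b = m + 1 → ∀ p ∈ Paths (K b * K b) m, ∀ y,
        (∀ g g', g < K b * K b → g' < K b * K b →
          nandV (K b * K b) (proj gam Zp (τ y)) b ((g, g') :: p) = true) ↔
        ∀ g, g < K b * K b → y (b, (g, 0) :: p) = true) := by
  have hq := qq_hq hK0 hK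
  have h1 := Pr_or (U := UU B K n) hq Bad (fun Z => ¬Surv B K n Z)
  have h2 := Pr_surv hK0 hK hN
  obtain ⟨Z, _, hZ⟩ := exists_of_Pr_lt_one (U := UU B K n) (q := qq B K)
    (E := fun Z => Bad Z ∨ ¬Surv B K n Z) (by linarith)
  push Not at hZ
  obtain ⟨hb, hS⟩ := hZ
  let R : Finset (Nd β ⊕ Nd β) := (B.filter (fun b => n b = 0)).image (fun b => Sum.inr (b, []))
  let sel : β → ℕ → List (ℕ × ℕ) → ℕ := fun b g1 p =>
    if h : ∃ g, g < K b * K b ∧ Sum.inr (b, (g1, g) :: p) ∈ Z then h.choose else 0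
  let τ : (Nd β → Bool) → Nd β → Bool := fun y w =>
    match w.2 with
    | [] => y w
    | (g1, g2) :: p => if g2 = sel w.1 g1 p then y (w.1, (g1, 0) :: p) else true
  have hinl : ∀ v, Sum.inl v ∈ Z ∪ R ↔ Sum.inl v ∈ Z := by
    intro v
    simp [R]
  refine ⟨Z, Z ∪ R, τ, hb, hinl, ?_, ?_, ?_, ?_, ?_⟩
  · intro h
    have : R = ∅ := by
      simp only [R, Finset.image_eq_empty, Finset.filter_eq_empty_iff]
      exact fun b hb => h b hb
    simp [this]
  · rintro ⟨b, p⟩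
    rcases p with _ | ⟨⟨g1, g2⟩, p⟩
    · exact Sh.var (b, [])
    · simp only [τ]
      split_ifs
      · exact Sh.var _
      · exact Sh.const _ _
  · intro y y' b h p
    rcases p with _ | ⟨⟨g1, g2⟩, p⟩
    · exact h []
    · simp only [τ, h]
  · intro b hb hn y
    have hp : ([] : List (ℕ × ℕ)) ∈ Paths (K b * K b) (n b) := by
      rw [hn]; exact mem_Paths_zero.2 rfl
    obtain ⟨g, hg, hZ⟩ := (hS b hb [] hp).1
    rw [nandV_proj ⟨g, hg, (hinl _).2 hZ⟩, if_pos]
    apply Finset.mem_union_right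
    exact Finset.mem_image.2 ⟨b, Finset.mem_filter.2 ⟨hb, hn⟩, rfl⟩
  · intro b hb m hn p hp y
    have hpos : 0 < K b * K b := by
      have := le_trans hK0 (hK b hb)
      positivity
    have hval : ∀ g g', g < K b * K b → g' < K b * K b →
        nandV (K b * K b) (proj gam (Z ∪ R) (τ y)) b ((g, g') :: p) =
          if Sum.inr (b, (g, g') :: p) ∈ Z then τ y (b, (g, g') :: p) else true := by
      intro g g' hg hg'
      have hp' : (g, g') :: p ∈ Paths (K b * K b) (n b) := by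
        rw [hn]; exact cons_mem_Paths hg hg' hp
      obtain ⟨a, ha, hZ⟩ := (hS b hb _ hp').1
      rw [nandV_proj ⟨a, ha, (hinl _).2 hZ⟩]
      have : Sum.inr (b, (g, g') :: p) ∈ Z ∪ R ↔ Sum.inr (b, (g, g') :: p) ∈ Z := by
        simp [R]
      simp only [this]
    constructor
    · intro h g hg
      have hp' : (g, 0) :: p ∈ Paths (K b * K b) (n b) := by
        rw [hn]; exact cons_mem_Paths hg hpos hp
      have hex := (hS b hb _ hp').2 g 0 p rfl
      have hsel : sel b g p < K b * K b ∧ Sum.inr (b, (g, sel b g p) :: p) ∈ Z := by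
        simp only [sel, dif_pos hex]
        exact hex.choose_spec
      have := h g _ hg hsel.1
      rw [hval g _ hg hsel.1, if_pos hsel.2] at this
      simpa [τ] using this
    · intro h g g' hg hg'
      rw [hval g g' hg hg']
      split_ifs
      · simp only [τ]
        split_ifs
        · exact h g hg
        · rfl
      · rfl

end Pool.Agent.Lib.MP_646b81

theorem Pool.Agent.Lib.MP_646b81.Round.rlz0 : True := by
  have := @Pool.Agent.Lib.MP_646b81.sip.eq_def
  trivial
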