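import Pool.Agent.Lib.MP_646b81.Defs
import Pool.Agent.Lib.MP_646b81.Round

/-! Renaming, free variables, polynomial bounds and circuits for bounded formulas. -/

namespace Pool.Agent.Lib.MP_646b81

open Classical

def Tm.rename (f : ℕ → ℕ) : Tm → Tm
  | Tm.var i => Tm.var (f i)
  | Tm.zero => Tm.zero
  | Tm.one => Tm.one
  | Tm.add s t => Tm.add (s.rename f) (t.rename f)
  | Tm.mul s t => Tm.mul (s.rename f) (t.rename f)

def liftR (f : ℕ → ℕ) : ℕ → ℕ
  | 0 => 0
  | i + 1 => f i + 1

def Fm.rename : Fm → (ℕ → ℕ) → Fm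
  | Fm.eq s t, f => Fm.eq (s.rename f) (t.rename f)
  | Fm.lt s t, f => Fm.lt (s.rename f) (t.rename f)
  | Fm.orc t, f => Fm.orc (t.rename f)
  | Fm.not φ, f => Fm.not (φ.rename f)
  | Fm.and φ ψ, f => Fm.and (φ.rename f) (ψ.rename f)
  | Fm.ball t φ, f => Fm.ball (t.rename f) (φ.rename (liftR f))

variable {M : Type} {S : Str M}

@[simp] theorem cons_zero (x : M) (v : ℕ → M) : cons x v 0 = x := rfl
@[simp] theorem cons_succ (x : M) (v : ℕ → M) (i : ℕ) : cons x v (i + 1) = v i := rfl

theorem Tm.val_rename (f : ℕ → ℕ) (v : ℕ → M) (t : Tm) :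
    (t.rename f).val S v = t.val S (fun i => v (f i)) := by
  induction t with
  | var i => rfl
  | zero => rfl
  | one => rfl
  | add s t a b => simp only [Tm.rename, Tm.val, a, b]
  | mul s t a b => simp only [Tm.rename, Tm.val, a, b]

theorem Fm.holds_rename (φ : Fm) : ∀ (f : ℕ → ℕ) (v : ℕ → M),
    (φ.rename f).holds S v ↔ φ.holds S (fun i => v (f i)) := by
  induction φ with
  | eq s t => intro f v; simp only [Fm.rename, Fm.holds, Tm.val_rename]
  | lt s t => intro f v; simp only [Fm.rename, Fm.holds, Tm.val_rename]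
  | orc t => intro f v; simp only [Fm.rename, Fm.holds, Tm.val_rename]
  | not φ a => intro f v; simp only [Fm.rename, Fm.holds, a]
  | and φ ψ a b => intro f v; simp only [Fm.rename, Fm.holds, a, b]
  | ball t φ a =>
    intro f v
    simp only [Fm.rename, Fm.holds, a, Tm.val_rename]
    have : ∀ x, (fun i => cons x v (liftR f i)) = cons x (fun i => v (f i)) := by
      intro x
      funext i
      cases i <;> rfl
    simp only [this]

theorem Fm.holds_rename' (φ : Fm) (f : ℕ → ℕ) (v v' : ℕ → M) (h : ∀ i, v (f i) = v' i) :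
    (φ.rename f).holds S v ↔ φ.holds S v' := by
  rw [Fm.holds_rename, show (fun i => v (f i)) = v' from funext h]

def Tm.fvb : Tm → ℕ
  | Tm.var i => i + 1
  | Tm.zero => 0
  | Tm.one => 0
  | Tm.add s t => s.fvb + t.fvb
  | Tm.mul s t => s.fvb + t.fvb

def Fm.fvb : Fm → ℕ
  | Fm.eq s t => s.fvb + t.fvb
  | Fm.lt s t => s.fvb + t.fvb
  | Fm.orc t => t.fvb
  | Fm.not φ => φ.fvb
  | Fm.and φ ψ => φ.fvb + ψ.fvb
  | Fm.ball t φ => t.fvb + φ.fvb

theorem Tm.val_congr (t : Tm) {v v' : ℕ → M} (h : ∀ i, i < t.fvb → v i = v' i) :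
    t.val S v = t.val S v' := by
  induction t with
  | var i => exact h i (by simp [Tm.fvb])
  | zero => rfl
  | one => rfl
  | add s t a b =>
    simp only [Tm.fvb] at h
    simp only [Tm.val, a (fun i hi => h i (by omega)), b (fun i hi => h i (by omega))]
  | mul s t a b =>
    simp only [Tm.fvb] at h
    simp only [Tm.val, a (fun i hi => h i (by omega)), b (fun i hi => h i (by omega))]

theorem Fm.holds_congr (φ : Fm) : ∀ {v v' : ℕ → M}, (∀ i, i < φ.fvb → v i = v' i) →
    (φ.holds S v ↔ φ.holds S v') := by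
  induction φ with
  | eq s t =>
    intro v v' h
    simp only [Fm.fvb] at h
    simp only [Fm.holds, s.val_congr (fun i hi => h i (by omega)),
      t.val_congr (fun i hi => h i (by omega))]
  | lt s t =>
    intro v v' h
    simp only [Fm.fvb] at h
    simp only [Fm.holds, s.val_congr (fun i hi => h i (by omega)),
      t.val_congr (fun i hi => h i (by omega))]
  | orc t =>
    intro v v' h
    simp only [Fm.holds, t.val_congr h]
  | not φ a =>
    intro v v' h
    simp only [Fm.holds, a h]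
  | and φ ψ a b =>
    intro v v' h
    simp only [Fm.fvb] at h
    simp only [Fm.holds, a (fun i hi => h i (by omega)), b (fun i hi => h i (by omega))]
  | ball t φ a =>
    intro v v' h
    simp only [Fm.fvb] at h
    simp only [Fm.holds, t.val_congr (fun i hi => h i (by omega))]
    apply forall_congr'
    intro x
    rw [a]
    intro i hi
    cases i with
    | zero => rfl
    | succ i => exact h i (by omega)

@[simp] theorem natStr_zero (A : Set ℕ) : (natStr A).zero = 0 := rfl
@[simp] theorem natStr_one (A : Set ℕ) : (natStr A).one = 1 := rfl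
@[simp] theorem natStr_add (A : Set ℕ) (a b : ℕ) : (natStr A).add a b = a + b := rfl
@[simp] theorem natStr_mul (A : Set ℕ) (a b : ℕ) : (natStr A).mul a b = a * b := rfl
@[simp] theorem natStr_lt (A : Set ℕ) (a b : ℕ) : (natStr A).lt a b ↔ a < b := Iff.rfl
@[simp] theorem natStr_orc (A : Set ℕ) (a : ℕ) : (natStr A).orc a ↔ a ∈ A := Iff.rfl

theorem Tm.val_indep (t : Tm) (A A' : Set ℕ) (v : ℕ → ℕ) :
    t.val (natStr A) v = t.val (natStr A') v := by
  induction t with
  | var i => rfl
  | zero => rfl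
  | one => rfl
  | add s t a b => simp only [Tm.val, natStr_add, a, b]
  | mul s t a b => simp only [Tm.val, natStr_mul, a, b]

theorem Tm.bound (t : Tm) : ∃ k, ∀ (w : ℕ) (v : ℕ → ℕ), (∀ i, v i ≤ w) →
    t.val (natStr ∅) v < (w + 2) ^ k := by
  induction t with
  | var i => exact ⟨1, fun w v h => by have := h i; simp only [Tm.val, pow_one]; omega⟩
  | zero => exact ⟨1, fun w v _ => by simp [Tm.val]⟩
  | one => exact ⟨1, fun w v _ => by simp [Tm.val]⟩
  | add s t a b =>
    obtain ⟨k1, a⟩ := a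
    obtain ⟨k2, b⟩ := b
    refine ⟨k1 + k2 + 1, fun w v h => ?_⟩
    have a' := a w v h
    have b' := b w v h
    have e1 : (w + 2) ^ k1 ≤ (w + 2) ^ (k1 + k2) := Nat.pow_le_pow_right (by omega) (by omega)
    have e2 : (w + 2) ^ k2 ≤ (w + 2) ^ (k1 + k2) := Nat.pow_le_pow_right (by omega) (by omega)
    simp only [Tm.val, natStr_add, pow_succ]
    nlinarith
  | mul s t a b =>
    obtain ⟨k1, a⟩ := a
    obtain ⟨k2, b⟩ := b
    refine ⟨k1 + k2, fun w v h => ?_⟩
    simp only [Tm.val, natStr_mul, pow_add]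
    exact Nat.mul_lt_mul'' (a w v h) (b w v h)

theorem cls_const {V : Type} {N d : ℕ} (hN : 1 ≤ N) (c : Bool) :
    Cls N d (fun _ : V → Bool => c) :=
  Cls.mono hN (d := 0) (Sh.const 1 c) (Nat.zero_le _)

theorem Fm.circuit (φ : Fm) : ∃ k d, 1 ≤ k ∧ ∀ (w : ℕ) (v : ℕ → ℕ), (∀ i, v i ≤ w) →
    (∀ A A' : Set ℕ, (∀ n, n < (w + 2) ^ k → (n ∈ A ↔ n ∈ A')) →
      (φ.holds (natStr A) v ↔ φ.holds (natStr A') v)) ∧
    ∀ (V : Type) (O : (V → Bool) → Set ℕ), (∀ n, Sh 1 (fun x => decide (n ∈ O x))) →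
      ∀ N, (w + 2) ^ k ≤ N → Cls N d (fun x => decide (φ.holds (natStr (O x)) v)) := by
  have two_le : ∀ {w k N : ℕ}, 1 ≤ k → (w + 2) ^ k ≤ N → 2 ≤ N := by
    intro w k N hk h
    have : w + 2 ≤ (w + 2) ^ k := Nat.le_self_pow (by omega) _
    omega
  induction φ with
  | eq s t =>
    refine ⟨1, 0, le_rfl, fun w v _ => ⟨fun A A' _ => ?_, fun V O _ N _ => ?_⟩⟩
    · simp only [Fm.holds, s.val_indep A A', t.val_indep A A']
    · refine (Sh.const 1 (decide (s.val (natStr ∅) v = t.val (natStr ∅) v))).congr ?_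
      intro x
      simp only [Fm.holds, s.val_indep (O x) ∅, t.val_indep (O x) ∅]
  | lt s t =>
    refine ⟨1, 0, le_rfl, fun w v _ => ⟨fun A A' _ => ?_, fun V O _ N _ => ?_⟩⟩
    · simp only [Fm.holds, s.val_indep A A', t.val_indep A A', natStr_lt]
    · refine (Sh.const 1 (decide (s.val (natStr ∅) v < t.val (natStr ∅) v))).congr ?_
      intro x
      simp only [Fm.holds, s.val_indep (O x) ∅, t.val_indep (O x) ∅, natStr_lt]
  | orc t =>
    obtain ⟨k, hk⟩ := t.bound
    refine ⟨k + 1, 0, by omega, fun w v hv => ⟨fun A A' h => ?_, fun V O hO N _ => ?_⟩⟩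
    · simp only [Fm.holds, t.val_indep A ∅, t.val_indep A' ∅, natStr_orc]
      apply h
      exact lt_of_lt_of_le (hk w v hv) (Nat.pow_le_pow_right (by omega) (by omega))
    · refine (hO (t.val (natStr ∅) v)).congr ?_
      intro x
      simp only [Fm.holds, t.val_indep (O x) ∅, natStr_orc]
  | not φ a =>
    obtain ⟨k, d, hk, a⟩ := a
    refine ⟨k, d + 1, hk, fun w v hv => ⟨fun A A' h => ?_, fun V O hO N hN => ?_⟩⟩
    · simp only [Fm.holds, (a w v hv).1 A A' h]
    · have := two_le hk hN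
      refine (((a w v hv).2 V O hO N hN).not (by omega)).congr ?_
      intro x
      simp [Fm.holds]
  | and φ ψ a b =>
    obtain ⟨k1, d1, hk1, a⟩ := a
    obtain ⟨k2, d2, hk2, b⟩ := b
    refine ⟨k1 + k2, d1 + d2 + 1 + 1, by omega, fun w v hv => ?_⟩
    have e1 : (w + 2) ^ k1 ≤ (w + 2) ^ (k1 + k2) := Nat.pow_le_pow_right (by omega) (by omega)
    have e2 : (w + 2) ^ k2 ≤ (w + 2) ^ (k1 + k2) := Nat.pow_le_pow_right (by omega) (by omega)
    refine ⟨fun A A' h => ?_, fun V O hO N hN => ?_⟩
    · simp only [Fm.holds, (a w v hv).1 A A' (fun n hn => h n (by omega)),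
        (b w v hv).1 A A' (fun n hn => h n (by omega))]
    · have h2 := two_le (by omega) hN
      have c1 := (((a w v hv).2 V O hO N (by omega)).not (by omega)).mono (by omega)
        (show d1 + 1 ≤ d1 + d2 + 1 by omega)
      have c2 := (((b w v hv).2 V O hO N (by omega)).not (by omega)).mono (by omega)
        (show d2 + 1 ≤ d1 + d2 + 1 by omega)
      refine ⟨[fun x => !decide (φ.holds (natStr (O x)) v),
        fun x => !decide (ψ.holds (natStr (O x)) v)], h2, ?_, ?_⟩
      · intro g hg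
        simp only [List.mem_cons, List.not_mem_nil, or_false] at hg
        rcases hg with rfl | rfl
        · exact c1
        · exact c2
      · intro x
        simp [Fm.holds]
  | ball t φ a =>
    obtain ⟨kt, ht⟩ := t.bound
    obtain ⟨k, d, hk, a⟩ := a
    refine ⟨(kt + 2) * k, d + 1 + 1, by nlinarith, fun w v hv => ?_⟩
    have e0 : (w + 2) ^ kt + w + 2 ≤ (w + 2) ^ (kt + 2) := by
      have h1 : 1 ≤ (w + 2) ^ kt := Nat.one_le_pow _ _ (by omega)
      have h2 : (w + 2) ^ kt * (w + 2) ^ 2 = (w + 2) ^ kt + (w + 2) ^ kt * (w * w + 4 * w + 3) := by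
        ring
      have h3 : 1 * (w * w + 4 * w + 3) ≤ (w + 2) ^ kt * (w * w + 4 * w + 3) :=
        Nat.mul_le_mul_right _ h1
      rw [pow_add, h2]
      nlinarith
    have e1 : ((w + 2) ^ kt + w + 2) ^ k ≤ (w + 2) ^ ((kt + 2) * k) := by
      rw [pow_mul]
      exact Nat.pow_le_pow_left e0 _
    have e2 : (w + 2) ^ kt ≤ (w + 2) ^ ((kt + 2) * k) :=
      Nat.pow_le_pow_right (by omega) (by nlinarith)
    have hb : ∀ x, x < t.val (natStr ∅) v → ∀ i, cons x v i ≤ (w + 2) ^ kt + w := by
      intro x hx i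
      have := ht w v hv
      cases i with
      | zero => simp only [cons_zero]; omega
      | succ i => have := hv i; simp only [cons_succ]; omega
    refine ⟨fun A A' h => ?_, fun V O hO N hN => ?_⟩
    · simp only [Fm.holds, t.val_indep A ∅, t.val_indep A' ∅, natStr_lt]
      apply forall_congr'
      intro x
      apply imp_congr_right
      intro hx
      exact (a _ _ (hb x hx)).1 A A' (fun n hn => h n (by omega))
    · have h2 := two_le (by nlinarith) hN
      refine ⟨(List.range (t.val (natStr ∅) v)).map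
        (fun z x => !decide (φ.holds (natStr (O x)) (cons z v))), ?_, ?_, ?_⟩
      · have := ht w v hv
        simp only [List.length_map, List.length_range]
        omega
      · intro g hg
        obtain ⟨z, hz, rfl⟩ := List.mem_map.1 hg
        exact ((a _ _ (hb z (List.mem_range.1 hz))).2 V O hO N (by omega)).not (by omega)
      · intro x
        simp only [Fm.holds, t.val_indep (O x) ∅, natStr_lt, List.any_map]
        rw [Bool.eq_iff_iff]
        simp

/-- numerals, powers, pairing -/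
def num : ℕ → Tm
  | 0 => Tm.zero
  | n + 1 => Tm.add (num n) Tm.one

def powT (t : Tm) : ℕ → Tm
  | 0 => Tm.one
  | k + 1 => Tm.mul (powT t k) t

def prN (a b : ℕ) : ℕ := (a + b) * (a + b) + a

def prT (s t : Tm) : Tm := Tm.add (Tm.mul (Tm.add s t) (Tm.add s t)) s

@[simp] theorem val_num (A : Set ℕ) (v : ℕ → ℕ) (n : ℕ) : (num n).val (natStr A) v = n := by
  induction n with
  | zero => rfl
  | succ n ih => simp [num, Tm.val, ih]

@[simp] theorem val_powT (A : Set ℕ) (v : ℕ → ℕ) (t : Tm) (k : ℕ) :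
    (powT t k).val (natStr A) v = (t.val (natStr A) v) ^ k := by
  induction k with
  | zero => rfl
  | succ k ih => simp [powT, Tm.val, ih, pow_succ]

@[simp] theorem val_prT (A : Set ℕ) (v : ℕ → ℕ) (s t : Tm) :
    (prT s t).val (natStr A) v = prN (s.val (natStr A) v) (t.val (natStr A) v) := rfl

theorem prN_inj {a b a' b' : ℕ} (h : prN a b = prN a' b') : a = a' ∧ b = b' := by
  unfold prN at h
  have key : ∀ {a b a' b' : ℕ}, (a + b) * (a + b) + a = (a' + b') * (a' + b') + a' →
      ¬(a + b < a' + b') := by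
    intro a b a' b' h hlt
    have : (a + b + 1) * (a + b + 1) ≤ (a' + b') * (a' + b') := Nat.mul_le_mul hlt hlt
    nlinarith
  have h1 := key h
  have h2 := key h.symm
  have h3 : a + b = a' + b' := by omega
  rw [h3] at h
  omega

theorem le_prN_left (a b : ℕ) : a ≤ prN a b := by unfold prN; omega

theorem le_prN_right (a b : ℕ) : b ≤ prN a b := by
  unfold prN
  rcases Nat.eq_zero_or_pos b with rfl | h
  · omega
  · nlinarith

def chainU : List ℕ → ℕ → ℕ
  | [], a => a
  | u :: us, a => prN (chainU us a) u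

def chainP : List (ℕ × ℕ) → ℕ → ℕ
  | [], a => a
  | g :: p, a => prN (prN (chainP p a) g.1) g.2

def chainT : List Tm → Tm → Tm
  | [], a => a
  | u :: us, a => prT (chainT us a) u

theorem val_chainT (A : Set ℕ) (v : ℕ → ℕ) (ts : List Tm) (a : Tm) :
    (chainT ts a).val (natStr A) v =
      chainU (ts.map (fun t => t.val (natStr A) v)) (a.val (natStr A) v) := by
  induction ts with
  | nil => rfl
  | cons t ts ih => simp [chainT, chainU, ih]

theorem le_chainU (us : List ℕ) (a : ℕ) : a ≤ chainU us a := by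
  induction us with
  | nil => exact le_rfl
  | cons u us ih => exact le_trans ih (le_prN_left _ _)

theorem le_chainP (p : List (ℕ × ℕ)) (a : ℕ) : a ≤ chainP p a := by
  induction p with
  | nil => exact le_rfl
  | cons g p ih => exact le_trans ih (le_trans (le_prN_left _ _) (le_prN_left _ _))

theorem chainU_inj : ∀ {us us' : List ℕ} {a a' : ℕ}, us.length = us'.length →
    chainU us a = chainU us' a' → us = us' ∧ a = a' := by
  intro us
  induction us with
  | nil =>
    intro us' a a' hl h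
    have : us' = [] := List.length_eq_zero_iff.1 hl.symm
    subst this
    exact ⟨rfl, h⟩
  | cons u us ih =>
    intro us' a a' hl h
    cases us' with
    | nil => simp at hl
    | cons u' us' =>
      obtain ⟨h1, h2⟩ := prN_inj h
      obtain ⟨h3, h4⟩ := ih (by simpa using hl) h1
      exact ⟨by rw [h2, h3], h4⟩

theorem chainP_inj : ∀ {p p' : List (ℕ × ℕ)} {a a' : ℕ}, p.length = p'.length →
    chainP p a = chainP p' a' → p = p' ∧ a = a' := by
  intro p
  induction p with
  | nil =>
    intro p' a a' hl h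
    have : p' = [] := List.length_eq_zero_iff.1 hl.symm
    subst this
    exact ⟨rfl, h⟩
  | cons g p ih =>
    intro p' a a' hl h
    cases p' with
    | nil => simp at hl
    | cons g' p' =>
      obtain ⟨h1, h2⟩ := prN_inj h
      obtain ⟨h5, h6⟩ := prN_inj h1
      obtain ⟨h3, h4⟩ := ih (by simpa using hl) h5
      exact ⟨by rw [h3, Prod.ext h6 h2], h4⟩

/-- the bounded formula evaluating a Sipser function on the oracle -/
def SF (l : ℕ) : ℕ → Tm → Tm → Fm
  | 0, a, _ => Fm.orc (prT (num (l + 1)) a)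
  | n + 1, a, G => Fm.not (Fm.ball G (Fm.ball (G.rename (· + 1))
      (SF l n (prT (prT (a.rename (· + 2)) (Tm.var 1)) (Tm.var 0)) (G.rename (· + 2)))))

theorem holds_SF (A : Set ℕ) (l G a0 : ℕ) (x : List (ℕ × ℕ) → Bool) (n : ℕ) :
    ∀ (m : ℕ) (p : List (ℕ × ℕ)) (a Gt : Tm) (v : ℕ → ℕ), p ∈ Paths G m →
      (∀ p' ∈ Paths G (m + n), prN (l + 1) (chainP p' a0) ∈ A ↔ x p' = true) →
      Gt.val (natStr A) v = G → a.val (natStr A) v = chainP p a0 →
      ((SF l n a Gt).holds (natStr A) v ↔ sip G x n p = true) := by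
  induction n with
  | zero =>
    intro m p a Gt v hp h _ ha
    simp only [SF, Fm.holds, val_prT, val_num, natStr_orc, ha, sip]
    exact h p hp
  | succ n ih =>
    intro m p a Gt v hp h hG ha
    simp only [SF, Fm.holds, natStr_lt, Tm.val_rename, cons_succ, hG, sip,
      Bool.not_eq_eq_eq_not, Bool.not_true, decide_eq_false_iff_not]
    apply not_congr
    have key : ∀ g g', g < G → g' < G →
        ((SF l n (prT (prT (a.rename (· + 2)) (Tm.var 1)) (Tm.var 0)) (Gt.rename (· + 2))).holds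
          (natStr A) (cons g' (cons g v)) ↔ sip G x n ((g, g') :: p) = true) := by
      intro g g' hg hg'
      apply ih (m + 1) _ _ _ _ (cons_mem_Paths hg hg' hp)
      · rw [show m + 1 + n = m + (n + 1) by omega]
        exact h
      · rw [Tm.val_rename]
        exact hG
      · simp only [val_prT, Tm.val_rename, chainP, Tm.val]
        exact congrArg (fun z => prN (prN z g) g') ha
    constructor
    · intro hh g g' hg hg'
      exact (key g g' hg hg').1 (hh g hg g' hg')
    · intro hh g hg g' hg'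
      exact (key g g' hg hg').2 (hh g g' hg hg')

def Tm.enc : Tm → ℕ
  | Tm.var i => prN 0 i
  | Tm.zero => prN 1 0
  | Tm.one => prN 2 0
  | Tm.add s t => prN 3 (prN s.enc t.enc)
  | Tm.mul s t => prN 4 (prN s.enc t.enc)

def Fm.enc : Fm → ℕ
  | Fm.eq s t => prN 0 (prN s.enc t.enc)
  | Fm.lt s t => prN 1 (prN s.enc t.enc)
  | Fm.orc t => prN 2 t.enc
  | Fm.not φ => prN 3 φ.enc
  | Fm.and φ ψ => prN 4 (prN φ.enc ψ.enc)
  | Fm.ball t φ => prN 5 (prN t.enc φ.enc)

theorem prN_eq_iff {a b a' b' : ℕ} : prN a b = prN a' b' ↔ a = a' ∧ b = b' :=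
  ⟨prN_inj, fun h => by rw [h.1, h.2]⟩

theorem Tm.enc_inj : ∀ s t : Tm, s.enc = t.enc → s = t := by
  intro s
  induction s with
  | var i => intro t h; cases t <;> simp_all [Tm.enc, prN_eq_iff]
  | zero => intro t h; cases t <;> simp_all [Tm.enc, prN_eq_iff]
  | one => intro t h; cases t <;> simp_all [Tm.enc, prN_eq_iff]
  | add s1 s2 a b =>
    intro t h
    cases t <;> simp only [Tm.enc, prN_eq_iff] at h <;> try omega
    rw [a _ h.2.1, b _ h.2.2]
  | mul s1 s2 a b =>
    intro t h
    cases t <;> simp only [Tm.enc, prN_eq_iff] at h <;> try omega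
    rw [a _ h.2.1, b _ h.2.2]

theorem Fm.enc_inj : ∀ φ ψ : Fm, φ.enc = ψ.enc → φ = ψ := by
  intro φ
  induction φ with
  | eq s t =>
    intro ψ h
    cases ψ <;> simp only [Fm.enc, prN_eq_iff] at h <;> try omega
    rw [Tm.enc_inj _ _ h.2.1, Tm.enc_inj _ _ h.2.2]
  | lt s t =>
    intro ψ h
    cases ψ <;> simp only [Fm.enc, prN_eq_iff] at h <;> try omega
    rw [Tm.enc_inj _ _ h.2.1, Tm.enc_inj _ _ h.2.2]
  | orc t =>
    intro ψ h
    cases ψ <;> simp only [Fm.enc, prN_eq_iff] at h <;> try omega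
    rw [Tm.enc_inj _ _ h.2]
  | not φ a =>
    intro ψ h
    cases ψ <;> simp only [Fm.enc, prN_eq_iff] at h <;> try omega
    rw [a _ h.2]
  | and φ1 φ2 a b =>
    intro ψ h
    cases ψ <;> simp only [Fm.enc, prN_eq_iff] at h <;> try omega
    rw [a _ h.2.1, b _ h.2.2]
  | ball t φ a =>
    intro ψ h
    cases ψ <;> simp only [Fm.enc, prN_eq_iff] at h <;> try omega
    rw [Tm.enc_inj _ _ h.2.1, a _ h.2.2]

theorem exists_enum : ∃ fm : ℕ → Fm, ∀ χ, ∃ l, fm l = χ := by
  have : Nonempty Fm := ⟨Fm.orc Tm.zero⟩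
  exact ⟨Function.invFun Fm.enc, fun χ =>
    ⟨χ.enc, Function.leftInverse_invFun (fun a b h => Fm.enc_inj a b h) χ⟩⟩

end Pool.Agent.Lib.MP_646b81
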