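import Pool.Agent.Lib.MP_646b81.Defs

/-! Gödel numbers of terms and bounded formulas. -/

namespace Pool.Agent.Lib.MP_646b81

/-- The Gödel number of a term. -/
def Tm.code : Tm → ℕ
  | Tm.var i => Nat.pair 0 i
  | Tm.zero => Nat.pair 1 0
  | Tm.one => Nat.pair 2 0
  | Tm.add s t => Nat.pair 3 (Nat.pair s.code t.code)
  | Tm.mul s t => Nat.pair 4 (Nat.pair s.code t.code)

/-- The Gödel number of a bounded formula. -/
def Fm.code : Fm → ℕ
  | Fm.eq s t => Nat.pair 0 (Nat.pair s.code t.code)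
  | Fm.lt s t => Nat.pair 1 (Nat.pair s.code t.code)
  | Fm.orc t => Nat.pair 2 t.code
  | Fm.not φ => Nat.pair 3 φ.code
  | Fm.and φ ψ => Nat.pair 4 (Nat.pair φ.code ψ.code)
  | Fm.ball t φ => Nat.pair 5 (Nat.pair t.code φ.code)

end Pool.Agent.Lib.MP_646b81
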