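import Pool.Agent.Lib.MP_646b81.Arith
import Pool.Agent.Lib.MP_646b81.CodeDefs

/-! Explicit bounds, in terms of Gödel numbers, for the circuits of bounded formulas. -/

namespace Pool.Agent.Lib.MP_646b81

open Classical

theorem add_le_pair3 (a b c : ℕ) : a + b + c ≤ Nat.pair a (Nat.pair b c) := by
  have h1 := Nat.add_le_pair a (Nat.pair b c)
  have h2 := Nat.add_le_pair b c
  omega

theorem Tm.code_inj : ∀ s t : Tm, s.code = t.code → s = t := by
  intro s
  induction s with
  | var i => intro t h; cases t <;> simp_all [Tm.code]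
  | zero => intro t h; cases t <;> simp_all [Tm.code]
  | one => intro t h; cases t <;> simp_all [Tm.code]
  | add s1 s2 a b =>
    intro t h
    cases t <;> simp only [Tm.code, Nat.pair_eq_pair] at h <;> try omega
    rw [a _ h.2.1, b _ h.2.2]
  | mul s1 s2 a b =>
    intro t h
    cases t <;> simp only [Tm.code, Nat.pair_eq_pair] at h <;> try omega
    rw [a _ h.2.1, b _ h.2.2]

theorem Fm.code_inj : ∀ φ ψ : Fm, φ.code = ψ.code → φ = ψ := by
  intro φ
  induction φ with
  | eq s t =>
    intro ψ h
    cases ψ <;> simp only [Fm.code, Nat.pair_eq_pair] at h <;> try omega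
    rw [Tm.code_inj _ _ h.2.1, Tm.code_inj _ _ h.2.2]
  | lt s t =>
    intro ψ h
    cases ψ <;> simp only [Fm.code, Nat.pair_eq_pair] at h <;> try omega
    rw [Tm.code_inj _ _ h.2.1, Tm.code_inj _ _ h.2.2]
  | orc t =>
    intro ψ h
    cases ψ <;> simp only [Fm.code, Nat.pair_eq_pair] at h <;> try omega
    rw [Tm.code_inj _ _ h.2]
  | not φ a =>
    intro ψ h
    cases ψ <;> simp only [Fm.code, Nat.pair_eq_pair] at h <;> try omega
    rw [a _ h.2]
  | and φ1 φ2 a b =>
    intro ψ h
    cases ψ <;> simp only [Fm.code, Nat.pair_eq_pair] at h <;> try omega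
    rw [a _ h.2.1, b _ h.2.2]
  | ball t φ a =>
    intro ψ h
    cases ψ <;> simp only [Fm.code, Nat.pair_eq_pair] at h <;> try omega
    rw [Tm.code_inj _ _ h.2.1, a _ h.2.2]

variable {M : Type} {S : Str M}

theorem Tm.val_congr_code (t : Tm) {v v' : ℕ → M} (h : ∀ i, i ≤ t.code → v i = v' i) :
    t.val S v = t.val S v' := by
  induction t with
  | var i => exact h i (Nat.right_le_pair _ _)
  | zero => rfl
  | one => rfl
  | add s t a b =>
    have := add_le_pair3 3 s.code t.code
    simp only [Tm.code] at h
    simp only [Tm.val, a (fun i hi => h i (by omega)), b (fun i hi => h i (by omega))]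
  | mul s t a b =>
    have := add_le_pair3 4 s.code t.code
    simp only [Tm.code] at h
    simp only [Tm.val, a (fun i hi => h i (by omega)), b (fun i hi => h i (by omega))]

theorem Fm.holds_congr_code (φ : Fm) : ∀ {v v' : ℕ → M}, (∀ i, i ≤ φ.code → v i = v' i) →
    (φ.holds S v ↔ φ.holds S v') := by
  induction φ with
  | eq s t =>
    intro v v' h
    have := add_le_pair3 0 s.code t.code
    simp only [Fm.code] at h
    simp only [Fm.holds, s.val_congr_code (fun i hi => h i (by omega)),
      t.val_congr_code (fun i hi => h i (by omega))]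
  | lt s t =>
    intro v v' h
    have := add_le_pair3 1 s.code t.code
    simp only [Fm.code] at h
    simp only [Fm.holds, s.val_congr_code (fun i hi => h i (by omega)),
      t.val_congr_code (fun i hi => h i (by omega))]
  | orc t =>
    intro v v' h
    have := Nat.add_le_pair 2 t.code
    simp only [Fm.code] at h
    simp only [Fm.holds, t.val_congr_code (fun i hi => h i (by omega))]
  | not φ a =>
    intro v v' h
    have := Nat.add_le_pair 3 φ.code
    simp only [Fm.code] at h
    simp only [Fm.holds, a (fun i hi => h i (by omega))]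
  | and φ ψ a b =>
    intro v v' h
    have := add_le_pair3 4 φ.code ψ.code
    simp only [Fm.code] at h
    simp only [Fm.holds, a (fun i hi => h i (by omega)), b (fun i hi => h i (by omega))]
  | ball t φ a =>
    intro v v' h
    have := add_le_pair3 5 t.code φ.code
    simp only [Fm.code] at h
    simp only [Fm.holds, t.val_congr_code (fun i hi => h i (by omega))]
    apply forall_congr'
    intro x
    rw [a]
    intro i hi
    cases i with
    | zero => rfl
    | succ i => exact h i (by omega)

theorem Tm.bound_code (t : Tm) : ∀ (w : ℕ) (v : ℕ → ℕ), (∀ i, v i ≤ w) →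
    t.val (natStr ∅) v < (w + 2) ^ (t.code + 1) := by
  intro w v h
  have h0 : ∀ k, w + 2 ≤ (w + 2) ^ (k + 1) := fun k => Nat.le_self_pow (by omega) _
  induction t with
  | var i => have := h i; have := h0 (Tm.var i).code; simp only [Tm.val]; omega
  | zero => have := h0 Tm.zero.code; simp only [Tm.val, natStr_zero]; omega
  | one => have := h0 Tm.one.code; simp only [Tm.val, natStr_one]; omega
  | add s t a b =>
    have e0 := add_le_pair3 3 s.code t.code
    have e1 : (w + 2) ^ (s.code + 1) ≤ (w + 2) ^ (Tm.add s t).code :=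
      Nat.pow_le_pow_right (by omega) (by simp only [Tm.code]; omega)
    have e2 : (w + 2) ^ (t.code + 1) ≤ (w + 2) ^ (Tm.add s t).code :=
      Nat.pow_le_pow_right (by omega) (by simp only [Tm.code]; omega)
    simp only [Tm.val, natStr_add]
    rw [pow_succ]
    nlinarith
  | mul s t a b =>
    have e0 := add_le_pair3 4 s.code t.code
    simp only [Tm.val, natStr_mul]
    refine lt_of_lt_of_le (Nat.mul_lt_mul'' a b) ?_
    rw [← pow_add]
    exact Nat.pow_le_pow_right (by omega) (by simp only [Tm.code]; omega)

def Spec (φ : Fm) (k d : ℕ) : Prop :=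
  ∀ (w : ℕ) (v : ℕ → ℕ), (∀ i, v i ≤ w) →
    (∀ A A' : Set ℕ, (∀ n, n < (w + 2) ^ k → (n ∈ A ↔ n ∈ A')) →
      (φ.holds (natStr A) v ↔ φ.holds (natStr A') v)) ∧
    ∀ (V : Type) (O : (V → Bool) → Set ℕ), (∀ n, Sh 1 (fun x => decide (n ∈ O x))) →
      ∀ N, (w + 2) ^ k ≤ N → Cls N d (fun x => decide (φ.holds (natStr (O x)) v))

theorem Spec.mono {φ : Fm} {k d k' d' : ℕ} (h : Spec φ k d) (hk : k ≤ k') (hd : d ≤ d') :
    Spec φ k' d' := by
  intro w v hv
  have e : (w + 2) ^ k ≤ (w + 2) ^ k' := Nat.pow_le_pow_right (by omega) hk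
  have e1 : 1 ≤ (w + 2) ^ k := Nat.one_le_pow _ _ (by omega)
  exact ⟨fun A A' h' => (h w v hv).1 A A' (fun n hn => h' n (by omega)),
    fun V O hO N hN => ((h w v hv).2 V O hO N (by omega)).mono (by omega) hd⟩

theorem Fm.spec_code (φ : Fm) : Spec φ (2 ^ φ.code) φ.code := by
  have two_le : ∀ {w k N : ℕ}, 1 ≤ k → (w + 2) ^ k ≤ N → 2 ≤ N := by
    intro w k N hk h
    have : w + 2 ≤ (w + 2) ^ k := Nat.le_self_pow (by omega) _
    omega
  induction φ with
  | eq s t =>
    refine Spec.mono (k := 0) (d := 0) ?_ (Nat.zero_le _) (Nat.zero_le _)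
    refine fun w v _ => ⟨fun A A' _ => ?_, fun V O _ N _ => ?_⟩
    · simp only [Fm.holds, s.val_indep A A', t.val_indep A A']
    · refine (Sh.const 1 (decide (s.val (natStr ∅) v = t.val (natStr ∅) v))).congr ?_
      intro x
      simp only [Fm.holds, s.val_indep (O x) ∅, t.val_indep (O x) ∅]
  | lt s t =>
    refine Spec.mono (k := 0) (d := 0) ?_ (Nat.zero_le _) (Nat.zero_le _)
    refine fun w v _ => ⟨fun A A' _ => ?_, fun V O _ N _ => ?_⟩
    · simp only [Fm.holds, s.val_indep A A', t.val_indep A A', natStr_lt]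
    · refine (Sh.const 1 (decide (s.val (natStr ∅) v < t.val (natStr ∅) v))).congr ?_
      intro x
      simp only [Fm.holds, s.val_indep (O x) ∅, t.val_indep (O x) ∅, natStr_lt]
  | orc t =>
    refine Spec.mono (k := t.code + 1) (d := 0) ?_ ?_ (Nat.zero_le _)
    · refine fun w v hv => ⟨fun A A' h => ?_, fun V O hO N _ => ?_⟩
      · simp only [Fm.holds, t.val_indep A ∅, t.val_indep A' ∅, natStr_orc]
        exact h _ (t.bound_code w v hv)
      · refine (hO (t.val (natStr ∅) v)).congr ?_
        intro x
        simp only [Fm.holds, t.val_indep (O x) ∅, natStr_orc]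
    · have h1 := Nat.add_le_pair 2 t.code
      have h2 : (Fm.orc t).code < 2 ^ (Fm.orc t).code := Nat.lt_two_pow_self
      simp only [Fm.code] at h2 ⊢
      omega
  | not φ a =>
    have h1 := Nat.add_le_pair 3 φ.code
    refine Spec.mono (k := 2 ^ φ.code) (d := φ.code + 1) ?_
      (Nat.pow_le_pow_right (by omega) (by simp only [Fm.code]; omega))
      (by simp only [Fm.code]; omega)
    refine fun w v hv => ⟨fun A A' h => ?_, fun V O hO N hN => ?_⟩
    · simp only [Fm.holds, (a w v hv).1 A A' h]
    · have := two_le Nat.one_le_two_pow hN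
      refine (((a w v hv).2 V O hO N hN).not (by omega)).congr ?_
      intro x
      simp [Fm.holds]
  | and φ ψ a b =>
    have h1 := add_le_pair3 4 φ.code ψ.code
    have a' := a.mono (k' := 2 ^ (φ.code + ψ.code)) (d' := φ.code + ψ.code)
      (Nat.pow_le_pow_right (by omega) (by omega)) (by omega)
    have b' := b.mono (k' := 2 ^ (φ.code + ψ.code)) (d' := φ.code + ψ.code)
      (Nat.pow_le_pow_right (by omega) (by omega)) (by omega)
    refine Spec.mono (k := 2 ^ (φ.code + ψ.code)) (d := φ.code + ψ.code + 1 + 1) ?_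
      (Nat.pow_le_pow_right (by omega) (by simp only [Fm.code]; omega))
      (by simp only [Fm.code]; omega)
    refine fun w v hv => ⟨fun A A' h => ?_, fun V O hO N hN => ?_⟩
    · simp only [Fm.holds, (a' w v hv).1 A A' h, (b' w v hv).1 A A' h]
    · have h2 := two_le Nat.one_le_two_pow hN
      have c1 := ((a' w v hv).2 V O hO N hN).not (by omega)
      have c2 := ((b' w v hv).2 V O hO N hN).not (by omega)
      refine ⟨[fun x => !decide (φ.holds (natStr (O x)) v),
        fun x => !decide (ψ.holds (natStr (O x)) v)], h2, ?_, ?_⟩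
      · intro g hg
        simp only [List.mem_cons, List.not_mem_nil, or_false] at hg
        rcases hg with rfl | rfl
        · exact c1
        · exact c2
      · intro x
        simp [Fm.holds]
  | ball t φ a =>
    have h1 := add_le_pair3 5 t.code φ.code
    set kt := t.code + 1 with hkt
    set k := 2 ^ φ.code with hkdef
    have hk : 1 ≤ k := Nat.one_le_two_pow
    have ht := t.bound_code
    rw [← hkt] at ht
    refine Spec.mono (k := (kt + 2) * k) (d := φ.code + 1 + 1) ?_ ?_
      (by simp only [Fm.code]; omega)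
    swap
    · have h2 : kt + 2 ≤ 2 ^ (kt + 2) := Nat.lt_two_pow_self.le
      refine le_trans (Nat.mul_le_mul_right _ h2) ?_
      rw [hkdef, ← pow_add]
      exact Nat.pow_le_pow_right (by omega) (by simp only [Fm.code]; omega)
    intro w v hv
    have e0 : (w + 2) ^ kt + w + 2 ≤ (w + 2) ^ (kt + 2) := by
      have h1 : 1 ≤ (w + 2) ^ kt := Nat.one_le_pow _ _ (by omega)
      have h2 : (w + 2) ^ kt * (w + 2) ^ 2 =
          (w + 2) ^ kt + (w + 2) ^ kt * (w * w + 4 * w + 3) := by ring
      have h3 : 1 * (w * w + 4 * w + 3) ≤ (w + 2) ^ kt * (w * w + 4 * w + 3) :=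
        Nat.mul_le_mul_right _ h1
      rw [pow_add (w + 2) kt 2, h2]
      nlinarith
    have e1 : ((w + 2) ^ kt + w + 2) ^ k ≤ (w + 2) ^ ((kt + 2) * k) := by
      rw [pow_mul]
      exact Nat.pow_le_pow_left e0 _
    have e2 : (w + 2) ^ kt ≤ (w + 2) ^ ((kt + 2) * k) :=
      Nat.pow_le_pow_right (by omega) (by nlinarith)
    have hb : ∀ x, x < t.val (natStr ∅) v → ∀ i, cons x v i ≤ (w + 2) ^ kt + w := by
      intro x hx i
      have := ht w v hv
      cases i with
      | zero => simp only [cons_zero]; omega
      | succ i => have := hv i; simp only [cons_succ]; omega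
    refine ⟨fun A A' h => ?_, fun V O hO N hN => ?_⟩
    · simp only [Fm.holds, t.val_indep A ∅, t.val_indep A' ∅, natStr_lt]
      apply forall_congr'
      intro x
      apply imp_congr_right
      intro hx
      exact (a _ _ (hb x hx)).1 A A' (fun n hn => h n (by omega))
    · have h2 := two_le (by nlinarith) hN
      refine ⟨(List.range (t.val (natStr ∅) v)).map
        (fun z x => !decide (φ.holds (natStr (O x)) (cons z v))), ?_, ?_, ?_⟩
      · have := ht w v hv
        simp only [List.length_map, List.length_range]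
        omega
      · intro g hg
        obtain ⟨z, hz, rfl⟩ := List.mem_map.1 hg
        exact ((a _ _ (hb z (List.mem_range.1 hz))).2 V O hO N (by omega)).not (by omega)
      · intro x
        simp only [Fm.holds, t.val_indep (O x) ∅, natStr_lt, List.any_map]
        rw [Bool.eq_iff_iff]
        simp

end Pool.Agent.Lib.MP_646b81
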