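import Mathlib

/-! Bounded formulas of arithmetic with one extra unary predicate (the oracle). -/

namespace Pool.Agent.Lib.MP_646b81

/-- Terms of the language `0, 1, +, *`, with variables numbered by de Bruijn indices. -/
inductive Tm : Type
  | var (i : ℕ) : Tm
  | zero : Tm
  | one : Tm
  | add (s t : Tm) : Tm
  | mul (s t : Tm) : Tm

/-- Bounded formulas of the language `0, 1, +, *, <, α`: atomic formulas `s = t`, `s < t`, `α(t)`,
negation, conjunction and the bounded quantifier `∀ x < t` (binding index `0` of the body). -/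
inductive Fm : Type
  | eq (s t : Tm) : Fm
  | lt (s t : Tm) : Fm
  | orc (t : Tm) : Fm
  | not (φ : Fm) : Fm
  | and (φ ψ : Fm) : Fm
  | ball (t : Tm) (φ : Fm) : Fm

/-- A structure for the language `0, 1, +, *, <, α` on the type `M`. -/
structure Str (M : Type) : Type where
  zero : M
  one : M
  add : M → M → M
  mul : M → M → M
  lt : M → M → Prop
  orc : M → Prop

/-- The valuation giving `x` to variable `0` and `v i` to variable `i + 1`. -/
def cons {M : Type} (x : M) (v : ℕ → M) : ℕ → M
  | 0 => x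
  | i + 1 => v i

/-- The value of a term. -/
def Tm.val {M : Type} (S : Str M) (v : ℕ → M) : Tm → M
  | Tm.var i => v i
  | Tm.zero => S.zero
  | Tm.one => S.one
  | Tm.add s t => S.add (Tm.val S v s) (Tm.val S v t)
  | Tm.mul s t => S.mul (Tm.val S v s) (Tm.val S v t)

/-- Satisfaction of a bounded formula. -/
def Fm.holds {M : Type} (S : Str M) : Fm → (ℕ → M) → Prop
  | Fm.eq s t, v => s.val S v = t.val S v
  | Fm.lt s t, v => S.lt (s.val S v) (t.val S v)
  | Fm.orc t, v => S.orc (t.val S v)
  | Fm.not φ, v => ¬Fm.holds S φ v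
  | Fm.and φ ψ, v => Fm.holds S φ v ∧ Fm.holds S ψ v
  | Fm.ball t φ, v => ∀ x, S.lt x (t.val S v) → Fm.holds S φ (cons x v)

/-- The standard model with the oracle `A`. -/
def natStr (A : Set ℕ) : Str ℕ where
  zero := 0
  one := 1
  add := fun a b => a + b
  mul := fun a b => a * b
  lt := fun a b => a < b
  orc := fun a => a ∈ A

/-- `S` satisfies every `Π₁(α)` sentence true in `(ℕ, A)`. -/
def Pi1Sound (A : Set ℕ) {M : Type} (S : Str M) : Prop :=
  ∀ φ : Fm, (∀ v, φ.holds (natStr A) v) → ∀ v, φ.holds S v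

/-- The bounded formula `E` defines the graph `x₀ = 2 ^ x₁` in `(ℕ, A)`. -/
def DefinesExp (A : Set ℕ) (E : Fm) : Prop :=
  ∀ v, E.holds (natStr A) v ↔ v 0 = 2 ^ v 1

/-- `S` satisfies the axiom `exp`, written with the formula `E`. -/
def ExpTotal {M : Type} (S : Str M) (E : Fm) : Prop :=
  ∀ v, ∃ y, E.holds S (cons y v)

/-- `S` satisfies the collection scheme for all bounded formulas with oracle and parameters. -/
def BSigma1 {M : Type} (S : Str M) : Prop :=
  ∀ (φ : Fm) (v : ℕ → M) (a : M),
    (∀ u, S.lt u a → ∃ w, φ.holds S (cons w (cons u v))) →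
      ∃ b, ∀ u, S.lt u a → ∃ w, S.lt w b ∧ φ.holds S (cons w (cons u v))

end Pool.Agent.Lib.MP_646b81
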