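import Pool.Agent.Lib.MP_646b81.Round

/-! The self-referential coding theorem: bounded-depth circuits of all levels can have their
values coded simultaneously by Sipser functions on the very input they read. -/

namespace Pool.Agent.Lib.MP_646b81

open Classical Finset

variable {β : Type}

def Good (B : Finset β) (K n : β → ℕ) (t : ℕ) (A : (Nd β → Bool) → Nd β → Bool) : Prop :=
  ∀ b ∈ B, ∀ p ∈ Paths (K b * K b) (n b), ∀ y,
    sip (K b * K b) (fun p => A y (b, p)) (t + 1) p = nandV (K b * K b) y b p

theorem good_step {B : Finset β} {K n : β → ℕ} {t : ℕ} {A : (Nd β → Bool) → Nd β → Bool}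
    (hA : Good B K n t A) (σ : (Nd β → Bool) → Nd β → Bool) {b : β} (hb : b ∈ B) {m : ℕ}
    (hn : n b = m + 1) {p : List (ℕ × ℕ)} (hp : p ∈ Paths (K b * K b) m) (y : Nd β → Bool)
    (h : (∀ g g', g < K b * K b → g' < K b * K b →
          nandV (K b * K b) (σ y) b ((g, g') :: p) = true) ↔
        ∀ g, g < K b * K b → y (b, (g, 0) :: p) = true) :
    sip (K b * K b) (fun p => A (σ y) (b, p)) (t + 1 + 1) p = nandV (K b * K b) y b p := by
  rw [sip]
  unfold nandV
  congr 1
  apply decide_eq_decide.2
  rw [← h]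
  constructor
  · intro hh g g' hg hg'
    rw [← hA b hb _ (by rw [hn]; exact cons_mem_Paths hg hg' hp)]
    exact hh g g' hg hg'
  · intro hh g g' hg hg'
    rw [hA b hb _ (by rw [hn]; exact cons_mem_Paths hg hg' hp)]
    exact hh g g' hg hg'

theorem collapse {B : Finset β} {K : β → ℕ} {K0 M D J : ℕ} (hK0 : 2 ≤ K0)
    (hK : ∀ b ∈ B, K0 ≤ K b) (hM : 1 ≤ M) (hD : 32 * D ≤ K0)
    (hN : ∀ b ∈ B, B.card * 8 * (K b * K b * (K b * K b)) ^ J ≤ 2 ^ K b) (d : ℕ) :
    ∀ (n : β → ℕ) (t : ℕ) (A : (Nd β → Bool) → Nd β → Bool)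
      (F : List ((Nd β → Bool) → Bool)), (∀ b ∈ B, d ≤ n b) → (∀ b ∈ B, n b ≤ J) →
      Good B K n t A → (∀ v, Sh D (fun y => A y v)) → (∀ f ∈ F, Cls M d f) →
      F.length * M ^ d * 2 ≤ 2 ^ D →
      ∃ σ : (Nd β → Bool) → Nd β → Bool, (∀ v, Sh 1 (fun y => σ y v)) ∧
        Good B K (fun b => n b - d) (t + d) (fun y => A (σ y)) ∧
        ∀ f ∈ F, Sh D (fun y => f (A (σ y))) := by
  induction d with
  | zero =>
    intro n t A F _ _ hG hA hF _
    refine ⟨fun y => y, fun v => Sh.var v, hG, fun f hf => ?_⟩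
    have := Sh.comp (hF f hf) A hA
    rwa [Nat.one_mul] at this
  | succ d ih =>
    intro n t A F hd hJ hG hA hF hlen
    obtain ⟨F', a1, a2, a3⟩ := cls_children F hF
    obtain ⟨σ1, s1, s2, s3⟩ := ih n t A F' (fun b hb => le_trans (Nat.le_succ d) (hd b hb)) hJ
      hG hA a2 (by
        refine le_trans ?_ hlen
        rw [pow_succ', ← Nat.mul_assoc]
        exact Nat.mul_le_mul_right _ (Nat.mul_le_mul_right _ a1))
    have hΦ : ∀ f, f ∈ F → ∃ Φ : List (List (Nd β × Bool)), (∀ C ∈ Φ, C.length ≤ D) ∧
        ∀ y, f (A (σ1 y)) = !evalD Φ y := by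
      intro f hf
      obtain ⟨L, l1, l2⟩ := a3 f hf
      obtain ⟨Φ, p1, p2⟩ := dnf_of_any (d := D) (L.map (fun g y => g (A (σ1 y)))) (by
        intro g hg
        obtain ⟨g', hg', rfl⟩ := List.mem_map.1 hg
        exact s3 g' (l1 g' hg'))
      refine ⟨Φ, p1, fun y => ?_⟩
      rw [l2, ← p2, List.any_map]
      rfl
    choose! Φ p1 p2 using hΦ
    have hq := qq_hq hK0 hK
    have hK0' : (0 : ℝ) < K0 := by
      have : 0 < K0 := by omega
      exact_mod_cast this
    have hN' : ∀ b ∈ B, B.card * 8 * (K b * K b * (K b * K b)) ^ (n b - d) ≤ 2 ^ K b := by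
      intro b hb
      refine le_trans (Nat.mul_le_mul_left _ (Nat.pow_le_pow_right ?_ ?_)) (hN b hb)
      · have := le_trans hK0 (hK b hb)
        positivity
      · exact le_trans (Nat.sub_le _ _) (hJ b hb)
    obtain ⟨Z, Zp, τ, r1, _, r3, r4, _, _, r7⟩ := round (n := fun b => n b - d) hK0 hK hN'
      (fun Z => ∃ f ∈ F, badD gam (Φ f) D Z) (by
        refine le_trans (Pr_exists_list hq F _ ((1 / 2) ^ D) (fun f hf => ?_)) ?_
        · apply switching hq (r := 2 / K0) (by positivity) (qq_hqr hK0 hK) _ _ (p1 f hf)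
          have : (32 : ℝ) * D ≤ K0 := by exact_mod_cast hD
          rw [show (16 : ℝ) * (D * (2 / K0)) = 32 * D / K0 by ring, div_le_one hK0']
          exact this
        · have h1 : F.length * 2 ≤ 2 ^ D := by
            refine le_trans (Nat.mul_le_mul_right _ ?_) hlen
            exact Nat.le_mul_of_pos_right _ (by positivity)
          have h2 : (F.length : ℝ) * 2 ≤ 2 ^ D := by exact_mod_cast h1
          rw [one_div_pow, mul_one_div, div_le_iff₀ (by positivity)]
          linarith)
    have hZ : Zp = Z := r3 (fun b hb => by have := hd b hb; omega)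
    subst hZ
    refine ⟨fun y => σ1 (proj gam Zp (τ y)), fun v => ?_, ?_, fun f hf => ?_⟩
    · exact ((s1 v).comp_one _ (sh_proj gam Zp)).comp_one τ r4
    · intro b hb p hp y
      have hn : n b - d = (n b - (d + 1)) + 1 := by have := hd b hb; omega
      exact good_step s2 (fun y => proj gam Zp (τ y)) hb hn hp y (r7 b hb _ hn p hp y)
    · push Not at r1
      have := r1 f hf
      unfold badD at this
      push Not at this
      refine (this.not.comp_one τ r4).congr ?_
      intro y
      rw [p2 f hf]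

/-- cumulative number of rounds -/
def tt (d : ℕ → ℕ) : ℕ → ℕ
  | 0 => 0
  | l + 1 => tt d l + d l + 1

theorem tt_mono (d : ℕ → ℕ) : Monotone (tt d) :=
  monotone_nat_of_le_succ (fun l => by simp only [tt]; omega)

noncomputable def ov (P : β → Prop) (a : β → Bool) (y : Nd β → Bool) : Nd β → Bool :=
  fun v => if P v.1 ∧ v.2 = [] then a v.1 else y v

noncomputable def iter (P : β → Prop) (g : β → (Nd β → Bool) → Bool) :
    ℕ → (Nd β → Bool) → β → Bool
  | 0, _, _ => false
  | i + 1, y, b => g b (ov P (iter P g i y) y)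

theorem sh_iter (P : β → Prop) (g : β → (Nd β → Bool) → Bool) {D : ℕ} (hD : 1 ≤ D)
    (hg : ∀ b, P b → Sh D (g b)) (i : ℕ) :
    ∀ v, Sh (D ^ i) (fun y => ov P (iter P g i y) y v) := by
  induction i with
  | zero =>
    intro v
    unfold ov
    split_ifs
    · exact Sh.const _ _
    · exact Sh.var v
  | succ i ih =>
    intro v
    unfold ov
    split_ifs with h
    · rw [pow_succ']
      exact (hg _ h.1).comp _ ih
    · exact (Sh.var v).mono (Nat.one_le_pow _ _ hD)

theorem iter_stable (P : β → Prop) (g : β → (Nd β → Bool) → Bool) (pos : β → ℕ)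
    (hg : ∀ b, P b → ∀ y y' : Nd β → Bool,
      (∀ v, ¬(P v.1 ∧ pos b ≤ pos v.1) → y v = y' v) → g b y = g b y') (y : Nd β → Bool) :
    ∀ i b, P b → pos b < i → iter P g (i + 1) y b = iter P g i y b := by
  intro i
  induction i with
  | zero => intro b _ h; omega
  | succ i ih =>
    intro b hb h
    rw [iter, iter]
    apply hg b hb
    intro v hv
    unfold ov
    split_ifs with h'
    · apply ih _ h'.1
      by_contra hc
      exact hv ⟨h'.1, by omega⟩
    · rfl

theorem epoch (B : Finset β) (lev pos K : β → ℕ) (d : ℕ → ℕ) (C : β → (Nd β → Bool) → Bool)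
    (L I K0 M D0 : ℕ) (hK0 : 2 ≤ K0) (hK : ∀ b ∈ B, K0 ≤ K b) (hM : 1 ≤ M) (hD0 : 1 ≤ D0)
    (hlev : ∀ b ∈ B, lev b < L) (hpos : ∀ b ∈ B, pos b < I)
    (hmono : ∀ b ∈ B, ∀ b' ∈ B, lev b = lev b' → pos b ≤ pos b' → K b ≤ K b')
    (hC : ∀ b ∈ B, Cls M (d (lev b)) (C b))
    (hcount : ∀ l, l < L → B.card * M ^ d l * 2 ≤ 2 ^ D0)
    (hD : 32 * D0 ^ (I + 1) ^ L ≤ K0)
    (hH : ∑ b ∈ B, ((D0 ^ (I + 1) ^ L : ℕ) : ℝ) / K b ≤ 1 / 8)
    (hN : ∀ b ∈ B, B.card * 8 * (K b * K b * (K b * K b)) ^ tt d L ≤ 2 ^ K b) :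
    ∃ x : Nd β → Bool, ∀ b ∈ B,
      sip (K b * K b) (fun p => x (b, p)) (tt d (lev b + 1)) [] = C b x := by
  have key : ∀ l, l ≤ L → ∃ A : (Nd β → Bool) → Nd β → Bool,
      (∀ v, Sh (D0 ^ (I + 1) ^ l) (fun y => A y v)) ∧
      Good (B.filter (fun b => l ≤ lev b)) K (fun b => tt d (lev b + 1) - tt d l - 1) (tt d l) A ∧
      ∀ b ∈ B, lev b < l → ∀ y,
        sip (K b * K b) (fun p => A y (b, p)) (tt d (lev b + 1)) [] = C b (A y) := by
    intro l
    induction l with
    | zero =>
      intro _
      refine ⟨fun y v => match v.2 with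
        | [] => true
        | (g1, g2) :: p => if g2 = 0 then y (v.1, (g1, 0) :: p) else true, ?_, ?_, ?_⟩
      · rintro ⟨b, p⟩
        rcases p with _ | ⟨⟨g1, g2⟩, p⟩
        · exact Sh.const _ _
        · simp only
          split_ifs
          · exact (Sh.var _).mono (by simpa using hD0)
          · exact Sh.const _ _
      · intro b hb p _ y
        have hpos : 0 < K b * K b := by
          have := le_trans hK0 (hK b (Finset.mem_filter.1 hb).1)
          positivity
        simp only [tt, sip, nandV]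
        congr 1
        apply decide_eq_decide.2
        constructor
        · intro h g hg
          simpa using h g 0 hg hpos
        · intro h g g' hg _
          split_ifs
          · exact h g hg
          · rfl
      · intro b _ h
        omega
    | succ l ih =>
      intro hl
      obtain ⟨A, a1, a2, a3⟩ := ih (by omega)
      set D := D0 ^ (I + 1) ^ l with hDdef
      have hD1 : 1 ≤ D := Nat.one_le_pow _ _ hD0
      have hDle : D ≤ D0 ^ (I + 1) ^ L :=
        Nat.pow_le_pow_right hD0 (Nat.pow_le_pow_right (by omega) (by omega))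
      have hD0D : D0 ≤ D := by
        rw [hDdef]
        exact Nat.le_self_pow (by positivity) _
      set B1 := B.filter (fun b => l ≤ lev b) with hB1
      have hB1m : ∀ b, b ∈ B1 ↔ b ∈ B ∧ l ≤ lev b := fun b => Finset.mem_filter
      have hK1 : ∀ b ∈ B1, K0 ≤ K b := fun b hb => hK b ((hB1m b).1 hb).1
      have hN1 : ∀ b ∈ B1, B1.card * 8 * (K b * K b * (K b * K b)) ^ tt d L ≤ 2 ^ K b := by
        intro b hb
        refine le_trans ?_ (hN b ((hB1m b).1 hb).1)
        exact Nat.mul_le_mul_right _ (Nat.mul_le_mul_right _ (Finset.card_filter_le _ _))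
      have htt : ∀ b ∈ B1, tt d l + d l + 1 ≤ tt d (lev b + 1) ∧ tt d (lev b + 1) ≤ tt d L := by
        intro b hb
        obtain ⟨h1, h2⟩ := (hB1m b).1 hb
        exact ⟨tt_mono d (show l + 1 ≤ lev b + 1 by omega), tt_mono d (hlev b h1)⟩
      set B2 := B.filter (fun b => lev b = l) with hB2
      have hB2m : ∀ b, b ∈ B2 ↔ b ∈ B ∧ lev b = l := fun b => Finset.mem_filter
      obtain ⟨σ, s1, s2, s3⟩ := collapse (D := D) hK0 hK1 hM (by omega) hN1 (d l) _ _ A
        (B2.toList.map C) (fun b hb => by have := htt b hb; omega)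
        (fun b hb => by have := htt b hb; omega) a2 a1 (by
          intro f hf
          obtain ⟨b, hb, rfl⟩ := List.mem_map.1 hf
          obtain ⟨h1, h2⟩ := (hB2m b).1 (Finset.mem_toList.1 hb)
          rw [← h2]
          exact hC b h1) (by
          rw [List.length_map, Finset.length_toList]
          refine le_trans ?_ (le_trans (hcount l (by omega)) (Nat.pow_le_pow_right (by omega) hD0D))
          exact Nat.mul_le_mul_right _ (Nat.mul_le_mul_right _ (Finset.card_filter_le _ _)))
      have s3' : ∀ b ∈ B2, Sh D (fun y => C b (A (σ y))) := fun b hb =>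
        s3 _ (List.mem_map.2 ⟨b, Finset.mem_toList.2 hb, rfl⟩)
      have hq := qq_hq hK0 hK1
      have hK0' : (0 : ℝ) < K0 := by
        have : 0 < K0 := by omega
        exact_mod_cast this
      obtain ⟨Z, Zp, τ, r1, r2, _, r4, r5, r6, r7⟩ := round
        (n := fun b => tt d (lev b + 1) - tt d l - 1 - d l) hK0 hK1 (by
          intro b hb
          refine le_trans (Nat.mul_le_mul_left _ (Nat.pow_le_pow_right ?_ ?_)) (hN1 b hb)
          · have := le_trans hK0 (hK1 b hb)
            positivity
          · have := htt b hb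
            omega)
        (fun Z => ∃ b ∈ B2, hitE (fun v : Nd β => v.1 ∈ B2 ∧ pos b ≤ pos v.1)
          (fun y => C b (A (σ y))) Z) (by
          refine le_trans (Pr_exists hq _ _) ?_
          have h1 : ∀ b ∈ B2, Pr (UU B1 K (fun b => tt d (lev b + 1) - tt d l - 1 - d l))
              (qq B1 K) (hitE (fun v : Nd β => v.1 ∈ B2 ∧ pos b ≤ pos v.1)
              (fun y => C b (A (σ y)))) ≤ 4 * (((D0 ^ (I + 1) ^ L : ℕ) : ℝ) / K b) := by
            intro b hb
            obtain ⟨hb1, hb2⟩ := (hB2m b).1 hb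
            have hKb : 2 ≤ K b := le_trans hK0 (hK b hb1)
            have hKb' : (0 : ℝ) < K b := by
              have : 0 < K b := by omega
              exact_mod_cast this
            refine le_trans (hits hq (r := 2 / K0) (r1 := 2 / K b) (by positivity)
              (by positivity) (qq_hqr hK0 hK1) _ ?_ D _ (s3' b hb)) ?_
            · rintro v ⟨hv1, hv2⟩
              obtain ⟨hv3, hv4⟩ := (hB2m _).1 hv1
              apply (le_ratio hKb (hq _).1 _).2
              have hv5 : v.1 ∈ B1 := (hB1m _).2 ⟨hv3, by omega⟩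
              simp only [qq, Sum.elim_inl, hv5, if_true]
              apply one_div_le_one_div_of_le hKb'
              exact_mod_cast hmono b hb1 v.1 hv3 (by omega) hv2
            · have e1 := one_add_pow_le (x := 2 / K0) (by positivity) D
              have e2 : (D : ℝ) * (2 / K0) ≤ 1 / 2 := by
                have : (32 : ℝ) * D ≤ K0 := by exact_mod_cast (by omega : 32 * D ≤ K0)
                rw [show (D : ℝ) * (2 / K0) = 2 * D / K0 by ring, div_le_iff₀ hK0']
                have : (0 : ℝ) ≤ D := by positivity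
                linarith
              have e3 : (0 : ℝ) ≤ (1 + 2 / K0) ^ D := by positivity
              have e4 : ((1 : ℝ) + 2 / K0) ^ D ≤ 2 := by nlinarith
              have e5 : (D : ℝ) ≤ ((D0 ^ (I + 1) ^ L : ℕ) : ℝ) := by exact_mod_cast hDle
              calc (D : ℝ) * (2 / K b) * (1 + 2 / K0) ^ D ≤ D * (2 / K b) * 2 :=
                    mul_le_mul_of_nonneg_left e4 (by positivity)
                _ = 4 * (D / K b) := by ring
                _ ≤ _ := by gcongr
          refine le_trans (Finset.sum_le_sum h1) ?_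
          rw [← Finset.mul_sum]
          have h2 : ∑ b ∈ B2, ((D0 ^ (I + 1) ^ L : ℕ) : ℝ) / K b ≤
              ∑ b ∈ B, ((D0 ^ (I + 1) ^ L : ℕ) : ℝ) / K b :=
            Finset.sum_le_sum_of_subset_of_nonneg (Finset.filter_subset _ _)
              (fun _ _ _ => by positivity)
          linarith)
      set g : β → (Nd β → Bool) → Bool := fun b y => C b (A (σ (proj gam Zp (τ y)))) with hg
      have hgs : ∀ b, b ∈ B2 → Sh D (g b) := fun b hb =>
        ((s3' b hb).comp_one _ (sh_proj gam Zp)).comp_one τ r4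
      have hgi : ∀ b, b ∈ B2 → ∀ y y' : Nd β → Bool,
          (∀ v, ¬(v.1 ∈ B2 ∧ pos b ≤ pos v.1) → y v = y' v) → g b y = g b y' := by
        intro b hb y y' hyy
        by_contra hne
        apply r1
        refine ⟨b, hb, proj gam Zp (τ y), proj gam Zp (τ y'), ?_, ?_, ?_, hne⟩
        · intro v hv
          simp [proj, r2, hv]
        · intro v hv
          simp [proj, r2, hv]
        · intro v hv
          have := r5 y y' v.1 (fun p => hyy (v.1, p) hv) v.2.tail
          simp only [proj, gam, this]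
      set w : (Nd β → Bool) → Nd β → Bool :=
        fun y => ov (fun b => b ∈ B2) (iter (fun b => b ∈ B2) g I y) y with hw
      refine ⟨fun y => A (σ (proj gam Zp (τ (w y)))), fun v => ?_, ?_, ?_⟩
      · have h1 := ((((a1 v).comp_one σ s1).comp_one _ (sh_proj gam Zp)).comp_one τ r4).comp w
          (sh_iter _ g hD1 hgs I)
        rw [pow_succ, pow_mul, ← hDdef, pow_succ']
        exact h1
      · intro b hb p hp y
        obtain ⟨hb1, hb2⟩ := Finset.mem_filter.1 hb
        have hb3 : b ∈ B1 := (hB1m b).2 ⟨hb1, by omega⟩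
        have h2 : tt d (l + 1) + d (l + 1) + 1 ≤ tt d (lev b + 1) :=
          tt_mono d (show l + 1 + 1 ≤ lev b + 1 by omega)
        have h3 : tt d (l + 1) = tt d l + d l + 1 := rfl
        have hn : tt d (lev b + 1) - tt d l - 1 - d l =
            (tt d (lev b + 1) - tt d (l + 1) - 1) + 1 := by omega
        have := good_step s2 (fun y => proj gam Zp (τ y)) hb3 hn hp (w y)
          (r7 b hb3 _ hn p hp (w y))
        rw [h3]
        refine this.trans ?_
        unfold nandV
        simp [hw, ov]
      · intro b hb hlt y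
        by_cases hbl : lev b < l
        · exact a3 b hb hbl _
        · have hbl' : lev b = l := by omega
          have hb3 : b ∈ B1 := (hB1m b).2 ⟨hb, by omega⟩
          have hb2 : b ∈ B2 := (hB2m b).2 ⟨hb, hbl'⟩
          have hn : tt d (lev b + 1) - tt d l - 1 - d l = 0 := by
            rw [hbl']; simp only [tt]; omega
          have h1 := s2 b hb3 [] (by simp only [hn]; exact mem_Paths_zero.2 rfl)
            (proj gam Zp (τ (w y)))
          have h3 : tt d (lev b + 1) = tt d l + d l + 1 := by rw [hbl']; rfl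
          rw [h3]
          refine h1.trans ?_
          rw [r6 b hb3 hn]
          have h4 : w y (b, []) = iter (fun b => b ∈ B2) g I y b := by
            simp [hw, ov, hb2]
          rw [h4, ← iter_stable (fun b => b ∈ B2) g pos hgi y I b hb2 (hpos b hb)]
          rfl
  obtain ⟨A, _, _, a3⟩ := key L le_rfl
  exact ⟨A (fun _ => true), fun b hb => a3 b hb (hlev b hb) _⟩

end Pool.Agent.Lib.MP_646b81
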