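import Pool.Agent.Lib.MP_646b81.Switch

/-! A shallow function rarely notices the hidden coordinates in a prescribed set. -/

namespace Pool.Agent.Lib.MP_646b81

open Classical Finset

variable {V W : Type}

def hitE (U1 : V → Prop) (f : (V → Bool) → Bool) (Z : Finset (V ⊕ W)) : Prop :=
  ∃ x x' : V → Bool, (∀ v, Sum.inl v ∉ Z → x v = true) ∧ (∀ v, Sum.inl v ∉ Z → x' v = true) ∧
    (∀ v, ¬U1 v → x v = x' v) ∧ f x ≠ f x'

variable {U : Finset (V ⊕ W)} {q : V ⊕ W → ℝ}

theorem hits (hq : ∀ i, 0 ≤ q i ∧ q i ≤ 1) {r r1 : ℝ} (hr : 0 ≤ r) (hr1 : 0 ≤ r1)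
    (hqr : ∀ i, q i ≤ r * (1 - q i)) (U1 : V → Prop)
    (hq1 : ∀ v, U1 v → q (Sum.inl v) ≤ r1 * (1 - q (Sum.inl v))) (D : ℕ) :
    ∀ f : (V → Bool) → Bool, Sh D f → Pr U q (hitE U1 f) ≤ D * r1 * (1 + r) ^ D := by
  have hconst : ∀ f : (V → Bool) → Bool, (∃ c, ∀ x, f x = c) → Pr U q (hitE U1 f) ≤ 0 := by
    rintro f ⟨c, hc⟩
    rw [← Pr_false (U := U) (q := q)]
    apply Pr_mono hq
    rintro Z _ ⟨x, x', _, _, _, h⟩
    exact h (by rw [hc, hc])
  induction D with
  | zero =>
    intro f hf
    simpa using hconst f hf.zero_const
  | succ D ih =>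
    intro f hf
    rcases hf.split with h | ⟨v, hv⟩
    · exact le_trans (hconst f h) (by positivity)
    have i0 := ih _ (hv false)
    have i1 := ih _ (hv true)
    have a : Pr U q (fun Z => U1 v ∧ Sum.inl v ∈ Z) ≤ r1 := by
      by_cases hU : U1 v
      · have := Pr_erase' (U := U) hq hr1 {Sum.inl v}
          (fun i hi => by rw [Finset.mem_singleton.1 hi]; exact hq1 v hU)
          (E := fun Z => U1 v ∧ Sum.inl v ∈ Z) (F := fun _ => True)
          (fun Z Z' _ h => ⟨by simpa using h.2, trivial⟩)
        simpa [Pr_true] using this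
      · refine le_trans (Pr_mono hq (F := fun _ => False) (fun Z _ h => hU h.1)) ?_
        rw [Pr_false]; exact hr1
    have b : Pr U q (fun Z => Sum.inl v ∈ Z ∧
        hitE U1 (fun x => f (Function.update x v false)) Z) ≤
        r * Pr U q (hitE U1 (fun x => f (Function.update x v false))) := by
      have := Pr_erase' (U := U) hq hr {Sum.inl v} (fun i _ => hqr i)
        (E := fun Z => Sum.inl v ∈ Z ∧ hitE U1 (fun x => f (Function.update x v false)) Z)
        (F := hitE U1 (fun x => f (Function.update x v false))) ?_
      · simpa using this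
      · rintro Z Z' hZ' ⟨h1, x, x', k1, k2, k3, k4⟩
        refine ⟨by simpa using h1, Function.update x v true, Function.update x' v true,
          ?_, ?_, ?_, by simpa using k4⟩
        · intro u hu
          by_cases e : u = v
          · subst e; simp
          · rw [Function.update_of_ne e]
            apply k1
            intro h
            exact hu ((hZ' _).2 ⟨h, by simpa using e⟩)
        · intro u hu
          by_cases e : u = v
          · subst e; simp
          · rw [Function.update_of_ne e]
            apply k2
            intro h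
            exact hu ((hZ' _).2 ⟨h, by simpa using e⟩)
        · intro u hu
          by_cases e : u = v
          · subst e; simp
          · rw [Function.update_of_ne e, Function.update_of_ne e]
            exact k3 u hu
    have c : Pr U q (hitE U1 f) ≤ Pr U q (fun Z => (U1 v ∧ Sum.inl v ∈ Z) ∨
        (hitE U1 (fun x => f (Function.update x v true)) Z ∨
          (Sum.inl v ∈ Z ∧ hitE U1 (fun x => f (Function.update x v false)) Z))) := by
      apply Pr_mono hq
      rintro Z _ ⟨x, x', k1, k2, k3, k4⟩
      by_cases h : U1 v ∧ Sum.inl v ∈ Z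
      · exact Or.inl h
      right
      have e : x v = x' v := by
        by_cases h1 : U1 v
        · have h2 : Sum.inl v ∉ Z := fun h2 => h ⟨h1, h2⟩
          rw [k1 v h2, k2 v h2]
        · exact k3 v h1
      cases hx : x v with
      | true =>
        left
        refine ⟨x, x', k1, k2, k3, ?_⟩
        have e1 : Function.update x v true = x := by rw [← hx]; simp
        have e2 : Function.update x' v true = x' := by rw [← hx, e]; simp
        simp only [e1, e2]
        exact k4
      | false =>
        right
        refine ⟨?_, x, x', k1, k2, k3, ?_⟩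
        · by_contra h2
          rw [k1 v h2] at hx
          exact Bool.noConfusion hx
        · have e1 : Function.update x v false = x := by rw [← hx]; simp
          have e2 : Function.update x' v false = x' := by rw [← hx, e]; simp
          simp only [e1, e2]
          exact k4
    refine le_trans c (le_trans (Pr_or hq _ _) ?_)
    have d := Pr_or (U := U) hq (hitE U1 (fun x => f (Function.update x v true)))
      (fun Z => Sum.inl v ∈ Z ∧ hitE U1 (fun x => f (Function.update x v false)) Z)
    have e1 : (1 : ℝ) ≤ (1 + r) ^ (D + 1) := one_le_pow₀ (by linarith)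
    have e2 : r * Pr U q (hitE U1 (fun x => f (Function.update x v false))) ≤
        r * (D * r1 * (1 + r) ^ D) := mul_le_mul_of_nonneg_left i0 hr
    have e3 : r1 ≤ r1 * (1 + r) ^ (D + 1) := le_mul_of_one_le_right hr1 e1
    have e4 : ((D + 1 : ℕ) : ℝ) * r1 * (1 + r) ^ (D + 1) =
        r1 * (1 + r) ^ (D + 1) + (D * r1 * (1 + r) ^ D + r * (D * r1 * (1 + r) ^ D)) := by
      push_cast
      ring
    rw [e4]
    linarith

end Pool.Agent.Lib.MP_646b81
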