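import Pool.Agent.Lib.MP_646b81.Oracle

/-! From the speed-up to collection in every model without exponentiation. -/

namespace Pool.Agent.Lib.MP_646b81

open Classical

def Fm.imp (φ ψ : Fm) : Fm := Fm.not (Fm.and φ (Fm.not ψ))

def Fm.bex (t : Tm) (φ : Fm) : Fm := Fm.not (Fm.ball t (Fm.not φ))

variable {M : Type} {S : Str M}

theorem holds_imp (φ ψ : Fm) (v : ℕ → M) :
    (φ.imp ψ).holds S v ↔ (φ.holds S v → ψ.holds S v) := by
  simp [Fm.imp, Fm.holds]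

theorem holds_bex (t : Tm) (φ : Fm) (v : ℕ → M) :
    (Fm.bex t φ).holds S v ↔ ∃ x, S.lt x (t.val S v) ∧ φ.holds S (cons x v) := by
  simp [Fm.bex, Fm.holds]

theorem holds_ball (t : Tm) (φ : Fm) (v : ℕ → M) :
    (Fm.ball t φ).holds S v ↔ ∀ x, S.lt x (t.val S v) → φ.holds S (cons x v) := Iff.rfl

theorem holds_lt (s t : Tm) (v : ℕ → M) :
    (Fm.lt s t).holds S v ↔ S.lt (s.val S v) (t.val S v) := Iff.rfl

def allLt : ℕ → Fm
  | 0 => Fm.eq Tm.zero Tm.zero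
  | m + 1 => Fm.and (allLt m) (Fm.lt (Tm.var (m + 3)) (Tm.var 0))

theorem holds_allLt (v : ℕ → M) (m : ℕ) :
    (allLt m).holds S v ↔ ∀ i, i < m → S.lt (v (i + 3)) (v 0) := by
  induction m with
  | zero => simp [allLt, Fm.holds]
  | succ m ih =>
    simp only [allLt, Fm.holds, ih, Tm.val]
    constructor
    · rintro ⟨h1, h2⟩ i hi
      rcases Nat.lt_succ_iff_lt_or_eq.1 hi with h | rfl
      · exact h1 i h
      · exact h2
    · intro h
      exact ⟨fun i hi => h i (by omega), h m (by omega)⟩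

def sumT : ℕ → Tm
  | 0 => Tm.zero
  | m + 1 => Tm.add (sumT m) (Tm.var (m + 2))

theorem le_sumT (A : Set ℕ) (v : ℕ → ℕ) (m : ℕ) :
    ∀ i, i < m → v (i + 2) ≤ (sumT m).val (natStr A) v := by
  induction m with
  | zero => intro i hi; omega
  | succ m ih =>
    intro i hi
    simp only [sumT, Tm.val, natStr_add]
    rcases Nat.lt_succ_iff_lt_or_eq.1 hi with h | rfl
    · have := ih i h; omega
    · omega

def wallF (i : ℕ) : Fm := Fm.orc (prT (num 0) (prT (num 1) (Tm.var i)))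

def wallS (S : Str M) (P : M) : Prop := (wallF 0).holds S (fun _ => P)

theorem holds_wallF (i : ℕ) (v : ℕ → M) : (wallF i).holds S v ↔ wallS S (v i) := Iff.rfl

theorem wallS_nat (P : ℕ) : wallS (natStr theA) P ↔ ∃ e, P = PP e := by
  rw [← wall_iff]
  rfl

def noWall (t : Tm) (i : ℕ) : Fm :=
  Fm.ball t (Fm.imp (Fm.lt (Tm.var (i + 1)) (Tm.var 0)) (Fm.not (wallF 0)))

theorem holds_noWall (t : Tm) (i : ℕ) (v : ℕ → M) :
    (noWall t i).holds S v ↔ ∀ P, S.lt P (t.val S v) → S.lt (v i) P → ¬wallS S P := by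
  simp only [noWall, holds_ball, holds_imp]
  rfl

def HF (c m : ℕ) : Fm :=
  Fm.and (Fm.orc (prT (num 0) (prT (num 0) (Tm.var 0)))) (Fm.and (Fm.lt (num c) (Tm.var 0))
    (Fm.and (Fm.lt (Tm.var 1) (Tm.var 0)) (Fm.and (Fm.lt (Tm.var 2) (Tm.var 0)) (allLt m))))

theorem holds_HF_nat (c m : ℕ) (v : ℕ → ℕ) : (HF c m).holds (natStr theA) v ↔
    (∃ i, v 0 = XX i) ∧ c < v 0 ∧ v 1 < v 0 ∧ v 2 < v 0 ∧ ∀ i, i < m → v (i + 3) < v 0 := by
  simp only [HF, Fm.holds, holds_allLt, val_prT, val_num, natStr_orc, natStr_lt, Tm.val,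
    scale_iff]

def rn (a b c : ℕ) : ℕ → ℕ
  | 0 => a
  | 1 => b
  | j + 2 => j + c

def chiF (φ : Fm) : Fm :=
  Fm.ball (Tm.var 0) (Fm.imp (φ.rename (rn 0 2 4)) (Fm.ball (Tm.var 3)
    (Fm.bex (Tm.add (Tm.var 1) Tm.one) (φ.rename (rn 0 1 6)))))

theorem holds_chiF (φ : Fm) (w u0 a : M) (v : ℕ → M) :
    (chiF φ).holds S (cons w (cons u0 (cons a v))) ↔ ∀ v0, S.lt v0 w →
      φ.holds S (cons v0 (cons u0 v)) → ∀ u, S.lt u a →
        ∃ v', S.lt v' (S.add v0 S.one) ∧ φ.holds S (cons v' (cons u v)) := by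
  simp only [chiF, holds_ball, holds_imp, holds_bex]
  apply forall_congr'
  intro v0
  apply imp_congr Iff.rfl
  apply imp_congr
  · apply Fm.holds_rename'
    rintro (_ | _ | j) <;> rfl
  · apply forall_congr'
    intro u
    apply imp_congr Iff.rfl
    apply exists_congr
    intro v'
    apply and_congr Iff.rfl
    apply Fm.holds_rename'
    rintro (_ | _ | j) <;> rfl

theorem exists_worst (R : ℕ → ℕ → Prop) (w a : ℕ) (ha : 0 < a) :
    ∃ u0, u0 < a ∧ ∀ v0, v0 < w → R v0 u0 → ∀ u, u < a → ∃ v', v' < v0 + 1 ∧ R v' u := by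
  by_cases h : ∀ u, u < a → ∃ v', R v' u
  · let f : ℕ → ℕ := fun u => if hu : u < a then Nat.find (h u hu) else 0
    obtain ⟨u0, h1, h2⟩ := Finset.exists_max_image (Finset.range a) f
      ⟨0, Finset.mem_range.2 ha⟩
    have h1' := Finset.mem_range.1 h1
    refine ⟨u0, h1', fun v0 _ hR u hu => ⟨Nat.find (h u hu), ?_, Nat.find_spec (h u hu)⟩⟩
    have a1 := h2 u (Finset.mem_range.2 hu)
    simp only [f, dif_pos hu, dif_pos h1'] at a1
    have a2 := Nat.find_min' (h u0 h1') hR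
    omega
  · push Not at h
    obtain ⟨u0, h1, h2⟩ := h
    exact ⟨u0, h1, fun v0 _ hR => absurd hR (h2 v0)⟩

def ax4 (E : Fm) : Fm :=
  Fm.imp (wallF 0) (Fm.imp (wallF 1) (Fm.imp (wallF 2)
    (Fm.imp (Fm.lt (Tm.var 3) (Tm.var 2)) (Fm.imp (Fm.lt (Tm.var 2) (Tm.var 1))
    (Fm.imp (Fm.lt (Tm.var 1) (Tm.var 0)) (Fm.bex (Tm.add (Tm.var 0) Tm.one)
      (E.rename (rn 0 4 5))))))))

def ax1 (c m : ℕ) : Fm :=
  Fm.bex (Tm.add (powT (Tm.add (Tm.add (Tm.add (Tm.add (num c) (Tm.var 0))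
      (Tm.var 1)) (sumT m)) (num 2)) 2) Tm.one) (HF c m)

def ax3 (ψ : Fm) (c m k : ℕ) : Fm :=
  Fm.imp (HF c m) (Fm.imp
      (noWall (Tm.add (powT (Tm.add (Tm.add (Tm.var 0) Tm.one) Tm.one) k) Tm.one) 1)
      (Fm.imp (Fm.bex (Tm.var 2) (Fm.eq Tm.zero Tm.zero))
        (Fm.bex (Tm.var 2) (ψ.rename (rn 1 0 3)))))

def ax2 (φ ψ : Fm) (c m k : ℕ) : Fm :=
  Fm.imp ((HF c m).rename (rn 2 3 4)) (Fm.imp
      (noWall (Tm.add (powT (Tm.add (Tm.add (Tm.add (Tm.var 0) (Tm.var 2)) Tm.one) Tm.one) k)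
        Tm.one) 3)
      (Fm.imp (Fm.lt (Tm.var 1) (Tm.var 4)) (Fm.imp (ψ.rename (rn 2 1 4))
      (Fm.imp (φ.rename (rn 0 1 5)) (Fm.ball (Tm.var 4)
        (Fm.bex (Tm.add (Tm.var 1) Tm.one) (φ.rename (rn 0 1 7))))))))

/-- the axiom attached to the formula `φ` -/
def AxF (E φ : Fm) : Fm :=
  Fm.and (ax4 E) (Fm.and (ax1 (PP (ww ((chiF φ).code + 1))) (chiF φ).code)
    (Fm.and (ax3 (psiF (chiF φ).code) (PP (ww ((chiF φ).code + 1))) (chiF φ).code
      (kk (chiF φ).code))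
      (ax2 φ (psiF (chiF φ).code) (PP (ww ((chiF φ).code + 1))) (chiF φ).code
        (kk (chiF φ).code))))

theorem ax4_true {E : Fm} (hE : DefinesExp theA E) (u : ℕ → ℕ) :
    (ax4 E).holds (natStr theA) u := by
  simp only [ax4, holds_imp, holds_bex, holds_wallF, wallS_nat, holds_lt, Tm.val, natStr_lt,
    natStr_add, natStr_one]
  rintro ⟨e3, h3⟩ ⟨e2, h2⟩ ⟨e1, h1⟩ k1 k2 k3
  rw [h1, h2] at k2
  rw [h2, h3] at k3
  have l1 := PP_strictMono.lt_iff_lt.1 k2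
  have l2 := PP_strictMono.lt_iff_lt.1 k3
  refine ⟨2 ^ u 3, ?_, ?_⟩
  · have m1 : 2 ^ u 3 ≤ 2 ^ PP e1 := Nat.pow_le_pow_right (by omega) (by omega)
    have m2 := two_pow_PP_le e1
    have m3 : PP (e1 + 2) ≤ PP e3 := PP_strictMono.monotone (by omega)
    omega
  · rw [Fm.holds_rename, hE]
    rfl

theorem ax1_true {l m : ℕ} (u : ℕ → ℕ) : (ax1 l m).holds (natStr theA) u := by
  simp only [ax1, holds_bex, holds_HF_nat, Tm.val, natStr_add, natStr_lt, natStr_one, val_powT,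
    val_num]
  obtain ⟨i, h1, h2⟩ := exists_scale (l + u 0 + u 1 + (sumT m).val (natStr theA) u)
  refine ⟨XX i, by rw [pow_two]; omega, ⟨i, rfl⟩, ?_, ?_, ?_, ?_⟩
  · simp only [cons_zero]; omega
  · show u 0 < XX i
    omega
  · show u 1 < XX i
    omega
  · intro j hj
    have := le_sumT theA u m j hj
    show u (j + 2) < XX i
    omega

theorem speedup' (φ : Fm) (X x1 a1 z : ℕ) (u : ℕ → ℕ)
    (hH : (HF (PP (ww ((chiF φ).code + 1))) (chiF φ).code).holds (natStr theA)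
      (cons X (cons x1 (cons a1 u)))) (hz : X ≤ z)
    (hw : ∀ P, P < (z + 1 + 1) ^ kk (chiF φ).code + 1 → x1 < P → ¬wallS (natStr theA) P) :
    ∃ w, z ≤ w ∧ 0 < X ∧ ∀ u0, u0 < a1 →
      ((psiF (chiF φ).code).holds (natStr theA) (cons X (cons u0 (cons a1 u))) ↔
        (chiF φ).holds (natStr theA) (cons w (cons u0 (cons a1 u)))) := by
  obtain ⟨h1, h2, h3, h4, h5⟩ := (holds_HF_nat _ _ _).1 hH
  simp only [cons_zero, cons_succ] at h1 h2 h5
  have h3' : x1 < X := h3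
  have h4' : a1 < X := h4
  obtain ⟨w, hw1, hw2⟩ := speedup (chiF φ) X z h1 h2 hz (by
    intro e he
    by_contra hc
    exact hw (PP e) (by
      have : (z + 2) ^ kk (chiF φ).code = (z + 1 + 1) ^ kk (chiF φ).code := rfl
      omega) (by omega) ((wallS_nat _).2 ⟨e, rfl⟩))
  refine ⟨w, hw1, by omega, fun u0 hu0 => hw2 _ ?_⟩
  rintro (_ | _ | j) hj
  · simp only [cons_zero]; omega
  · exact h4'
  · exact h5 j (by omega)

theorem AxF_true {E : Fm} (hE : DefinesExp theA E) (φ : Fm) (u : ℕ → ℕ) :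
    (AxF E φ).holds (natStr theA) u := by
  refine ⟨ax4_true hE u, ax1_true u, ?_, ?_⟩
  · have hu : u = cons (u 0) (cons (u 1) (cons (u 2) (fun i => u (i + 3)))) := by
      funext i
      rcases i with _ | _ | _ | j <;> rfl
    simp only [ax3, holds_imp, holds_bex, holds_noWall, Tm.val, natStr_add, natStr_lt,
      natStr_one, val_powT]
    rintro h1 h2 ⟨y, hy, _⟩
    rw [hu] at h1
    obtain ⟨w, _, _, hw⟩ := speedup' φ _ _ _ (u 0) _ h1 le_rfl h2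
    obtain ⟨u0, k1, k2⟩ := exists_worst (fun v' u' => φ.holds (natStr theA)
      (cons v' (cons u' (fun i => u (i + 3))))) w (u 2) (by omega)
    refine ⟨u0, k1, (Fm.holds_rename' _ _ _ _ ?_).2 ((hw u0 k1).2 ((holds_chiF _ _ _ _ _).2 k2))⟩
    rintro (_ | _ | _ | j) <;> rfl
  · simp only [ax2, holds_imp, holds_bex, holds_ball, holds_lt, holds_noWall, Tm.val, natStr_add,
      natStr_lt, natStr_one, val_powT]
    intro h1 h2 h3 h4 h5 y hy
    rw [Fm.holds_rename' _ _ _ (cons (u 2) (cons (u 3) (cons (u 4) (fun i => u (i + 5)))))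
      (by rintro (_ | _ | _ | j) <;> rfl)] at h1
    rw [Fm.holds_rename' _ _ _
      (cons (u 2) (cons (u 1) (cons (u 4) (fun i => u (i + 5)))))
      (by rintro (_ | _ | _ | j) <;> rfl)] at h4
    rw [Fm.holds_rename' _ _ _ (cons (u 0) (cons (u 1) (fun i => u (i + 5))))
      (by rintro (_ | _ | j) <;> rfl)] at h5
    obtain ⟨w, k1, k2, hw⟩ := speedup' φ _ _ _ (u 0 + u 2) _ h1 (by omega) h2
    obtain ⟨v', l1, l2⟩ := (holds_chiF _ _ _ _ _).1 ((hw _ h3).1 h4) (u 0)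
      (by simp only [natStr_lt]; omega) h5 y hy
    refine ⟨v', l1, (Fm.holds_rename' _ _ _ _ ?_).2 l2⟩
    rintro (_ | _ | j) <;> rfl

theorem wall_gap {E : Fm} (hS : ∀ v, (ax4 E).holds S v)
    (hn : ¬ExpTotal S E) : ∃ x0, ∀ P, S.lt x0 P → ¬wallS S P := by
  by_contra hc
  push Not at hc
  apply hn
  intro v
  obtain ⟨P1, a1, b1⟩ := hc (v 0)
  obtain ⟨P2, a2, b2⟩ := hc P1
  obtain ⟨P3, a3, b3⟩ := hc P2
  have := hS (cons P3 (cons P2 (cons P1 v)))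
  simp only [ax4, holds_imp, holds_bex, holds_wallF, holds_lt] at this
  obtain ⟨y, _, hy⟩ := this b3 b2 b1 a1 a2 a3
  refine ⟨y, (Fm.holds_rename' _ _ _ _ ?_).1 hy⟩
  rintro (_ | _ | j) <;> rfl

theorem collection_of_ax {E : Fm} (hS : ∀ φ v, (AxF E φ).holds S v)
    (hn : ¬ExpTotal S E) : BSigma1 S := by
  intro φ v a h
  obtain ⟨x0, hx0⟩ := wall_gap (fun v => (hS φ v).1) hn
  by_cases ha : ∃ u, S.lt u a
  swap
  · exact ⟨a, fun u hu => absurd ⟨u, hu⟩ ha⟩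
  obtain ⟨X, _, hX⟩ := (holds_bex _ _ _).1 (hS φ (cons x0 (cons a v))).2.1
  have F3 := (hS φ (cons X (cons x0 (cons a v)))).2.2.1
  simp only [ax3, holds_imp, holds_bex, holds_noWall] at F3
  obtain ⟨u1, hu1⟩ := ha
  obtain ⟨u0, hu0, hψ⟩ := F3 hX (fun P _ hP => hx0 P hP) ⟨u1, hu1, rfl⟩
  obtain ⟨v0, hv0⟩ := h u0 hu0
  have F2 := (hS φ (cons v0 (cons u0 (cons X (cons x0 (cons a v)))))).2.2.2
  simp only [ax2, holds_imp, holds_bex, holds_ball, holds_lt, holds_noWall] at F2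
  rw [Fm.holds_rename] at hψ
  have F := F2 ((Fm.holds_rename' _ _ _ _ (by rintro (_ | _ | j) <;> rfl)).2 hX)
    (fun P _ hP => hx0 P hP) hu0
    ((Fm.holds_rename' _ _ _ _ (by rintro (_ | _ | j) <;> rfl)).2 hψ)
    ((Fm.holds_rename' _ _ _ _ (by rintro (_ | _ | j) <;> rfl)).2 hv0)
  refine ⟨S.add v0 S.one, fun u hu => ?_⟩
  obtain ⟨v', l1, l2⟩ := F u hu
  refine ⟨v', l1, (Fm.holds_rename' _ _ _ _ ?_).1 l2⟩
  rintro (_ | _ | j) <;> rfl

theorem collection (hS : Pi1Sound theA S) {E : Fm} (hE : DefinesExp theA E)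
    (hn : ¬ExpTotal S E) : BSigma1 S :=
  collection_of_ax (fun φ => hS _ (AxF_true hE φ)) hn

theorem exists_definesExp : ∃ E, DefinesExp theA E := by
  refine ⟨Fm.orc (prT (num 0) (prT (num 2) (prT (Tm.var 0) (Tm.var 1)))), fun v => ?_⟩
  rw [← exp_iff]
  rfl

end Pool.Agent.Lib.MP_646b81
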