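import Pool.Agent.Lib.MP_646b81.Arith

/-! The polynomially bounded part of an ultrapower: a model of the true `Π₁(α)` sentences in
which exponentiation is not total. -/

namespace Pool.Agent.Lib.MP_646b81

open Classical Filter

abbrev GG : Type := Germ (hyperfilter ℕ : Filter ℕ) ℕ

def PolyB (g : GG) : Prop :=
  ∃ (f : ℕ → ℕ) (k : ℕ), g = (f : GG) ∧ ∀ n, f n ≤ (n + 2) ^ k

theorem PolyB.add {a b : GG} (ha : PolyB a) (hb : PolyB b) : PolyB (a + b) := by
  obtain ⟨f, k, rfl, hf⟩ := ha
  obtain ⟨g, l, rfl, hg⟩ := hb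
  refine ⟨f + g, k + l + 1, rfl, fun n => ?_⟩
  have e1 : (n + 2) ^ k ≤ (n + 2) ^ (k + l) := Nat.pow_le_pow_right (by omega) (by omega)
  have e2 : (n + 2) ^ l ≤ (n + 2) ^ (k + l) := Nat.pow_le_pow_right (by omega) (by omega)
  have := hf n
  have := hg n
  simp only [Pi.add_apply, pow_succ]
  nlinarith

theorem PolyB.mul {a b : GG} (ha : PolyB a) (hb : PolyB b) : PolyB (a * b) := by
  obtain ⟨f, k, rfl, hf⟩ := ha
  obtain ⟨g, l, rfl, hg⟩ := hb
  refine ⟨f * g, k + l, rfl, fun n => ?_⟩
  simp only [Pi.mul_apply, pow_add]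
  exact Nat.mul_le_mul (hf n) (hg n)

noncomputable def cutStr (A : Set ℕ) : Str {g : GG // PolyB g} where
  zero := ⟨((fun _ => 0 : ℕ → ℕ) : GG), fun _ => 0, 0, rfl, fun _ => Nat.zero_le _⟩
  one := ⟨((fun _ => 1 : ℕ → ℕ) : GG), fun _ => 1, 0, rfl, fun _ => by simp⟩
  add := fun a b => ⟨a.1 + b.1, a.2.add b.2⟩
  mul := fun a b => ⟨a.1 * b.1, a.2.mul b.2⟩
  lt := fun a b => Germ.LiftRel (· < ·) a.1 b.1
  orc := fun a => Germ.LiftPred (· ∈ A) a.1

theorem cut_val (A : Set ℕ) (v : ℕ → {g : GG // PolyB g}) (r : ℕ → ℕ → ℕ)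
    (h : ∀ i, (v i).1 = (r i : GG)) (t : Tm) :
    (t.val (cutStr A) v).1 = ((fun n => t.val (natStr A) (fun i => r i n) : ℕ → ℕ) : GG) := by
  induction t with
  | var i => exact h i
  | zero => rfl
  | one => rfl
  | add s t a b =>
    show (s.val (cutStr A) v).1 + (t.val (cutStr A) v).1 = _
    rw [a, b]
    rfl
  | mul s t a b =>
    show (s.val (cutStr A) v).1 * (t.val (cutStr A) v).1 = _
    rw [a, b]
    rfl

theorem cut_los (A : Set ℕ) (φ : Fm) : ∀ (v : ℕ → {g : GG // PolyB g}) (r : ℕ → ℕ → ℕ),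
    (∀ i, (v i).1 = (r i : GG)) → (φ.holds (cutStr A) v ↔
      ∀ᶠ n in (hyperfilter ℕ : Filter ℕ), φ.holds (natStr A) (fun i => r i n)) := by
  induction φ with
  | eq s t =>
    intro v r h
    simp only [Fm.holds]
    rw [Subtype.ext_iff, cut_val A v r h, cut_val A v r h, Germ.coe_eq]
    rfl
  | lt s t =>
    intro v r h
    show Germ.LiftRel (· < ·) (s.val (cutStr A) v).1 (t.val (cutStr A) v).1 ↔ _
    rw [cut_val A v r h, cut_val A v r h, Germ.liftRel_coe]
    rfl
  | orc t =>
    intro v r h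
    show Germ.LiftPred (· ∈ A) (t.val (cutStr A) v).1 ↔ _
    rw [cut_val A v r h, Germ.liftPred_coe]
    rfl
  | not φ a =>
    intro v r h
    simp only [Fm.holds, a v r h, Ultrafilter.eventually_not]
  | and φ ψ a b =>
    intro v r h
    simp only [Fm.holds, a v r h, b v r h, eventually_and]
  | ball t φ a =>
    intro v r h
    have key : ∀ (x : {g : GG // PolyB g}) (s : ℕ → ℕ), x.1 = (s : GG) →
        (((cutStr A).lt x (t.val (cutStr A) v) ↔
          ∀ᶠ n in (hyperfilter ℕ : Filter ℕ), s n < t.val (natStr A) (fun i => r i n)) ∧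
        (φ.holds (cutStr A) (cons x v) ↔ ∀ᶠ n in (hyperfilter ℕ : Filter ℕ),
          φ.holds (natStr A) (cons (s n) (fun i => r i n)))) := by
      intro x s hs
      constructor
      · show Germ.LiftRel (· < ·) x.1 (t.val (cutStr A) v).1 ↔ _
        rw [cut_val A v r h, hs, Germ.liftRel_coe]
      · rw [a (cons x v) (cons s r) (by rintro (_ | i); exacts [hs, h i])]
        apply eventually_congr
        apply Eventually.of_forall
        intro n
        apply Fm.holds_congr
        rintro (_ | i) _ <;> rfl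
    simp only [Fm.holds, natStr_lt]
    constructor
    · intro hh
      by_contra hc
      rw [← Ultrafilter.eventually_not] at hc
      obtain ⟨f, k, hf, hk⟩ := (t.val (cutStr A) v).2
      have hft : ∀ᶠ n in (hyperfilter ℕ : Filter ℕ),
          t.val (natStr A) (fun i => r i n) = f n := by
        rw [cut_val A v r h, Germ.coe_eq] at hf
        exact hf
      let s : ℕ → ℕ := fun n => if hn : ∃ x, x < f n ∧
        ¬φ.holds (natStr A) (cons x (fun i => r i n)) then hn.choose else 0
      have hs : ∀ᶠ n in (hyperfilter ℕ : Filter ℕ), s n < t.val (natStr A) (fun i => r i n) ∧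
          ¬φ.holds (natStr A) (cons (s n) (fun i => r i n)) := by
        filter_upwards [hc, hft] with n h1 h2
        push Not at h1
        rw [h2] at h1 ⊢
        simp only [s, dif_pos h1]
        exact h1.choose_spec
      have hb : PolyB (s : GG) := by
        refine ⟨s, k, rfl, fun n => ?_⟩
        simp only [s]
        split_ifs with hn
        · exact le_trans hn.choose_spec.1.le (hk n)
        · exact Nat.zero_le _
      obtain ⟨k1, k2⟩ := key ⟨s, hb⟩ s rfl
      have := k2.1 (hh _ (k1.2 (hs.mono (fun n hn => hn.1))))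
      obtain ⟨n, n1, n2⟩ := (this.and hs).exists
      exact n2.2 n1
    · intro hh x hx
      obtain ⟨s, _, hs, _⟩ := x.2
      obtain ⟨k1, k2⟩ := key x s hs
      apply k2.2
      filter_upwards [hh, k1.1 hx] with n h1 h2
      exact h1 _ h2

theorem eventually_poly_lt (k : ℕ) : ∀ᶠ n in (atTop : Filter ℕ), (n + 2) ^ k < 2 ^ n := by
  have h := (tendsto_pow_const_div_const_pow_of_one_lt k (r := 2) (by norm_num)).comp
    (tendsto_add_atTop_nat 2)
  filter_upwards [h.eventually (gt_mem_nhds (show (0 : ℝ) < 1 / 4 by norm_num))] with n hn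
  simp only [Function.comp] at hn
  rw [div_lt_iff₀ (by positivity), pow_add] at hn
  have : (((n + 2) ^ k : ℕ) : ℝ) < ((2 ^ n : ℕ) : ℝ) := by
    push_cast at hn ⊢
    linarith
  exact_mod_cast this

theorem exists_model_not_exp (A : Set ℕ) (E : Fm) (hE : DefinesExp A E) :
    ∃ (M : Type) (S : Str M), Pi1Sound A S ∧ ¬ExpTotal S E := by
  refine ⟨_, cutStr A, ?_, ?_⟩
  · intro φ hφ v
    choose r k hr hk using fun i => (v i).2
    exact (cut_los A φ v r hr).2 (Eventually.of_forall (fun n => hφ _))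
  · intro h
    obtain ⟨y, hy⟩ := h (fun _ => ⟨((fun n => n : ℕ → ℕ) : GG), fun n => n, 1, rfl,
      fun n => by simp⟩)
    obtain ⟨s, k, hs, hk⟩ := y.2
    have h1 := (cut_los A E _ (cons s (fun _ n => n))
      (by rintro (_ | i); exacts [hs, rfl])).1 hy
    have h2 : ∀ᶠ n in (hyperfilter ℕ : Filter ℕ), (n + 2) ^ k < 2 ^ n :=
      (eventually_poly_lt k).filter_mono Nat.hyperfilter_le_atTop
    obtain ⟨n, n1, n2⟩ := (h1.and h2).exists
    have := (hE _).1 n1
    have e : s n = 2 ^ n := this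
    have := hk n
    omega

end Pool.Agent.Lib.MP_646b81
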