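import Mathlib

/-! The walls `PP e = 2 ^ 2 ^ kx e` and the numerical inequalities they satisfy. -/

namespace Pool.Agent.Lib.MP_646b81

def kap : ℕ → ℕ
  | 0 => 12
  | e + 1 => 2 ^ kap e

def kx (e : ℕ) : ℕ := kap e * kap e

def XX (i : ℕ) : ℕ := 2 ^ 2 ^ i

def PP (e : ℕ) : ℕ := XX (kx e)

theorem two_mul_sq_le_two_pow {z : ℕ} (hz : 7 ≤ z) : 2 * (z * z) ≤ 2 ^ z := by
  induction z, hz using Nat.le_induction with
  | base => norm_num
  | succ n hn ih =>
    rw [pow_succ]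
    nlinarith

theorem kap_ge (e : ℕ) : 6 * e + 12 ≤ kap e := by
  induction e with
  | zero => simp [kap]
  | succ e ih =>
    have := two_mul_sq_le_two_pow (z := kap e) (by omega)
    simp only [kap]
    nlinarith

theorem kap_lt (e : ℕ) : kap e < kap (e + 1) := Nat.lt_two_pow_self

theorem kx_strictMono : StrictMono kx :=
  strictMono_nat_of_lt_succ (fun e => Nat.mul_lt_mul'' (kap_lt e) (kap_lt e))

theorem XX_strictMono : StrictMono XX := fun _ _ h =>
  Nat.pow_lt_pow_right (by omega) (Nat.pow_lt_pow_right (by omega) h)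

theorem PP_strictMono : StrictMono PP := fun _ _ h => XX_strictMono (kx_strictMono h)

theorem lt_XX (i : ℕ) : i < XX i := lt_trans Nat.lt_two_pow_self Nat.lt_two_pow_self

theorem two_le_XX (i : ℕ) : 2 ≤ XX i :=
  Nat.le_self_pow (by positivity) 2

theorem lt_PP (e : ℕ) : e < PP e := lt_of_le_of_lt (kx_strictMono.id_le e) (lt_XX _)

theorem two_pow_PP_le (e : ℕ) : 2 ^ PP e ≤ PP (e + 2) := by
  unfold PP XX
  apply Nat.pow_le_pow_right (by omega)
  apply Nat.pow_le_pow_right (by omega)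
  have h1 := two_mul_sq_le_two_pow (z := kap e) (by have := kap_ge e; omega)
  have h2 : 2 ^ kx e ≤ kap (e + 2) := by
    simp only [kap, kx]
    exact Nat.pow_le_pow_right (by omega) (by omega)
  refine le_trans h2 ?_
  unfold kx
  exact Nat.le_mul_self _

theorem exists_scale (z : ℕ) : ∃ i, z < XX i ∧ XX i ≤ (z + 2) * (z + 2) := by
  have h : ∃ i, z < XX i := ⟨z, lt_XX z⟩
  refine ⟨Nat.find h, Nat.find_spec h, ?_⟩
  cases hf : Nat.find h with
  | zero =>
    simp only [XX, pow_zero, pow_one]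
    nlinarith
  | succ j =>
    have := Nat.find_min h (show j < Nat.find h by omega)
    have e : XX (j + 1) = XX j * XX j := by
      simp only [XX, pow_succ, pow_mul]
      ring
    rw [e]
    exact Nat.mul_le_mul (by omega) (by omega)

theorem exists_epoch {e0 i : ℕ} (h : kx e0 ≤ i) : ∃ e, e0 ≤ e ∧ kx e ≤ i ∧ i < kx (e + 1) := by
  have h1 : ∃ e, i < kx (e + 1) := ⟨i, lt_of_lt_of_le (Nat.lt_succ_self i) (kx_strictMono.id_le _)⟩
  refine ⟨Nat.find h1, ?_, ?_, Nat.find_spec h1⟩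
  · by_contra hc
    have := Nat.find_spec h1
    have h2 : kx (Nat.find h1 + 1) ≤ kx e0 := kx_strictMono.monotone (by omega)
    omega
  · cases hf : Nat.find h1 with
    | zero =>
      exact le_trans (kx_strictMono.monotone (Nat.zero_le _)) h
    | succ j =>
      have := Nat.find_min h1 (show j < Nat.find h1 by omega)
      omega

theorem epoch_unique {e e' i : ℕ} (h1 : kx e ≤ i) (h2 : i < kx (e + 1)) (h3 : kx e' ≤ i)
    (h4 : i < kx (e' + 1)) : e = e' := by
  have a : e < e' + 1 := kx_strictMono.lt_iff_lt.1 (by omega)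
  have b : e' < e + 1 := kx_strictMono.lt_iff_lt.1 (by omega)
  omega

/-- counting bound -/
theorem param_count (e : ℕ) :
    e * kx (e + 1) * PP (e + 1) ^ e * PP (e + 1) ^ e * 2 ≤ 2 ^ 2 ^ (2 * kx (e + 1)) := by
  set k := kx (e + 1) with hk
  have h1 : e ≤ 2 ^ e := Nat.lt_two_pow_self.le
  have h2 : k < 2 ^ k := Nat.lt_two_pow_self
  have h3 : 6 * e + 12 ≤ k := by
    have := kap_ge (e + 1)
    have := Nat.le_mul_self (kap (e + 1))
    simp only [hk, kx]
    omega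
  have h4 : PP (e + 1) ^ e = 2 ^ (2 ^ k * e) := by
    simp only [PP, XX, ← hk, pow_mul]
  rw [h4]
  calc e * k * 2 ^ (2 ^ k * e) * 2 ^ (2 ^ k * e) * 2
      ≤ 2 ^ e * 2 ^ k * 2 ^ (2 ^ k * e) * 2 ^ (2 ^ k * e) * 2 := by gcongr
    _ = 2 ^ (e + k + 2 ^ k * e + 2 ^ k * e + 1) := by simp only [pow_add, pow_one]
    _ ≤ _ := by
      apply Nat.pow_le_pow_right (by omega)
      rw [two_mul, pow_add]
      nlinarith

/-- depth bound -/
theorem param_depth (e L : ℕ) (hL : L ≤ e) :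
    32 * (2 ^ e * 2 ^ kx (e + 1)) * (2 ^ (2 * kx (e + 1))) ^ (kx (e + 1) + 1) ^ L ≤ PP e := by
  set k := kx (e + 1) with hk
  have h0 := kap_ge e
  have h3 : 6 * e + 12 ≤ k := by
    have := kap_ge (e + 1)
    have := Nat.le_mul_self (kap (e + 1))
    simp only [hk, kx]
    omega
  have h1 : k + 1 ≤ 2 ^ (2 * kap e + 1) := by
    have : k = 2 ^ (2 * kap e) := by
      simp only [hk, kx, kap]
      rw [two_mul, pow_add]
    have h2 : 1 ≤ 2 ^ (2 * kap e) := Nat.one_le_two_pow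
    rw [pow_succ]
    omega
  have h2 : (k + 1) ^ L ≤ (k + 1) ^ e := Nat.pow_le_pow_right (by omega) hL
  have h4 : 1 ≤ (k + 1) ^ e := Nat.one_le_pow _ _ (by omega)
  have h5 : 5 + (e + k) + 2 * k * (k + 1) ^ L ≤ 4 * (k + 1) ^ (e + 1) := by
    rw [pow_succ]
    nlinarith
  have h6 : 4 * (k + 1) ^ (e + 1) ≤ 2 ^ kx e := by
    calc 4 * (k + 1) ^ (e + 1) ≤ 2 ^ 2 * (2 ^ (2 * kap e + 1)) ^ (e + 1) := by gcongr; norm_num
      _ = 2 ^ (2 + (2 * kap e + 1) * (e + 1)) := by rw [← pow_mul, ← pow_add]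
      _ ≤ _ := by
        apply Nat.pow_le_pow_right (by omega)
        unfold kx
        nlinarith
  calc _ = 2 ^ (5 + (e + k) + 2 * k * (k + 1) ^ L) := by
        rw [← pow_mul, pow_add, pow_add, pow_add]; norm_num
    _ ≤ _ := Nat.pow_le_pow_right (by omega) (le_trans h5 h6)

/-- survival bound -/
theorem param_surv {e t z c D : ℕ} (ht : t ≤ e) (hz : 6 * e + 12 ≤ z) (hc : c ≤ 2 ^ D)
    (hD : 2 * D ≤ 2 ^ z) :
    c * 8 * (2 ^ z * 2 ^ z * (2 ^ z * 2 ^ z)) ^ t ≤ 2 ^ 2 ^ z := by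
  have h1 := two_mul_sq_le_two_pow (z := z) (by omega)
  calc _ ≤ 2 ^ D * 8 * (2 ^ z * 2 ^ z * (2 ^ z * 2 ^ z)) ^ t := by gcongr
    _ = 2 ^ (D + 3 + (z + z + (z + z)) * t) := by
      rw [pow_add, pow_add, pow_mul, pow_add, pow_add]; norm_num
    _ ≤ _ := by
      apply Nat.pow_le_pow_right (by omega)
      nlinarith

end Pool.Agent.Lib.MP_646b81
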