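import Pool.Agent.Lib.MP_646b81.Arith2
import Pool.Agent.Lib.MP_646b81.Epoch
import Pool.Agent.Lib.MP_646b81.Params

/-! Construction of the oracle, epoch by epoch. -/

namespace Pool.Agent.Lib.MP_646b81

open Classical Finset

noncomputable def fm (l : ℕ) : Fm :=
  if h : ∃ χ : Fm, χ.code = l then h.choose else Fm.eq (Tm.var 0) (Tm.var 0)

def kk (l : ℕ) : ℕ := 2 ^ l

def dd (l : ℕ) : ℕ := l

def mm (l : ℕ) : ℕ := l

theorem fm_code (χ : Fm) : fm χ.code = χ := by
  have h : ∃ χ' : Fm, χ'.code = χ.code := ⟨χ, rfl⟩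
  unfold fm
  rw [dif_pos h]
  exact Fm.code_inj _ _ h.choose_spec

theorem code_fm_le (l : ℕ) : (fm l).code ≤ l := by
  unfold fm
  split_ifs with h
  · exact h.choose_spec.le
  · exact Nat.zero_le l

theorem kk_pos (l : ℕ) : 1 ≤ kk l := Nat.one_le_two_pow

theorem fm_spec (l w : ℕ) (v : ℕ → ℕ) (hv : ∀ i, v i ≤ w) :
    (∀ A A' : Set ℕ, (∀ n, n < (w + 2) ^ kk l → (n ∈ A ↔ n ∈ A')) →
      ((fm l).holds (natStr A) v ↔ (fm l).holds (natStr A') v)) ∧
    ∀ (V : Type) (O : (V → Bool) → Set ℕ), (∀ n, Sh 1 (fun x => decide (n ∈ O x))) →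
      ∀ N, (w + 2) ^ kk l ≤ N →
        Cls N (dd l) (fun x => decide ((fm l).holds (natStr (O x)) v)) :=
  ((fm l).spec_code.mono (Nat.pow_le_pow_right (by omega) (code_fm_le l)) (code_fm_le l)) w v hv

def ww : ℕ → ℕ
  | 0 => 0
  | l + 1 => ww l + mm l + dd l + 1

theorem ww_mono : Monotone ww :=
  monotone_nat_of_le_succ (fun l => by simp only [ww]; omega)

theorem le_ww (l : ℕ) : l ≤ ww l ∧ tt dd l ≤ ww l := by
  induction l with
  | zero => simp [ww, tt]
  | succ l ih => simp only [ww, tt]; omega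

noncomputable def LL (e : ℕ) : ℕ := Nat.findGreatest (fun L => ww L ≤ e) e

theorem ww_LL (e : ℕ) : ww (LL e) ≤ e :=
  Nat.findGreatest_spec (P := fun L => ww L ≤ e) (Nat.zero_le e) (by simp [ww])

theorem le_LL {e l : ℕ} (h : ww l ≤ e) : l ≤ LL e :=
  Nat.le_findGreatest (le_trans (le_ww l).1 h) h

theorem small_of_lt_LL {e l : ℕ} (h : l < LL e) : mm l ≤ e ∧ dd l ≤ e := by
  have h1 : ww (l + 1) ≤ e := le_trans (ww_mono h) (ww_LL e)
  simp only [ww] at h1
  omega

noncomputable def Lists (X : ℕ) : ℕ → Finset (List ℕ)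
  | 0 => {[]}
  | m + 1 => (range X ×ˢ Lists X m).image (fun p => p.1 :: p.2)

theorem mem_Lists {X : ℕ} : ∀ {m : ℕ} {us : List ℕ},
    us ∈ Lists X m ↔ us.length = m ∧ ∀ u ∈ us, u < X := by
  intro m
  induction m with
  | zero =>
    intro us
    simp only [Lists, Finset.mem_singleton, List.length_eq_zero_iff]
    exact ⟨fun h => ⟨h, by simp [h]⟩, fun h => h.1⟩
  | succ m ih =>
    intro us
    simp only [Lists, Finset.mem_image, Finset.mem_product, Finset.mem_range, ih]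
    constructor
    · rintro ⟨⟨u, us'⟩, ⟨h1, h2, h3⟩, rfl⟩
      refine ⟨by simpa using h2, ?_⟩
      intro u' hu'
      rcases List.mem_cons.1 hu' with rfl | hu'
      · exact h1
      · exact h3 u' hu'
    · rintro ⟨h1, h2⟩
      cases us with
      | nil => simp at h1
      | cons u us' =>
        exact ⟨(u, us'), ⟨h2 u (by simp), by simpa using h1,
          fun u' hu' => h2 u' (by simp [hu'])⟩, rfl⟩

theorem card_Lists (X m : ℕ) : (Lists X m).card ≤ X ^ m := by
  induction m with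
  | zero => simp [Lists]
  | succ m ih =>
    refine le_trans Finset.card_image_le ?_
    rw [Finset.card_product, Finset.card_range, pow_succ']
    exact Nat.mul_le_mul_left _ ih

abbrev Blk : Type := ℕ × ℕ × List ℕ

noncomputable def BB (e : ℕ) : Finset Blk :=
  (range (LL e) ×ˢ Ico (kx e) (kx (e + 1))).biUnion
    (fun p => (Lists (XX p.2) (mm p.1)).image (fun us => (p.1, p.2, us)))

theorem mem_BB {e : ℕ} {b : Blk} : b ∈ BB e ↔
    b.1 < LL e ∧ kx e ≤ b.2.1 ∧ b.2.1 < kx (e + 1) ∧ b.2.2 ∈ Lists (XX b.2.1) (mm b.1) := by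
  obtain ⟨l, i, us⟩ := b
  simp only [BB, Finset.mem_biUnion, Finset.mem_product, Finset.mem_range, Finset.mem_Ico,
    Finset.mem_image, Prod.mk.injEq]
  constructor
  · rintro ⟨⟨l', i'⟩, ⟨h1, h2, h3⟩, us', h4, rfl, rfl, rfl⟩
    exact ⟨h1, h2, h3, h4⟩
  · rintro ⟨h1, h2, h3, h4⟩
    exact ⟨(l, i), ⟨h1, h2, h3⟩, us, h4, rfl, rfl, rfl⟩

theorem sum_BB (e : ℕ) (f : Blk → ℝ) (c : ℝ) (hc : 0 ≤ c)
    (h : ∀ l i, l < LL e → kx e ≤ i → i < kx (e + 1) →
      ∑ us ∈ Lists (XX i) (mm l), f (l, i, us) ≤ c) :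
    ∑ b ∈ BB e, f b ≤ e * kx (e + 1) * c := by
  unfold BB
  rw [Finset.sum_biUnion]
  · refine le_trans (Finset.sum_le_sum (g := fun _ => c) ?_) ?_
    · rintro ⟨l, i⟩ hp
      simp only [Finset.mem_product, Finset.mem_range, Finset.mem_Ico] at hp
      rw [Finset.sum_image (fun _ _ _ _ e => by simpa using e)]
      exact h l i hp.1 hp.2.1 hp.2.2
    · rw [Finset.sum_const, nsmul_eq_mul, Finset.card_product, Finset.card_range, Nat.card_Ico]
      apply mul_le_mul_of_nonneg_right _ hc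
      have h1 : LL e ≤ e := le_trans (le_ww _).1 (ww_LL e)
      have h2 : LL e * (kx (e + 1) - kx e) ≤ e * kx (e + 1) :=
        Nat.mul_le_mul h1 (Nat.sub_le _ _)
      exact_mod_cast h2
  · rintro ⟨l, i⟩ _ ⟨l', i'⟩ _ hne
    rw [Function.onFun, Finset.disjoint_left]
    intro b hb hb'
    obtain ⟨us, _, rfl⟩ := Finset.mem_image.1 hb
    obtain ⟨us', _, e⟩ := Finset.mem_image.1 hb'
    simp only [Prod.mk.injEq] at e
    exact hne (Prod.ext e.1.symm e.2.1.symm)

theorem card_BB (e : ℕ) : (BB e).card ≤ e * kx (e + 1) * PP (e + 1) ^ e := by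
  have := sum_BB e (fun _ => 1) ((PP (e + 1) ^ e : ℕ) : ℝ) (by positivity) (by
    intro l i h1 _ h3
    rw [Finset.sum_const, nsmul_eq_mul, mul_one]
    have a := card_Lists (XX i) (mm l)
    have b : XX i ^ mm l ≤ PP (e + 1) ^ mm l :=
      Nat.pow_le_pow_left (XX_strictMono h3).le _
    have c : PP (e + 1) ^ mm l ≤ PP (e + 1) ^ e :=
      Nat.pow_le_pow_right (by have := lt_PP (e + 1); omega) (small_of_lt_LL h1).1
    exact_mod_cast le_trans a (le_trans b c))
  rw [Finset.sum_const, nsmul_eq_mul, mul_one] at this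
  exact_mod_cast this

noncomputable def KK (b : Blk) : ℕ := XX b.2.1 ^ (mm b.1 + 1)

def addr (v : Nd Blk) : ℕ := prN (v.1.1 + 1) (chainP v.2 (chainU v.1.2.2 (XX v.1.2.1)))

def Leaf (e : ℕ) (v : Nd Blk) : Prop :=
  v.1 ∈ BB e ∧ v.2 ∈ Paths (KK v.1 * KK v.1) (tt dd (v.1.1 + 1))

theorem addr_inj {e e' : ℕ} {v v' : Nd Blk} (h : Leaf e v) (h' : Leaf e' v')
    (ha : addr v = addr v') : v = v' ∧ e = e' := by
  obtain ⟨⟨l, i, us⟩, p⟩ := v
  obtain ⟨⟨l', i', us'⟩, p'⟩ := v'
  obtain ⟨a1, a2⟩ := prN_inj ha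
  have hl : l = l' := by simpa using a1
  subst hl
  obtain ⟨_, b2, b3, b4⟩ := mem_BB.1 h.1
  obtain ⟨_, c2, c3, c4⟩ := mem_BB.1 h'.1
  obtain ⟨a3, a4⟩ := chainP_inj
    ((length_of_mem_Paths h.2).trans (length_of_mem_Paths h'.2).symm) a2
  obtain ⟨a5, a6⟩ := chainU_inj ((mem_Lists.1 b4).1.trans (mem_Lists.1 c4).1.symm) a4
  have a7 : i = i' := XX_strictMono.injective a6
  simp only at a3 a5
  subst a3 a5 a7
  exact ⟨rfl, epoch_unique b2 b3 c2 c3⟩

theorem addr_ge {e : ℕ} {v : Nd Blk} (h : Leaf e v) : PP e ≤ addr v :=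
  le_trans (XX_strictMono.monotone (mem_BB.1 h.1).2.1) (le_trans (le_chainU _ _)
    (le_trans (le_chainP _ _) (le_prN_right _ _)))

def merge (e : ℕ) (base : Set ℕ) (x : Nd Blk → Bool) : Set ℕ :=
  {n | if h : ∃ v, Leaf e v ∧ addr v = n then x h.choose = true else n ∈ base}

theorem merge_of_not {e : ℕ} {base : Set ℕ} {x : Nd Blk → Bool} {n : ℕ}
    (h : ¬∃ v, Leaf e v ∧ addr v = n) : n ∈ merge e base x ↔ n ∈ base := by
  simp only [merge, Set.mem_ofPred_eq, dif_neg h]

theorem merge_leaf {e : ℕ} {base : Set ℕ} {x : Nd Blk → Bool} {v : Nd Blk} (h : Leaf e v) :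
    addr v ∈ merge e base x ↔ x v = true := by
  have hex : ∃ v', Leaf e v' ∧ addr v' = addr v := ⟨v, h, rfl⟩
  simp only [merge, Set.mem_ofPred_eq, dif_pos hex]
  rw [(addr_inj hex.choose_spec.1 h hex.choose_spec.2).1]

theorem sh_merge (e : ℕ) (base : Set ℕ) (n : ℕ) :
    Sh 1 (fun x => decide (n ∈ merge e base x)) := by
  by_cases h : ∃ v, Leaf e v ∧ addr v = n
  · refine (Sh.var h.choose).congr ?_
    intro x
    simp only [merge, Set.mem_ofPred_eq, dif_pos h]
    simp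
  · refine (Sh.const 1 (decide (n ∈ base))).congr ?_
    intro x
    simp only [merge_of_not h]

noncomputable def wv (e l : ℕ) : ℕ :=
  Nat.findGreatest (fun w => (w + 2) ^ kk l ≤ PP (e + 1)) (PP (e + 1))

theorem le_wv {e l z : ℕ} (h : (z + 2) ^ kk l ≤ PP (e + 1)) :
    z ≤ wv e l ∧ (wv e l + 2) ^ kk l ≤ PP (e + 1) := by
  have h1 : z + 2 ≤ (z + 2) ^ kk l := Nat.le_self_pow (by have := kk_pos l; omega) _
  exact ⟨Nat.le_findGreatest (by omega) h,
    Nat.findGreatest_spec (P := fun w => (w + 2) ^ kk l ≤ PP (e + 1)) (m := z) (by omega) h⟩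

noncomputable def CC (e : ℕ) (base : Set ℕ) (b : Blk) (x : Nd Blk → Bool) : Bool :=
  if (XX b.2.1 + 2) ^ kk b.1 ≤ PP (e + 1) then
    decide ((fm b.1).holds (natStr (merge e base x))
      (cons (wv e b.1) (fun i => b.2.2.getD i 0))) else false

theorem val_le_wv {e : ℕ} {b : Blk} (hb : b ∈ BB e)
    (h : (XX b.2.1 + 2) ^ kk b.1 ≤ PP (e + 1)) (i : ℕ) :
    cons (wv e b.1) (fun i => b.2.2.getD i 0) i ≤ wv e b.1 := by
  cases i with
  | zero => exact le_rfl
  | succ i =>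
    simp only [cons_succ]
    have h1 := (le_wv h).1
    have h2 := (mem_Lists.1 (mem_BB.1 hb).2.2.2).2
    by_cases hi : i < b.2.2.length
    · rw [List.getD_eq_getElem _ _ hi]
      have := h2 _ (List.getElem_mem hi)
      omega
    · rw [List.getD_eq_default _ _ (by omega)]
      omega

theorem epoch_inst (e : ℕ) (base : Set ℕ) : ∃ x : Nd Blk → Bool, ∀ b ∈ BB e,
    sip (KK b * KK b) (fun p => x (b, p)) (tt dd (b.1 + 1)) [] = CC e base b x := by
  have hL : LL e ≤ e := le_trans (le_ww _).1 (ww_LL e)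
  have hP1 : 1 ≤ PP (e + 1) := by have := lt_PP (e + 1); omega
  have hdepth := param_depth e (LL e) hL
  have hK : ∀ b ∈ BB e, PP e ≤ KK b := by
    intro b hb
    exact le_trans (XX_strictMono.monotone (mem_BB.1 hb).2.1) (Nat.le_self_pow (by omega) _)
  set Dm := (2 ^ (2 * kx (e + 1))) ^ (kx (e + 1) + 1) ^ LL e with hDm
  have hD : 32 * Dm ≤ PP e := by
    refine le_trans ?_ hdepth
    apply Nat.mul_le_mul_right
    exact Nat.le_mul_of_pos_right _ (by positivity)
  have hcount : ∀ d, d ≤ e → (BB e).card * PP (e + 1) ^ d * 2 ≤ 2 ^ 2 ^ (2 * kx (e + 1)) := by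
    intro d hd
    refine le_trans ?_ (param_count e)
    apply Nat.mul_le_mul_right
    exact Nat.mul_le_mul (card_BB e) (Nat.pow_le_pow_right hP1 hd)
  apply epoch (BB e) (fun b => b.1) (fun b => b.2.1) KK dd (CC e base) (LL e) (kx (e + 1))
    (PP e) (PP (e + 1)) (2 ^ (2 * kx (e + 1))) (two_le_XX _) hK hP1 Nat.one_le_two_pow
    (fun b hb => (mem_BB.1 hb).1) (fun b hb => (mem_BB.1 hb).2.2.1)
  · intro b _ b' _ h1 h2
    unfold KK
    rw [h1]
    exact Nat.pow_le_pow_left (XX_strictMono.monotone h2) _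
  · intro b hb
    unfold CC
    split_ifs with h
    · exact (fm_spec b.1 _ _ (val_le_wv hb h)).2 _ _ (sh_merge e base) _ (le_wv h).2
    · exact cls_const hP1 false
  · exact fun l hl => hcount _ (small_of_lt_LL hl).2
  · exact hD
  · have hP0 : (0 : ℝ) < PP e := by
      have : 0 < PP e := by have := lt_PP e; omega
      exact_mod_cast this
    refine le_trans (sum_BB e _ ((Dm : ℝ) / PP e) (by positivity) ?_) ?_
    · intro l i _ h2 _
      have hX : (0 : ℝ) < XX i := by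
        have : 0 < XX i := by have := lt_XX i; omega
        exact_mod_cast this
      have h4 : ∀ us ∈ Lists (XX i) (mm l), (Dm : ℝ) / KK (l, i, us) =
          Dm / (XX i : ℝ) ^ (mm l + 1) := by
        intro us _
        simp [KK]
      rw [Finset.sum_congr rfl h4, Finset.sum_const, nsmul_eq_mul]
      have a : ((Lists (XX i) (mm l)).card : ℝ) ≤ (XX i : ℝ) ^ mm l := by
        exact_mod_cast card_Lists (XX i) (mm l)
      have b : (PP e : ℝ) ≤ XX i := by exact_mod_cast XX_strictMono.monotone h2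
      calc _ ≤ (XX i : ℝ) ^ mm l * (Dm / (XX i : ℝ) ^ (mm l + 1)) :=
            mul_le_mul_of_nonneg_right a (by positivity)
        _ = Dm / XX i := by field_simp; ring
        _ ≤ _ := by gcongr
    · have h1 : e * kx (e + 1) * Dm * 8 ≤ PP e := by
        refine le_trans ?_ hdepth
        have a : e ≤ 2 ^ e := Nat.lt_two_pow_self.le
        have b : kx (e + 1) ≤ 2 ^ kx (e + 1) := Nat.lt_two_pow_self.le
        have c : e * kx (e + 1) ≤ 2 ^ e * 2 ^ kx (e + 1) := Nat.mul_le_mul a b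
        have := Nat.mul_le_mul_right Dm c
        rw [Nat.mul_assoc 32]
        omega
      have h2 : (e : ℝ) * kx (e + 1) * Dm * 8 ≤ PP e := by exact_mod_cast h1
      rw [← mul_div_assoc, div_le_iff₀ hP0]
      linarith
  · intro b hb
    have h1 : KK b = 2 ^ (2 ^ b.2.1 * (mm b.1 + 1)) := by
      simp only [KK, XX, pow_mul]
    have h2 := hK b hb
    rw [h1] at h2 ⊢
    apply param_surv (e := e) (D := 2 ^ (2 * kx (e + 1))) (le_trans (le_ww _).2 (ww_LL e))
    · have a := kap_ge e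
      have b1 : kap e ≤ kx e := Nat.le_mul_self _
      have c := (mem_BB.1 hb).2.1
      have d : b.2.1 < 2 ^ b.2.1 := Nat.lt_two_pow_self
      nlinarith
    · have := hcount 0 (Nat.zero_le _)
      rw [pow_zero, Nat.mul_one] at this
      omega
    · have : 2 ^ (2 * kx (e + 1)) ≤ Dm := Nat.le_self_pow (by positivity) _
      omega

def aux : Set ℕ :=
  {n | (∃ i, n = prN 0 (prN 0 (XX i))) ∨ (∃ e, n = prN 0 (prN 1 (PP e))) ∨
    ∃ x, n = prN 0 (prN 2 (prN (2 ^ x) x))}

noncomputable def OA : ℕ → Set ℕ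
  | 0 => aux
  | e + 1 => merge e (OA e) (epoch_inst e (OA e)).choose

def theA : Set ℕ := {n | n ∈ OA (n + 1)}

theorem OA_stable {n a : ℕ} (h : ∀ e, a ≤ e → ¬∃ v, Leaf e v ∧ addr v = n) :
    ∀ c, a ≤ c → (n ∈ OA c ↔ n ∈ OA a) := by
  intro c hc
  induction c, hc using Nat.le_induction with
  | base => rfl
  | succ c hc ih => rw [OA, merge_of_not (h c hc), ih]

theorem theA_iff {n a : ℕ} (h : ∀ e, a ≤ e → ¬∃ v, Leaf e v ∧ addr v = n) :
    n ∈ theA ↔ n ∈ OA a := by
  have h1 := OA_stable h (a + (n + 1)) (by omega)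
  have h2 := OA_stable (n := n) (a := n + 1) (by
    rintro e he ⟨v, hv, rfl⟩
    have := addr_ge hv
    have := lt_PP e
    omega) (a + (n + 1)) (by omega)
  exact h2.symm.trans h1

theorem theA_aux (y : ℕ) : prN 0 y ∈ theA ↔ prN 0 y ∈ aux := by
  apply theA_iff (a := 0)
  rintro e _ ⟨v, _, hv⟩
  have := (prN_inj hv).1
  omega

theorem scale_iff (X : ℕ) : prN 0 (prN 0 X) ∈ theA ↔ ∃ i, X = XX i := by
  simp [theA_aux, aux, prN_eq_iff]

theorem wall_iff (P : ℕ) : prN 0 (prN 1 P) ∈ theA ↔ ∃ e, P = PP e := by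
  simp [theA_aux, aux, prN_eq_iff]

theorem exp_iff (y x : ℕ) : prN 0 (prN 2 (prN y x)) ∈ theA ↔ y = 2 ^ x := by
  simp [theA_aux, aux, prN_eq_iff]

/-- the decoding formula of level `l` -/
def psiF (l : ℕ) : Fm :=
  SF l (tt dd (l + 1)) (chainT ((List.range (mm l)).map (fun i => Tm.var (i + 1))) (Tm.var 0))
    (Tm.mul (powT (Tm.var 0) (mm l + 1)) (powT (Tm.var 0) (mm l + 1)))

/-- every bounded statement about a number below the next wall is decided by a bounded
formula at the current scale -/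
theorem speedup (χ : Fm) : ∀ X z : ℕ, (∃ i, X = XX i) → PP (ww (χ.code + 1)) < X →
    X ≤ z → (∀ e, X < PP e → (z + 2) ^ kk χ.code < PP e) → ∃ w, z ≤ w ∧ ∀ v : ℕ → ℕ,
      (∀ i, i < χ.code → v i < X) →
        ((psiF χ.code).holds (natStr theA) (cons X v) ↔ χ.holds (natStr theA) (cons w v)) := by
  obtain ⟨l, hl⟩ : ∃ l, l = χ.code := ⟨_, rfl⟩
  have hχ : χ = fm l := by rw [hl, fm_code]
  rw [← hl, hχ]
  unfold psiF
  rintro X z ⟨i, rfl⟩ hc hz hw
  obtain ⟨e, he1, he2, he3⟩ := exists_epoch (e0 := ww (l + 1)) (i := i)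
    (XX_strictMono.lt_iff_lt.1 hc).le
  have h1 : (z + 2) ^ kk l ≤ PP (e + 1) := (hw (e + 1) (XX_strictMono he3)).le
  have h2 : (XX i + 2) ^ kk l ≤ PP (e + 1) :=
    le_trans (Nat.pow_le_pow_left (by omega) _) h1
  refine ⟨wv e l, (le_wv h1).1, fun v hv => ?_⟩
  set b : Blk := (l, i, (List.range (mm l)).map v) with hbdef
  have hb : b ∈ BB e := by
    refine mem_BB.2 ⟨le_LL he1, he2, he3, mem_Lists.2 ⟨by simp [hbdef], ?_⟩⟩
    intro u hu
    obtain ⟨j, hj, rfl⟩ := List.mem_map.1 hu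
    exact hv j (List.mem_range.1 hj)
  set x := (epoch_inst e (OA e)).choose with hx
  have hspec := (epoch_inst e (OA e)).choose_spec b hb
  rw [← hx] at hspec
  have h3 := holds_SF theA l (KK b * KK b) (chainU b.2.2 (XX i)) (fun p => x (b, p))
    (tt dd (l + 1)) 0 []
    (chainT ((List.range (mm l)).map (fun i => Tm.var (i + 1))) (Tm.var 0))
    (Tm.mul (powT (Tm.var 0) (mm l + 1)) (powT (Tm.var 0) (mm l + 1))) (cons (XX i) v)
    (mem_Paths_zero.2 rfl) (by
      intro p hp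
      rw [Nat.zero_add] at hp
      have hleaf : Leaf e (b, p) := ⟨hb, hp⟩
      have := theA_iff (n := addr (b, p)) (a := e + 1) (by
        rintro e' he' ⟨v', hv', ha⟩
        have := (addr_inj hv' hleaf ha).2
        omega)
      exact this.trans (merge_leaf hleaf))
    (by simp [Tm.val, KK, hbdef])
    (by
      rw [val_chainT, List.map_map]
      rfl)
  rw [h3]
  have h4 : sip (KK b * KK b) (fun p => x (b, p)) (tt dd (l + 1)) [] = CC e (OA e) b x := hspec
  rw [h4]
  unfold CC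
  rw [if_pos h2, decide_eq_true_eq]
  have h5 := (fm_spec l _ _ (val_le_wv hb h2)).1 (merge e (OA e) x) theA (by
    intro n hn
    symm
    apply theA_iff (a := e + 1)
    rintro e' he' ⟨v', hv', rfl⟩
    have a := addr_ge hv'
    have b := PP_strictMono.monotone he'
    exact absurd (lt_of_lt_of_le hn (le_trans (le_wv h2).2 (le_trans b a))) (lt_irrefl _))
  refine h5.trans (Fm.holds_congr_code _ ?_)
  intro j hj
  cases j with
  | zero => rfl
  | succ j =>
    have : j < mm l := by have := code_fm_le l; unfold mm; omega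
    simp [hbdef, this]

end Pool.Agent.Lib.MP_646b81
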