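import Pool.Agent.Lib.MP_646b81.Model

/-! The axioms are computed primitive recursively from the Gödel number of the formula. -/

namespace Pool.Agent.Lib.MP_646b81

open Primrec

theorem exists_strong {α : Type} [Primcodable α] (g : α → List ℕ → ℕ) (hg : Primrec₂ g) :
    ∃ f : α → ℕ → ℕ, Primrec₂ f ∧ ∀ a n, f a n = g a ((List.range n).map (f a)) := by
  let tab : α → ℕ → List ℕ := fun a n => Nat.rec [] (fun _ l => l ++ [g a l]) n
  have h : ∀ a n, tab a n = (List.range n).map (fun m => g a (tab a m)) := by
    intro a n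
    induction n with
    | zero => rfl
    | succ n ih =>
      rw [List.range_succ, List.map_append, ← ih]
      rfl
  refine ⟨fun a n => g a (tab a n), ?_, fun a n => by rw [← h]⟩
  apply nat_strong_rec _ (g := fun a l => some (g a l)) (Primrec.option_some.comp hg).to₂
  intro a n
  rw [← h]

theorem getD_map_range (h : ℕ → ℕ) {n i : ℕ} (hi : i < n) :
    ((List.range n).map h).getD i 0 = h i := by
  simp [List.getD_eq_getElem?_getD, hi]

theorem prim_pair {α : Type} [Primcodable α] {f g : α → ℕ} (hf : Primrec f) (hg : Primrec g) :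
    Primrec (fun a => Nat.pair (f a) (g a)) := Primrec₂.natPair.comp hf hg

theorem prim_u1 {α : Type} [Primcodable α] {f : α → ℕ} (hf : Primrec f) :
    Primrec (fun a => (f a).unpair.1) := fst.comp (Primrec.unpair.comp hf)

theorem prim_u2 {α : Type} [Primcodable α] {f : α → ℕ} (hf : Primrec f) :
    Primrec (fun a => (f a).unpair.2) := snd.comp (Primrec.unpair.comp hf)

theorem prim_pow : Primrec₂ (fun a b : ℕ => a ^ b) :=
  Primrec₂.unpaired'.1 Nat.Primrec.pow

def lf (f : ℕ → ℕ) (d i : ℕ) : ℕ := if i < d then i else f (i - d) + d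

theorem lf_zero (f : ℕ → ℕ) : lf f 0 = f := by
  funext i
  simp [lf]

theorem liftR_lf (f : ℕ → ℕ) (d : ℕ) : liftR (lf f d) = lf f (d + 1) := by
  funext i
  cases i with
  | zero => simp [liftR, lf]
  | succ i =>
    simp only [liftR, lf, Nat.add_lt_add_iff_right, Nat.add_sub_add_right]
    split_ifs
    · rfl
    · omega

theorem exists_rT {f : ℕ → ℕ} (hf : Primrec f) : ∃ r : ℕ → ℕ → ℕ, Primrec₂ r ∧
    ∀ (d : ℕ) (t : Tm), r d t.code = (t.rename (lf f d)).code := by
  have hn : Primrec (fun p : ℕ × List ℕ => p.2.length) := list_length.comp snd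
  have hl : Primrec₂ (lf f) := by
    unfold lf
    exact Primrec.ite (nat_lt.comp snd fst) snd
      (nat_add.comp (hf.comp (nat_sub.comp snd fst)) fst)
  obtain ⟨r, h1, h2⟩ := exists_strong (fun (d : ℕ) (l : List ℕ) =>
    if l.length.unpair.1 = 0 then Nat.pair 0 (lf f d l.length.unpair.2)
    else if l.length.unpair.1 < 3 then l.length
    else Nat.pair l.length.unpair.1 (Nat.pair (l.getD l.length.unpair.2.unpair.1 0)
      (l.getD l.length.unpair.2.unpair.2 0))) (by
      apply Primrec.ite (Primrec.eq.comp (prim_u1 hn) (const 0))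
      · exact prim_pair (const 0) (hl.comp fst (prim_u2 hn))
      · apply Primrec.ite (nat_lt.comp (prim_u1 hn) (const 3)) hn
        exact prim_pair (prim_u1 hn) (prim_pair
          ((list_getD 0).comp snd (prim_u1 (prim_u2 hn)))
          ((list_getD 0).comp snd (prim_u2 (prim_u2 hn)))))
  refine ⟨r, h1, fun d t => ?_⟩
  induction t with
  | var i => rw [h2]; simp [Tm.code, Tm.rename]
  | zero => rw [h2]; simp [Tm.code, Tm.rename]
  | one => rw [h2]; simp [Tm.code, Tm.rename]
  | add s t a b =>
    have := add_le_pair3 3 s.code t.code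
    rw [h2]
    simp only [Tm.code, Tm.rename, List.length_map, List.length_range, Nat.unpair_pair]
    rw [if_neg (by omega), if_neg (by omega), getD_map_range _ (by omega),
      getD_map_range _ (by omega), a, b]
  | mul s t a b =>
    have := add_le_pair3 4 s.code t.code
    rw [h2]
    simp only [Tm.code, Tm.rename, List.length_map, List.length_range, Nat.unpair_pair]
    rw [if_neg (by omega), if_neg (by omega), getD_map_range _ (by omega),
      getD_map_range _ (by omega), a, b]

theorem exists_rF {f : ℕ → ℕ} (hf : Primrec f) : ∃ r : ℕ → ℕ, Primrec r ∧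
    ∀ φ : Fm, r φ.code = (φ.rename f).code := by
  obtain ⟨rT, t1, t2⟩ := exists_rT hf
  have hN : Primrec (fun p : ℕ × List ℕ => p.2.length) := list_length.comp snd
  have hn : Primrec (fun p : ℕ × List ℕ => p.2.length / p.1) := nat_div.comp hN fst
  have hd : Primrec (fun p : ℕ × List ℕ => p.2.length % p.1) := nat_mod.comp hN fst
  have hx : ∀ {g e : ℕ × List ℕ → ℕ}, Primrec g → Primrec e →
      Primrec (fun p : ℕ × List ℕ => p.2.getD (g p * p.1 + e p) 0) :=
    fun hg he => (list_getD 0).comp snd (nat_add.comp (nat_mul.comp hg fst) he)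
  obtain ⟨r, h1, h2⟩ := exists_strong (fun (B : ℕ) (l : List ℕ) =>
    if (l.length / B).unpair.1 < 2 then Nat.pair (l.length / B).unpair.1
      (Nat.pair (rT (l.length % B) (l.length / B).unpair.2.unpair.1)
        (rT (l.length % B) (l.length / B).unpair.2.unpair.2))
    else if (l.length / B).unpair.1 = 2 then
      Nat.pair 2 (rT (l.length % B) (l.length / B).unpair.2)
    else if (l.length / B).unpair.1 = 3 then
      Nat.pair 3 (l.getD ((l.length / B).unpair.2 * B + l.length % B) 0)
    else if (l.length / B).unpair.1 = 4 then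
      Nat.pair 4 (Nat.pair (l.getD ((l.length / B).unpair.2.unpair.1 * B + l.length % B) 0)
        (l.getD ((l.length / B).unpair.2.unpair.2 * B + l.length % B) 0))
    else Nat.pair 5 (Nat.pair (rT (l.length % B) (l.length / B).unpair.2.unpair.1)
        (l.getD ((l.length / B).unpair.2.unpair.2 * B + (l.length % B + 1)) 0))) (by
      apply Primrec.ite (nat_lt.comp (prim_u1 hn) (const 2))
      · exact prim_pair (prim_u1 hn) (prim_pair (t1.comp hd (prim_u1 (prim_u2 hn)))
          (t1.comp hd (prim_u2 (prim_u2 hn))))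
      apply Primrec.ite (Primrec.eq.comp (prim_u1 hn) (const 2))
      · exact prim_pair (const 2) (t1.comp hd (prim_u2 hn))
      apply Primrec.ite (Primrec.eq.comp (prim_u1 hn) (const 3))
      · exact prim_pair (const 3) (hx (prim_u2 hn) hd)
      apply Primrec.ite (Primrec.eq.comp (prim_u1 hn) (const 4))
      · exact prim_pair (const 4) (prim_pair (hx (prim_u1 (prim_u2 hn)) hd)
          (hx (prim_u2 (prim_u2 hn)) hd))
      · exact prim_pair (const 5) (prim_pair (t1.comp hd (prim_u1 (prim_u2 hn)))
          (hx (prim_u2 (prim_u2 hn)) (succ.comp hd))))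
  have key : ∀ (B : ℕ) (φ : Fm) (d : ℕ), d + φ.code < B →
      r B (φ.code * B + d) = (φ.rename (lf f d)).code := by
    intro B φ
    have hdiv : ∀ n d, d < B → (n * B + d) / B = n ∧ (n * B + d) % B = d := by
      intro n d hd
      constructor
      · rw [Nat.add_comm, Nat.add_mul_div_right _ _ (by omega), Nat.div_eq_of_lt hd, Nat.zero_add]
      · rw [Nat.add_comm, Nat.add_mul_mod_self_right, Nat.mod_eq_of_lt hd]
    have hlt : ∀ n n' d d', n' + 2 ≤ n → d < B → d' ≤ d + 1 → n' * B + d' < n * B + d := by
      intro n n' d d' a b c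
      have : (n' + 2) * B ≤ n * B := Nat.mul_le_mul_right _ a
      rw [Nat.add_mul] at this
      omega
    induction φ with
    | eq s t =>
      intro d hd
      rw [h2]
      simp only [List.length_map, List.length_range, hdiv _ d (by omega)]
      simp [Fm.code, Fm.rename, t2]
    | lt s t =>
      intro d hd
      rw [h2]
      simp only [List.length_map, List.length_range, hdiv _ d (by omega)]
      simp [Fm.code, Fm.rename, t2]
    | orc t =>
      intro d hd
      rw [h2]
      simp only [List.length_map, List.length_range, hdiv _ d (by omega)]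
      simp [Fm.code, Fm.rename, t2]
    | not φ a =>
      intro d hd
      have := Nat.add_le_pair 3 φ.code
      rw [h2]
      simp only [List.length_map, List.length_range, hdiv _ d (by omega)]
      simp only [Fm.code, Fm.rename, Nat.unpair_pair] at hd ⊢
      rw [if_neg (by omega), if_neg (by omega), if_pos trivial,
        getD_map_range _ (hlt _ _ _ _ (by omega) (by omega) (by omega)), a d (by omega)]
    | and φ ψ a b =>
      intro d hd
      have := add_le_pair3 4 φ.code ψ.code
      rw [h2]
      simp only [List.length_map, List.length_range, hdiv _ d (by omega)]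
      simp only [Fm.code, Fm.rename, Nat.unpair_pair] at hd ⊢
      rw [if_neg (by omega), if_neg (by omega), if_neg (by omega), if_pos trivial,
        getD_map_range _ (hlt _ _ _ _ (by omega) (by omega) (by omega)),
        getD_map_range _ (hlt _ _ _ _ (by omega) (by omega) (by omega)),
        a d (by omega), b d (by omega)]
    | ball t φ a =>
      intro d hd
      have := add_le_pair3 5 t.code φ.code
      rw [h2]
      simp only [List.length_map, List.length_range, hdiv _ d (by omega)]
      simp only [Fm.code, Fm.rename, Nat.unpair_pair] at hd ⊢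
      rw [if_neg (by omega), if_neg (by omega), if_neg (by omega), if_neg (by omega),
        getD_map_range _ (hlt _ _ _ _ (by omega) (by omega) (by omega)),
        a (d + 1) (by omega), t2, liftR_lf]
  refine ⟨fun n => r (n + 1) (n * (n + 1)),
    h1.comp succ (nat_mul.comp Primrec.id succ), fun φ => ?_⟩
  have := key (φ.code + 1) φ 0 (by omega)
  rwa [lf_zero, Nat.add_zero] at this

theorem prim_rn (a b c : ℕ) : Primrec (rn a b c) := by
  have : Primrec (fun j : ℕ => if j = 0 then a else if j = 1 then b else j - 2 + c) :=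
    Primrec.ite (Primrec.eq.comp Primrec.id (const 0)) (const a)
      (Primrec.ite (Primrec.eq.comp Primrec.id (const 1)) (const b)
        (nat_add.comp (nat_sub.comp Primrec.id (const 2)) (const c)))
  refine this.of_eq ?_
  rintro (_ | _ | j) <;> simp [rn]

def prC (a b : ℕ) : ℕ :=
  Nat.pair 3 (Nat.pair (Nat.pair 4 (Nat.pair (Nat.pair 3 (Nat.pair a b))
    (Nat.pair 3 (Nat.pair a b)))) a)

theorem prim_prC {α : Type} [Primcodable α] {f g : α → ℕ} (hf : Primrec f) (hg : Primrec g) :
    Primrec (fun a => prC (f a) (g a)) :=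
  prim_pair (const 3) (prim_pair (prim_pair (const 4) (prim_pair
    (prim_pair (const 3) (prim_pair hf hg)) (prim_pair (const 3) (prim_pair hf hg)))) hf)

theorem code_prT (s t : Tm) : (prT s t).code = prC s.code t.code := rfl

theorem prim_rec0 (z : ℕ) {g : ℕ × ℕ → ℕ} (hg : Primrec g) {F : ℕ → ℕ} (h0 : F 0 = z)
    (h1 : ∀ n, F (n + 1) = g (n, F n)) : Primrec F := by
  refine (nat_rec₁ (f := fun n ih => g (n, ih)) z hg.to₂).of_eq ?_
  intro n
  induction n with
  | zero => exact h0.symm
  | succ n ih => rw [h1, ← ih]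

theorem prim_num : Primrec (fun n => (num n).code) :=
  prim_rec0 _ (prim_pair (const 3) (prim_pair snd (const Tm.one.code))) rfl (fun _ => rfl)

theorem prim_powT (t : Tm) : Primrec (fun k => (powT t k).code) :=
  prim_rec0 _ (prim_pair (const 4) (prim_pair snd (const t.code))) rfl (fun _ => rfl)

theorem prim_sumT : Primrec (fun m => (sumT m).code) :=
  prim_rec0 _ (prim_pair (const 3) (prim_pair snd
    (prim_pair (const 0) (nat_add.comp fst (const 2))))) rfl (fun _ => rfl)

theorem prim_allLt : Primrec (fun m => (allLt m).code) :=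
  prim_rec0 _ (prim_pair (const 4) (prim_pair snd (prim_pair (const 1) (prim_pair
    (prim_pair (const 0) (nat_add.comp fst (const 3))) (const (Tm.var 0).code)))))
    rfl (fun _ => rfl)

theorem prim_tt : Primrec (tt dd) :=
  prim_rec0 _ (succ.comp (nat_add.comp snd fst)) rfl (fun _ => rfl)

theorem prim_ww : Primrec ww :=
  prim_rec0 _ (succ.comp (nat_add.comp (nat_add.comp snd fst) fst)) rfl (fun _ => rfl)

theorem prim_kk : Primrec kk := prim_pow.comp (const 2) Primrec.id

theorem prim_PP : Primrec PP := by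
  have h : Primrec kap := prim_rec0 _ (prim_pow.comp (const 2) snd) rfl (fun _ => rfl)
  exact prim_pow.comp (const 2) (prim_pow.comp (const 2) (nat_mul.comp h h))

theorem prim_chain : Primrec (fun m =>
    (chainT ((List.range m).map (fun i => Tm.var (i + 1))) (Tm.var 0)).code) := by
  have := list_foldr (f := List.range) (g := fun _ => (Tm.var 0).code)
    (h := fun (_ : ℕ) (p : ℕ × ℕ) => prC p.2 (Nat.pair 0 (p.1 + 1))) list_range (const _)
    (prim_prC (snd.comp snd) (prim_pair (const 0) (succ.comp (fst.comp snd)))).to₂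
  refine this.of_eq ?_
  intro m
  induction (List.range m) with
  | nil => rfl
  | cons i l ih =>
    simp only [List.foldr_cons, List.map_cons, chainT, code_prT, ih]
    rfl

theorem exists_SF : ∃ F : ℕ × ℕ × ℕ × ℕ → ℕ, Primrec F ∧
    ∀ l n (a G : Tm), F (l, n, a.code, G.code) = (SF l n a G).code := by
  obtain ⟨r1, a1, b1⟩ := exists_rT (f := (· + 1)) succ
  obtain ⟨r2, a2, b2⟩ := exists_rT (f := (· + 2)) (nat_add.comp Primrec.id (const 2))
  let st : ℕ × ℕ → ℕ × ℕ := fun p =>
    (prC (prC (r2 0 p.1) (Tm.var 1).code) (Tm.var 0).code, r2 0 p.2)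
  have hst : Primrec st := (prim_prC (prim_prC (a2.comp (const 0) fst) (const _)) (const _)).pair
    (a2.comp (const 0) snd)
  let w : ℕ → ℕ → ℕ := fun G e =>
    Nat.pair 3 (Nat.pair 5 (Nat.pair G (Nat.pair 5 (Nat.pair (r1 0 G) e))))
  have hw : Primrec₂ w := prim_pair (const 3) (prim_pair (const 5) (prim_pair fst
    (prim_pair (const 5) (prim_pair (a1.comp (const 0) fst) snd))))
  refine ⟨fun q => (List.range q.2.1).foldr (fun i e => w (st^[i] q.2.2).2 e)
    (Nat.pair 2 (prC (num (q.1 + 1)).code (st^[q.2.1] q.2.2).1)), ?_, ?_⟩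
  · exact list_foldr (h := fun (q : ℕ × ℕ × ℕ × ℕ) (p : ℕ × ℕ) => w (st^[p.1] q.2.2).2 p.2)
      (list_range.comp (fst.comp snd))
      (prim_pair (const 2) (prim_prC (prim_num.comp (succ.comp fst))
        (fst.comp (nat_iterate (h := fun _ => st) (fst.comp snd) (snd.comp snd)
          (hst.comp snd).to₂))))
      (hw.comp (snd.comp (nat_iterate (h := fun _ => st) (fst.comp snd)
        (snd.comp (snd.comp fst)) (hst.comp snd).to₂)) (snd.comp snd)).to₂
  · intro l n
    induction n with
    | zero => intro a G; rfl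
    | succ n ih =>
      intro a G
      have e : st (a.code, G.code) =
          ((prT (prT (a.rename (· + 2)) (Tm.var 1)) (Tm.var 0)).code, (G.rename (· + 2)).code) := by
        simp only [st, b2, lf_zero, code_prT]
      simp only [List.range_succ_eq_map, List.foldr_cons, List.foldr_map, Function.iterate_succ,
        Function.comp, Function.iterate_zero, id, e] at ih ⊢
      rw [ih]
      simp only [w, b1, lf_zero, SF, Fm.code]

theorem prim_psiF : Primrec (fun l => (psiF l).code) := by
  obtain ⟨F, h1, h2⟩ := exists_SF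
  have hp := (prim_powT (Tm.var 0)).comp succ
  refine (h1.comp (Primrec.id.pair ((prim_tt.comp succ).pair
    (prim_chain.pair (prim_pair (const 4) (prim_pair hp hp)))))).of_eq ?_
  intro l
  exact h2 l _ _ (Tm.mul (powT (Tm.var 0) (mm l + 1)) (powT (Tm.var 0) (mm l + 1)))

def PN (F : Fm → ℕ) : Prop := ∃ g : ℕ → ℕ, Primrec g ∧ ∀ φ : Fm, g φ.code = F φ

theorem PN.const (c : ℕ) : PN (fun _ => c) := ⟨fun _ => c, Primrec.const c, fun _ => rfl⟩

theorem PN.self : PN (fun φ => φ.code) := ⟨id, Primrec.id, fun _ => rfl⟩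

theorem PN.comp {h : ℕ → ℕ} (hh : Primrec h) {F : Fm → ℕ} (hF : PN F) :
    PN (fun φ => h (F φ)) := by
  obtain ⟨g, a, b⟩ := hF
  exact ⟨fun n => h (g n), hh.comp a, fun φ => by simp only [b]⟩

theorem PN.pair {F G : Fm → ℕ} (hF : PN F) (hG : PN G) :
    PN (fun φ => Nat.pair (F φ) (G φ)) := by
  obtain ⟨g, a, b⟩ := hF
  obtain ⟨g', a', b'⟩ := hG
  exact ⟨fun n => Nat.pair (g n) (g' n), prim_pair a a', fun φ => by simp only [b, b']⟩

theorem PN.rename {F : Fm → Fm} (hF : PN (fun φ => (F φ).code)) (a b c : ℕ) :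
    PN (fun φ => ((F φ).rename (rn a b c)).code) := by
  obtain ⟨r, h1, h2⟩ := exists_rF (prim_rn a b c)
  have := PN.comp h1 hF
  simpa only [h2] using this

theorem PN.not {F : Fm → Fm} (hF : PN (fun φ => (F φ).code)) :
    PN (fun φ => (Fm.not (F φ)).code) := (PN.const 3).pair hF

theorem PN.and {F G : Fm → Fm} (hF : PN (fun φ => (F φ).code)) (hG : PN (fun φ => (G φ).code)) :
    PN (fun φ => (Fm.and (F φ) (G φ)).code) := (PN.const 4).pair (hF.pair hG)

theorem PN.ball {T : Fm → Tm} {G : Fm → Fm} (hT : PN (fun φ => (T φ).code))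
    (hG : PN (fun φ => (G φ).code)) :
    PN (fun φ => (Fm.ball (T φ) (G φ)).code) := (PN.const 5).pair (hT.pair hG)

theorem PN.lt {T U : Fm → Tm} (hT : PN (fun φ => (T φ).code)) (hU : PN (fun φ => (U φ).code)) :
    PN (fun φ => (Fm.lt (T φ) (U φ)).code) := (PN.const 1).pair (hT.pair hU)

theorem PN.imp {F G : Fm → Fm} (hF : PN (fun φ => (F φ).code)) (hG : PN (fun φ => (G φ).code)) :
    PN (fun φ => (Fm.imp (F φ) (G φ)).code) := (hF.and hG.not).not

theorem PN.bex {T : Fm → Tm} {G : Fm → Fm} (hT : PN (fun φ => (T φ).code))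
    (hG : PN (fun φ => (G φ).code)) :
    PN (fun φ => (Fm.bex (T φ) (G φ)).code) := (hT.ball hG.not).not

theorem PN.add {T U : Fm → Tm} (hT : PN (fun φ => (T φ).code)) (hU : PN (fun φ => (U φ).code)) :
    PN (fun φ => (Tm.add (T φ) (U φ)).code) := (PN.const 3).pair (hT.pair hU)

theorem PN.mul {T U : Fm → Tm} (hT : PN (fun φ => (T φ).code)) (hU : PN (fun φ => (U φ).code)) :
    PN (fun φ => (Tm.mul (T φ) (U φ)).code) := (PN.const 4).pair (hT.pair hU)

theorem pn_AxF (E : Fm) : PN (fun φ => (AxF E φ).code) := by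
  have hl : PN (fun φ => (chiF φ).code) :=
    (PN.const _).ball ((PN.self.rename 0 2 4).imp ((PN.const _).ball
      ((PN.const _).bex (PN.self.rename 0 1 6))))
  have hc : PN (fun φ => (num (PP (ww ((chiF φ).code + 1)))).code) :=
    PN.comp (prim_num.comp (prim_PP.comp (prim_ww.comp succ))) hl
  have hψ : PN (fun φ => (psiF (chiF φ).code).code) := PN.comp prim_psiF hl
  have hH : PN (fun φ => (HF (PP (ww ((chiF φ).code + 1))) (chiF φ).code).code) :=
    (PN.const _).and ((hc.lt (PN.const _)).and ((PN.const _).and ((PN.const _).and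
      (PN.comp prim_allLt hl))))
  have hw : ∀ (t : Tm) (i : ℕ), PN (fun φ =>
      (noWall (Tm.add (powT t (kk (chiF φ).code)) Tm.one) i).code) := fun t i =>
    ((PN.comp ((prim_powT t).comp prim_kk) hl).add (PN.const _)).ball (PN.const _)
  have hz : PN (fun φ => (Tm.add (Tm.add (Tm.add (Tm.add (num (PP (ww ((chiF φ).code + 1))))
      (Tm.var 0)) (Tm.var 1)) (sumT (chiF φ).code)) (num 2)).code) :=
    (((hc.add (PN.const _)).add (PN.const _)).add (PN.comp prim_sumT hl)).add (PN.const _)
  refine (PN.const _).and (PN.and ?_ (PN.and ?_ ?_))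
  · exact ((((PN.const _).mul hz).mul hz).add (PN.const _)).bex hH
  · exact hH.imp ((hw _ _).imp ((PN.const _).imp ((PN.const _).bex (hψ.rename 1 0 3))))
  · exact (hH.rename 2 3 4).imp ((hw _ _).imp ((PN.const _).imp ((hψ.rename 2 1 4).imp
      ((PN.self.rename 0 1 5).imp ((PN.const _).ball ((PN.const _).bex
        (PN.self.rename 0 1 7)))))))

end Pool.Agent.Lib.MP_646b81
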