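import Mathlib

/-! Independent biased coins on a finite set, as weighted sums over subsets. -/

namespace Pool.Agent.Lib.MP_646b81

open Classical Finset

variable {ι : Type}

noncomputable def wt (U : Finset ι) (q : ι → ℝ) (Z : Finset ι) : ℝ :=
  ∏ i ∈ U, if i ∈ Z then q i else 1 - q i

noncomputable def Pr (U : Finset ι) (q : ι → ℝ) (E : Finset ι → Prop) : ℝ :=
  ∑ Z ∈ U.powerset, if E Z then wt U q Z else 0

theorem sum_prod_ite (U : Finset ι) (a b : ι → ℝ) :
    ∑ Z ∈ U.powerset, ∏ i ∈ U, (if i ∈ Z then a i else b i) = ∏ i ∈ U, (a i + b i) := by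
  rw [Finset.prod_add]
  apply Finset.sum_congr rfl
  intro Z hZ
  have hZ' : Z ⊆ U := Finset.mem_powerset.1 hZ
  rw [Finset.prod_ite]
  congr 1
  · apply Finset.prod_congr _ (fun _ _ => rfl)
    ext i
    simp only [Finset.mem_filter]
    exact ⟨fun h => h.2, fun h => ⟨hZ' h, h⟩⟩
  · apply Finset.prod_congr _ (fun _ _ => rfl)
    ext i
    simp [Finset.mem_filter, Finset.mem_sdiff]

theorem sum_wt (U : Finset ι) (q : ι → ℝ) : ∑ Z ∈ U.powerset, wt U q Z = 1 := by
  unfold wt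
  rw [sum_prod_ite]
  simp

variable {U : Finset ι} {q : ι → ℝ}

theorem wt_nonneg (hq : ∀ i, 0 ≤ q i ∧ q i ≤ 1) (Z : Finset ι) : 0 ≤ wt U q Z := by
  unfold wt
  apply Finset.prod_nonneg
  intro i _
  split_ifs
  · exact (hq i).1
  · linarith [(hq i).2]

theorem Pr_mono (hq : ∀ i, 0 ≤ q i ∧ q i ≤ 1) {E F : Finset ι → Prop}
    (h : ∀ Z, Z ⊆ U → E Z → F Z) : Pr U q E ≤ Pr U q F := by
  unfold Pr
  apply Finset.sum_le_sum
  intro Z hZ
  by_cases hE : E Z
  · simp [hE, h Z (Finset.mem_powerset.1 hZ) hE]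
  · simp only [hE, if_false]
    split_ifs
    · exact wt_nonneg hq Z
    · exact le_rfl

theorem Pr_nonneg (hq : ∀ i, 0 ≤ q i ∧ q i ≤ 1) (E : Finset ι → Prop) : 0 ≤ Pr U q E := by
  unfold Pr
  apply Finset.sum_nonneg
  intro Z _
  split_ifs
  · exact wt_nonneg hq Z
  · exact le_rfl

theorem Pr_true : Pr U q (fun _ => True) = 1 := by
  unfold Pr
  simp [sum_wt]

theorem Pr_false : Pr U q (fun _ => False) = 0 := by
  unfold Pr
  simp

theorem Pr_le_one (hq : ∀ i, 0 ≤ q i ∧ q i ≤ 1) (E : Finset ι → Prop) : Pr U q E ≤ 1 := by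
  rw [← Pr_true (U := U) (q := q)]
  exact Pr_mono hq (fun _ _ _ => trivial)

theorem Pr_split (E F : Finset ι → Prop) :
    Pr U q E = Pr U q (fun Z => E Z ∧ F Z) + Pr U q (fun Z => E Z ∧ ¬F Z) := by
  unfold Pr
  rw [← Finset.sum_add_distrib]
  apply Finset.sum_congr rfl
  intro Z _
  by_cases hE : E Z <;> by_cases hF : F Z <;> simp [hE, hF]

theorem Pr_or (hq : ∀ i, 0 ≤ q i ∧ q i ≤ 1) (E F : Finset ι → Prop) :
    Pr U q (fun Z => E Z ∨ F Z) ≤ Pr U q E + Pr U q F := by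
  rw [Pr_split (fun Z => E Z ∨ F Z) E]
  apply add_le_add
  · exact Pr_mono hq (fun _ _ h => h.2)
  · exact Pr_mono hq (fun _ _ h => h.1.resolve_left h.2)

theorem Pr_exists (hq : ∀ i, 0 ≤ q i ∧ q i ≤ 1) {α : Type} (s : Finset α)
    (E : α → Finset ι → Prop) :
    Pr U q (fun Z => ∃ a ∈ s, E a Z) ≤ ∑ a ∈ s, Pr U q (E a) := by
  induction s using Finset.induction_on with
  | empty =>
    simp only [Finset.notMem_empty, false_and, exists_false, Finset.sum_empty]
    exact le_of_eq Pr_false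
  | insert a s ha ih =>
    rw [Finset.sum_insert ha]
    refine le_trans (Pr_mono hq (F := fun Z => E a Z ∨ ∃ b ∈ s, E b Z) ?_) ?_
    · rintro Z _ ⟨b, hb, hE⟩
      rcases Finset.mem_insert.1 hb with rfl | hb
      · exact Or.inl hE
      · exact Or.inr ⟨b, hb, hE⟩
    · exact le_trans (Pr_or hq _ _) (by linarith)

theorem Pr_exists_list (hq : ∀ i, 0 ≤ q i ∧ q i ≤ 1) {α : Type} (s : List α)
    (E : α → Finset ι → Prop) (c : ℝ) (h : ∀ a ∈ s, Pr U q (E a) ≤ c) :
    Pr U q (fun Z => ∃ a ∈ s, E a Z) ≤ s.length * c := by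
  induction s with
  | nil =>
    simp only [List.not_mem_nil, false_and, exists_false, List.length_nil]
    simp [Pr_false]
  | cons a s ih =>
    refine le_trans (Pr_mono hq (F := fun Z => E a Z ∨ ∃ b ∈ s, E b Z) ?_) ?_
    · rintro Z _ ⟨b, hb, hE⟩
      rcases List.mem_cons.1 hb with rfl | hb
      · exact Or.inl hE
      · exact Or.inr ⟨b, hb, hE⟩
    · have h1 := h a (by simp)
      have h2 := ih (fun b hb => h b (by simp [hb]))
      refine le_trans (Pr_or hq _ _) ?_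
      simp only [List.length_cons]
      push_cast
      linarith

theorem exists_of_Pr_lt_one {E : Finset ι → Prop} (h : Pr U q E < 1) :
    ∃ Z, Z ⊆ U ∧ ¬E Z := by
  by_contra hc
  push Not at hc
  have : Pr U q E = 1 := by
    rw [← sum_wt U q]
    unfold Pr
    apply Finset.sum_congr rfl
    intro Z hZ
    simp [hc Z (Finset.mem_powerset.1 hZ)]
  linarith

/-- take the coins in `P` from `Z`, the others from `Z'` -/
noncomputable def mix (P : ι → Prop) (Z Z' : Finset ι) : Finset ι :=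
  Z.filter P ∪ Z'.filter (fun i => ¬P i)

theorem mem_mix {P : ι → Prop} {Z Z' : Finset ι} {i : ι} :
    i ∈ mix P Z Z' ↔ if P i then i ∈ Z else i ∈ Z' := by
  unfold mix
  by_cases h : P i <;> simp [h]

theorem mix_subset {P : ι → Prop} {Z Z' : Finset ι} (h : Z ⊆ U) (h' : Z' ⊆ U) :
    mix P Z Z' ⊆ U := by
  intro i hi
  rw [mem_mix] at hi
  split_ifs at hi
  · exact h hi
  · exact h' hi

theorem mix_mix (P : ι → Prop) (Z Z' : Finset ι) : mix P (mix P Z Z') (mix P Z' Z) = Z := by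
  ext i
  by_cases h : P i <;> simp [mem_mix, h]

theorem wt_mix (P : ι → Prop) (Z Z' : Finset ι) :
    wt U q (mix P Z Z') * wt U q (mix P Z' Z) = wt U q Z * wt U q Z' := by
  unfold wt
  rw [← Finset.prod_mul_distrib, ← Finset.prod_mul_distrib]
  apply Finset.prod_congr rfl
  intro i _
  by_cases h : P i
  · simp [mem_mix, h]
  · simp only [mem_mix, h, if_false]
    ring

theorem Pr_mix (P : ι → Prop) (E : Finset ι → Prop) :
    Pr U q E = ∑ Z ∈ U.powerset, wt U q Z * Pr U q (fun Z' => E (mix P Z Z')) := by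
  have h1 : Pr U q E = ∑ p ∈ U.powerset ×ˢ U.powerset,
      (if E p.1 then wt U q p.1 * wt U q p.2 else 0) := by
    rw [Finset.sum_product]
    unfold Pr
    apply Finset.sum_congr rfl
    intro Z _
    by_cases hE : E Z
    · simp only [hE, if_true]
      rw [← Finset.mul_sum, sum_wt, mul_one]
    · simp [hE]
  have h2 : ∑ Z ∈ U.powerset, wt U q Z * Pr U q (fun Z' => E (mix P Z Z')) =
      ∑ p ∈ U.powerset ×ˢ U.powerset,
      (if E (mix P p.1 p.2) then wt U q p.1 * wt U q p.2 else 0) := by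
    rw [Finset.sum_product]
    apply Finset.sum_congr rfl
    intro Z _
    unfold Pr
    rw [Finset.mul_sum]
    apply Finset.sum_congr rfl
    intro Z' _
    split_ifs <;> simp
  rw [h1, h2]
  symm
  apply Finset.sum_nbij' (fun p => (mix P p.1 p.2, mix P p.2 p.1))
    (fun p => (mix P p.1 p.2, mix P p.2 p.1))
  · intro p hp
    simp only [Finset.mem_product, Finset.mem_powerset] at hp ⊢
    exact ⟨mix_subset hp.1 hp.2, mix_subset hp.2 hp.1⟩
  · intro p hp
    simp only [Finset.mem_product, Finset.mem_powerset] at hp ⊢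
    exact ⟨mix_subset hp.1 hp.2, mix_subset hp.2 hp.1⟩
  · intro p _
    simp [mix_mix]
  · intro p _
    simp [mix_mix]
  · intro p _
    simp only [wt_mix]

theorem wt_sdiff (hq : ∀ i, 0 ≤ q i ∧ q i ≤ 1) {r : ℝ} (T Z : Finset ι)
    (hT : T ⊆ Z) (hZ : Z ⊆ U) (hrT : ∀ i ∈ T, q i ≤ r * (1 - q i)) :
    wt U q Z ≤ r ^ T.card * wt U q (Z \ T) := by
  have h1 : r ^ T.card = ∏ i ∈ U, (if i ∈ T then r else 1) := by
    rw [Finset.prod_ite, Finset.prod_const_one, mul_one, Finset.prod_const]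
    congr 1
    congr 1
    ext i
    simp only [Finset.mem_filter]
    exact ⟨fun h => ⟨hZ (hT h), h⟩, fun h => h.2⟩
  rw [h1]
  unfold wt
  rw [← Finset.prod_mul_distrib]
  apply Finset.prod_le_prod
  · intro i _
    split_ifs
    · exact (hq i).1
    · linarith [(hq i).2]
  · intro i _
    by_cases hi : i ∈ T
    · simp only [hT hi, if_true, hi, Finset.mem_sdiff, not_true, and_false, if_false]
      exact hrT i hi
    · simp [hi]

theorem Pr_erase (hq : ∀ i, 0 ≤ q i ∧ q i ≤ 1) {r : ℝ} (hr : 0 ≤ r) (T : Finset ι)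
    (hrT : ∀ i ∈ T, q i ≤ r * (1 - q i)) {E F : Finset ι → Prop}
    (h : ∀ Z, Z ⊆ U → E Z → T ⊆ Z ∧ F (Z \ T)) : Pr U q E ≤ r ^ T.card * Pr U q F := by
  unfold Pr
  rw [← Finset.sum_filter, ← Finset.sum_filter, Finset.mul_sum]
  set A := U.powerset.filter E with hA
  have hinj : Set.InjOn (fun Z => Z \ T) (A : Set (Finset ι)) := by
    intro Z hZ Z' hZ' e
    simp only [hA, Finset.coe_filter, Finset.mem_powerset, Set.mem_ofPred_eq] at hZ hZ'
    have a := (h Z hZ.1 hZ.2).1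
    have b := (h Z' hZ'.1 hZ'.2).1
    have e' : Z \ T = Z' \ T := e
    rw [← Finset.sdiff_union_of_subset a, ← Finset.sdiff_union_of_subset b, e']
  calc ∑ Z ∈ A, wt U q Z ≤ ∑ Z ∈ A, r ^ T.card * wt U q (Z \ T) := by
        apply Finset.sum_le_sum
        intro Z hZ
        simp only [hA, Finset.mem_filter, Finset.mem_powerset] at hZ
        exact wt_sdiff hq T Z (h Z hZ.1 hZ.2).1 hZ.1 hrT
    _ = ∑ Z' ∈ A.image (fun Z => Z \ T), r ^ T.card * wt U q Z' := by
        rw [Finset.sum_image hinj]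
    _ ≤ _ := by
        apply Finset.sum_le_sum_of_subset_of_nonneg
        · intro Z' hZ'
          obtain ⟨Z, hZ, rfl⟩ := Finset.mem_image.1 hZ'
          simp only [hA, Finset.mem_filter, Finset.mem_powerset] at hZ ⊢
          exact ⟨Finset.sdiff_subset.trans hZ.1, (h Z hZ.1 hZ.2).2⟩
        · intro Z _ _
          exact mul_nonneg (pow_nonneg hr _) (wt_nonneg hq Z)

theorem Pr_erase' (hq : ∀ i, 0 ≤ q i ∧ q i ≤ 1) {r : ℝ} (hr : 0 ≤ r) (T : Finset ι)
    (hrT : ∀ i ∈ T, q i ≤ r * (1 - q i)) {E F : Finset ι → Prop}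
    (h : ∀ Z Z', (∀ i, i ∈ Z' ↔ i ∈ Z ∧ i ∉ T) → E Z → T ⊆ Z ∧ F Z') :
    Pr U q E ≤ r ^ T.card * Pr U q F :=
  Pr_erase hq hr T hrT (fun Z _ hE => h Z _ (fun _ => Finset.mem_sdiff) hE)

theorem Pr_avoid (T : Finset ι) (hT : T ⊆ U) :
    Pr U q (fun Z => ∀ i ∈ T, i ∉ Z) = ∏ i ∈ T, (1 - q i) := by
  have h1 : Pr U q (fun Z => ∀ i ∈ T, i ∉ Z) = ∑ Z ∈ U.powerset,
      ∏ i ∈ U, (if i ∈ Z then (if i ∈ T then 0 else q i) else 1 - q i) := by
    unfold Pr
    apply Finset.sum_congr rfl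
    intro Z _
    by_cases h : ∀ i ∈ T, i ∉ Z
    · rw [if_pos h]
      unfold wt
      apply Finset.prod_congr rfl
      intro i _
      by_cases hi : i ∈ Z
      · have : i ∉ T := fun h' => h i h' hi
        simp [hi, this]
      · simp [hi]
    · rw [if_neg h]
      push Not at h
      obtain ⟨i, hi, hiZ⟩ := h
      symm
      apply Finset.prod_eq_zero (hT hi)
      simp [hi, hiZ]
  rw [h1, sum_prod_ite]
  have h2 : ∀ i ∈ U, ((if i ∈ T then 0 else q i) + (1 - q i)) =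
      (if i ∈ T then 1 - q i else 1) := by
    intro i _
    split_ifs <;> ring
  rw [Finset.prod_congr rfl h2, Finset.prod_ite, Finset.prod_const_one, mul_one]
  apply Finset.prod_congr _ (fun _ _ => rfl)
  ext i
  simp only [Finset.mem_filter]
  exact ⟨fun h => h.2, fun h => ⟨hT h, h⟩⟩

theorem one_add_pow_le {x : ℝ} (hx : 0 ≤ x) (n : ℕ) : (1 + x) ^ n * (1 - n * x) ≤ 1 := by
  induction n with
  | zero => simp
  | succ n ih =>
    have h0 : 0 ≤ (1 + x) ^ n := by positivity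
    have : (1 + x) * (1 - (n + 1 : ℕ) * x) ≤ 1 - n * x := by
      push_cast
      have : 0 ≤ (n + 1) * x * x := by positivity
      nlinarith
    calc (1 + x) ^ (n + 1) * (1 - (n + 1 : ℕ) * x)
        = (1 + x) ^ n * ((1 + x) * (1 - (n + 1 : ℕ) * x)) := by ring
      _ ≤ (1 + x) ^ n * (1 - n * x) := mul_le_mul_of_nonneg_left this h0
      _ ≤ 1 := ih

end Pool.Agent.Lib.MP_646b81
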