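import Mathlib

/-! Shallow decision trees, as a predicate on Boolean functions. -/

namespace Pool.Agent.Lib.MP_646b81

open Classical

/-- `Sh d f`: the Boolean function `f` is computed by a decision tree of depth at most `d`. -/
inductive Sh {V : Type} : ℕ → ((V → Bool) → Bool) → Prop
  | const (d : ℕ) (c : Bool) : Sh d (fun _ => c)
  | node (d : ℕ) (v : V) (f0 f1 : (V → Bool) → Bool) :
      Sh d f0 → Sh d f1 → Sh (d + 1) (fun x => if x v = true then f1 x else f0 x)

variable {V V' : Type}

theorem Sh.congr {d : ℕ} {f g : (V → Bool) → Bool} (h : Sh d f) (e : ∀ x, f x = g x) :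
    Sh d g := by
  have : f = g := funext e
  exact this ▸ h

theorem Sh.succ {d : ℕ} {f : (V → Bool) → Bool} (h : Sh d f) : Sh (d + 1) f := by
  induction h with
  | const d c => exact Sh.const _ _
  | node d v f0 f1 _ _ ih0 ih1 => exact Sh.node _ v f0 f1 ih0 ih1

theorem Sh.mono {d e : ℕ} {f : (V → Bool) → Bool} (h : Sh d f) (hde : d ≤ e) : Sh e f := by
  induction hde with
  | refl => exact h
  | step _ ih => exact ih.succ

theorem Sh.not {d : ℕ} {f : (V → Bool) → Bool} (h : Sh d f) : Sh d (fun x => !f x) := by
  induction h with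
  | const d c => exact Sh.const _ _
  | node d v f0 f1 _ _ ih0 ih1 =>
    refine (Sh.node d v _ _ ih0 ih1).congr ?_
    intro x
    by_cases hx : x v = true <;> simp [hx]

theorem Sh.var (v : V) : Sh 1 (fun x : V → Bool => x v) := by
  refine (Sh.node 0 v _ _ (Sh.const 0 false) (Sh.const 0 true)).congr ?_
  intro x
  by_cases hx : x v = true <;> simp [hx]

/-- grafting: an if-then-else on a shallow test -/
theorem Sh.ite {e d : ℕ} {g f0 f1 : (V → Bool) → Bool} (hg : Sh e g) (h0 : Sh d f0)
    (h1 : Sh d f1) : Sh (d + e) (fun x => if g x = true then f1 x else f0 x) := by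
  induction hg with
  | const e c =>
    cases c
    · exact (h0.mono (Nat.le_add_right _ _)).congr (by intro x; simp)
    · exact (h1.mono (Nat.le_add_right _ _)).congr (by intro x; simp)
  | node e v g0 g1 _ _ ih0 ih1 =>
    refine (Sh.node (d + e) v _ _ ih0 ih1).congr ?_
    intro x
    by_cases hx : x v = true <;> simp [hx]

theorem Sh.comp {d e : ℕ} {f : (V → Bool) → Bool} (hf : Sh d f)
    (A : (V' → Bool) → V → Bool) (hA : ∀ v, Sh e (fun y => A y v)) :
    Sh (d * e) (fun y => f (A y)) := by
  induction hf with
  | const d c => exact Sh.const _ _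
  | node d v f0 f1 _ _ ih0 ih1 =>
    have := Sh.ite (hA v) ih0 ih1
    rw [Nat.succ_mul]
    exact this

theorem Sh.comp_one {d : ℕ} {f : (V → Bool) → Bool} (hf : Sh d f)
    (A : (V' → Bool) → V → Bool) (hA : ∀ v, Sh 1 (fun y => A y v)) :
    Sh d (fun y => f (A y)) := by
  have := hf.comp A hA
  rwa [Nat.mul_one] at this

theorem sh_update (v : V) (c : Bool) (u : V) :
    Sh 1 (fun x : V → Bool => Function.update x v c u) := by
  by_cases h : u = v
  · subst h
    exact (Sh.const 1 c).congr (by intro x; simp)
  · exact (Sh.var u).congr (by intro x; simp [Function.update_of_ne h])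

theorem Sh.zero_const {f : (V → Bool) → Bool} (h : Sh 0 f) : ∃ c, ∀ x, f x = c := by
  generalize hd : (0 : ℕ) = d at h
  cases h with
  | const d c => exact ⟨c, fun _ => rfl⟩
  | node d v f0 f1 _ _ => omega

theorem Sh.split {d : ℕ} {f : (V → Bool) → Bool} (h : Sh (d + 1) f) :
    (∃ c, ∀ x, f x = c) ∨ ∃ v, ∀ c, Sh d (fun x => f (Function.update x v c)) := by
  generalize hd : d + 1 = e at h
  cases h with
  | const d c => exact Or.inl ⟨c, fun _ => rfl⟩
  | node d' v f0 f1 h0 h1 =>
    have hdd : d = d' := by omega
    subst hdd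
    refine Or.inr ⟨v, fun c => ?_⟩
    cases c
    · exact (h0.comp_one _ (sh_update v false)).congr (by intro x; simp)
    · exact (h1.comp_one _ (sh_update v true)).congr (by intro x; simp)

/-- override the coordinates in `β` by `π` -/
noncomputable def ovr (β : Finset V) (π y : V → Bool) : V → Bool :=
  fun w => if w ∈ β then π w else y w

theorem sh_of_ovr (β : Finset V) (s : ℕ) :
    ∀ f : (V → Bool) → Bool, (∀ π, Sh s (fun y => f (ovr β π y))) → Sh (s + β.card) f := by
  induction β using Finset.induction_on with
  | empty =>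
    intro f h
    exact (h (fun _ => true)).congr (by intro x; congr 1)
  | insert w β hw ih =>
    intro f h
    have key : ∀ c, Sh (s + β.card) (fun y => f (Function.update y w c)) := by
      intro c
      apply ih
      intro π
      refine (h (Function.update π w c)).congr ?_
      intro y
      congr 1
      funext u
      by_cases hu : u = w
      · subst hu; simp [ovr]
      · simp [ovr, hu]
    rw [Finset.card_insert_of_notMem hw, ← Nat.add_assoc]
    refine (Sh.node _ w _ _ (key false) (key true)).congr ?_
    intro x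
    by_cases hx : x w = true
    · simp only [hx, if_true]
      congr 1
      rw [← hx]; simp
    · simp only [hx]
      have hx' : x w = false := by simpa using hx
      simp only [Bool.false_eq_true, if_false]
      congr 1
      rw [← hx']; simp

/-- A term is a list of literals, a DNF a list of terms. -/
def satT (C : List (V × Bool)) (x : V → Bool) : Prop := ∀ l ∈ C, x l.1 = l.2

noncomputable def evalD (Φ : List (List (V × Bool))) (x : V → Bool) : Bool :=
  decide (∃ C ∈ Φ, satT C x)

theorem Sh.dnf {d : ℕ} {f : (V → Bool) → Bool} (h : Sh d f) :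
    ∃ Φ : List (List (V × Bool)), (∀ C ∈ Φ, C.length ≤ d) ∧ ∀ x, f x = evalD Φ x := by
  induction h with
  | const d c =>
    cases c
    · exact ⟨[], by simp, by simp [evalD]⟩
    · exact ⟨[[]], by simp, by simp [evalD, satT]⟩
  | node d v f0 f1 _ _ ih0 ih1 =>
    obtain ⟨Φ0, a0, b0⟩ := ih0
    obtain ⟨Φ1, a1, b1⟩ := ih1
    refine ⟨Φ0.map (fun C => (v, false) :: C) ++ Φ1.map (fun C => (v, true) :: C), ?_, ?_⟩
    · intro C hC
      simp only [List.mem_append, List.mem_map] at hC
      rcases hC with ⟨C', h', rfl⟩ | ⟨C', h', rfl⟩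
      · simpa using a0 _ h'
      · simpa using a1 _ h'
    · intro x
      by_cases hx : x v = true
      · simp only [hx, if_true, b1, evalD]
        congr 1
        apply propext
        constructor
        · rintro ⟨C, hC, hs⟩
          refine ⟨(v, true) :: C, by simp [hC], ?_⟩
          intro l hl
          rcases List.mem_cons.1 hl with rfl | hl
          · exact hx
          · exact hs l hl
        · rintro ⟨C, hC, hs⟩
          simp only [List.mem_append, List.mem_map] at hC
          rcases hC with ⟨C', h', rfl⟩ | ⟨C', h', rfl⟩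
          · have := hs (v, false) (by simp)
            simp [hx] at this
          · exact ⟨C', h', fun l hl => hs l (by simp [hl])⟩
      · have hx' : x v = false := by simpa using hx
        simp only [hx', Bool.false_eq_true, if_false, b0, evalD]
        congr 1
        apply propext
        constructor
        · rintro ⟨C, hC, hs⟩
          refine ⟨(v, false) :: C, by simp [hC], ?_⟩
          intro l hl
          rcases List.mem_cons.1 hl with rfl | hl
          · exact hx'
          · exact hs l hl
        · rintro ⟨C, hC, hs⟩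
          simp only [List.mem_append, List.mem_map] at hC
          rcases hC with ⟨C', h', rfl⟩ | ⟨C', h', rfl⟩
          · exact ⟨C', h', fun l hl => hs l (by simp [hl])⟩
          · have := hs (v, true) (by simp)
            simp [hx'] at this

/-- an OR of shallow functions is a narrow DNF -/
theorem dnf_of_any {d : ℕ} (L : List ((V → Bool) → Bool)) (h : ∀ g ∈ L, Sh d g) :
    ∃ Φ : List (List (V × Bool)), (∀ C ∈ Φ, C.length ≤ d) ∧
      ∀ x, (L.any (fun g => g x)) = evalD Φ x := by
  induction L with
  | nil => exact ⟨[], by simp, by simp [evalD]⟩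
  | cons g L ih =>
    obtain ⟨Φ, a, b⟩ := ih (fun g' hg' => h g' (by simp [hg']))
    obtain ⟨Ψ, a', b'⟩ := (h g (by simp)).dnf
    refine ⟨Ψ ++ Φ, ?_, ?_⟩
    · intro C hC
      rcases List.mem_append.1 hC with hC | hC
      · exact a' C hC
      · exact a C hC
    · intro x
      rw [List.any_cons, b, b']
      simp only [evalD, List.mem_append, ← Bool.decide_or]
      congr 1
      apply propext
      constructor
      · rintro (⟨C, h1, h2⟩ | ⟨C, h1, h2⟩)
        · exact ⟨C, Or.inl h1, h2⟩
        · exact ⟨C, Or.inr h1, h2⟩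
      · rintro ⟨C, h1 | h1, h2⟩
        · exact Or.inl ⟨C, h1, h2⟩
        · exact Or.inr ⟨C, h1, h2⟩

/-- `Cls M d f`: `f` is computed by a NOR-circuit of depth `d` and fan-in at most `M`
whose inputs are literals or constants. -/
def Cls (M : ℕ) : ℕ → ((V → Bool) → Bool) → Prop
  | 0, f => Sh 1 f
  | d + 1, f => ∃ L : List ((V → Bool) → Bool), L.length ≤ M ∧ (∀ g ∈ L, Cls M d g) ∧
      ∀ x, f x = !(L.any (fun g => g x))

theorem Cls.succ {M : ℕ} (hM : 1 ≤ M) :
    ∀ {d : ℕ} {f : (V → Bool) → Bool}, Cls M d f → Cls M (d + 1) f := by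
  intro d
  induction d with
  | zero =>
    intro f h
    refine ⟨[fun x => !f x], by simpa using hM, ?_, by intro x; simp⟩
    intro g hg
    rw [List.mem_singleton.1 hg]
    exact Sh.not h
  | succ d ih =>
    rintro f ⟨L, h1, h2, h3⟩
    exact ⟨L, h1, fun g hg => ih (h2 g hg), h3⟩

theorem Cls.mono {M : ℕ} (hM : 1 ≤ M) {d e : ℕ} {f : (V → Bool) → Bool} (h : Cls M d f)
    (hde : d ≤ e) : Cls M e f := by
  induction hde with
  | refl => exact h
  | step _ ih => exact ih.succ hM

theorem Cls.congr {M d : ℕ} {f g : (V → Bool) → Bool} (h : Cls M d f) (e : ∀ x, f x = g x) :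
    Cls M d g := by
  have : f = g := funext e
  exact this ▸ h

theorem Cls.not {M : ℕ} (hM : 1 ≤ M) {d : ℕ} {f : (V → Bool) → Bool} (h : Cls M d f) :
    Cls M (d + 1) (fun x => !f x) := by
  refine ⟨[f], by simpa using hM, ?_, by intro x; simp⟩
  intro g hg
  rw [List.mem_singleton.1 hg]
  exact h

theorem cls_children {M d : ℕ} (F : List ((V → Bool) → Bool)) (h : ∀ f ∈ F, Cls M (d + 1) f) :
    ∃ F' : List ((V → Bool) → Bool), F'.length ≤ F.length * M ∧ (∀ g ∈ F', Cls M d g) ∧
      ∀ f ∈ F, ∃ L : List ((V → Bool) → Bool), (∀ g ∈ L, g ∈ F') ∧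
        ∀ x, f x = !(L.any (fun g => g x)) := by
  induction F with
  | nil => exact ⟨[], by simp, by simp, by simp⟩
  | cons f F ih =>
    obtain ⟨F', a, b, c⟩ := ih (fun g hg => h g (by simp [hg]))
    obtain ⟨L, h1, h2, h3⟩ := h f (by simp)
    refine ⟨L ++ F', ?_, ?_, ?_⟩
    · simp only [List.length_append, List.length_cons, Nat.succ_mul]
      omega
    · intro g hg
      rcases List.mem_append.1 hg with hg | hg
      · exact h2 g hg
      · exact b g hg
    · intro f' hf'
      rcases List.mem_cons.1 hf' with rfl | hf'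
      · exact ⟨L, fun g hg => List.mem_append.2 (Or.inl hg), h3⟩
      · obtain ⟨L', k1, k2⟩ := c f' hf'
        exact ⟨L', fun g hg => List.mem_append.2 (Or.inr (k1 g hg)), k2⟩

end Pool.Agent.Lib.MP_646b81
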