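import Pool.Agent.Lib.MP_646b81.Shallow
import Pool.Agent.Lib.MP_646b81.Prob

/-! A switching lemma for random block projections. -/

namespace Pool.Agent.Lib.MP_646b81

open Classical Finset

variable {V W : Type}

/-- the projection determined by the coins `Z` -/
noncomputable def proj (γ : V → W) (Z : Finset (V ⊕ W)) (y : W → Bool) (v : V) : Bool :=
  if Sum.inl v ∈ Z then (if Sum.inr (γ v) ∈ Z then !(y (γ v)) else false) else true

noncomputable def pv (γ : V → W) (Z : Finset (V ⊕ W)) (v : V) : Option Bool :=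
  if Sum.inl v ∈ Z then (if Sum.inr (γ v) ∈ Z then none else some false) else some true

variable {γ : V → W}

theorem proj_of_pv {Z : Finset (V ⊕ W)} {v : V} {c : Bool} (h : pv γ Z v = some c)
    (y : W → Bool) : proj γ Z y v = c := by
  unfold pv at h
  unfold proj
  split_ifs at h ⊢ <;> simp_all

theorem pv_none {Z : Finset (V ⊕ W)} {v : V} :
    pv γ Z v = none ↔ Sum.inl v ∈ Z ∧ Sum.inr (γ v) ∈ Z := by
  unfold pv
  split_ifs <;> simp_all

def ExtZ (γ : V → W) (Z Z' : Finset (V ⊕ W)) : Prop :=
  ∀ v c, pv γ Z v = some c → pv γ Z' v = some c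

def ClosedE (γ : V → W) (E : Finset (V ⊕ W) → Prop) : Prop :=
  ∀ Z Z', E Z → ExtZ γ Z Z' → E Z'

def fals (γ : V → W) (C : List (V × Bool)) (Z : Finset (V ⊕ W)) : Prop :=
  ∃ l ∈ C, pv γ Z l.1 = some (!l.2)

noncomputable def stars (γ : V → W) (C : List (V × Bool)) (Z : Finset (V ⊕ W)) : Finset W :=
  (C.toFinset.filter (fun l => pv γ Z l.1 = none)).image (fun l => γ l.1)

theorem mem_stars {C : List (V × Bool)} {Z : Finset (V ⊕ W)} {w : W} :
    w ∈ stars γ C Z ↔ ∃ l ∈ C, pv γ Z l.1 = none ∧ γ l.1 = w := by
  unfold stars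
  simp only [Finset.mem_image, Finset.mem_filter, List.mem_toFinset]
  constructor
  · rintro ⟨l, ⟨h1, h2⟩, h3⟩
    exact ⟨l, h1, h2, h3⟩
  · rintro ⟨l, h1, h2, h3⟩
    exact ⟨l, ⟨h1, h2⟩, h3⟩

theorem sum_pow_card {α : Type} (s : Finset α) (r : ℝ) :
    ∑ P ∈ s.powerset, r ^ P.card = (1 + r) ^ s.card := by
  have := Finset.prod_one_add (s := s) (f := fun _ => r)
  simp only [Finset.prod_const] at this
  exact this.symm

variable {U : Finset (V ⊕ W)} {q : V ⊕ W → ℝ}

theorem key_count (hq : ∀ i, 0 ≤ q i ∧ q i ≤ 1) {r : ℝ} (hr : 0 ≤ r)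
    (hqr : ∀ i, q i ≤ r * (1 - q i)) (C : List (V × Bool)) {t : ℕ} (hC : C.length ≤ t)
    (hcons : ∀ v, ¬((v, true) ∈ C ∧ (v, false) ∈ C)) {E : Finset (V ⊕ W) → Prop}
    (hE : ClosedE γ E) (β : Finset W) :
    Pr U q (fun Z => E Z ∧ ¬fals γ C Z ∧ stars γ C Z = β) ≤
      r ^ β.card * (1 + r) ^ t * Pr U q (fun Z => E Z ∧ ¬fals γ C Z) := by
  set vars : Finset V := C.toFinset.image Prod.fst with hvars
  have hcard : vars.card ≤ t :=
    le_trans Finset.card_image_le (le_trans (List.toFinset_card_le C) hC)
  let posS : Finset (V ⊕ W) → Finset V := fun Z =>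
    vars.filter (fun v => (v, true) ∈ C ∧ γ v ∈ β ∧ Sum.inl v ∈ Z)
  have h1 : Pr U q (fun Z => E Z ∧ ¬fals γ C Z ∧ stars γ C Z = β) ≤
      ∑ P ∈ vars.powerset, Pr U q
        (fun Z => (E Z ∧ ¬fals γ C Z ∧ stars γ C Z = β) ∧ posS Z = P) := by
    refine le_trans (Pr_mono hq ?_) (Pr_exists hq _ _)
    intro Z _ h
    exact ⟨posS Z, Finset.mem_powerset.2 (Finset.filter_subset _ _), h, rfl⟩
  have h2 : ∀ P ∈ vars.powerset, Pr U q
        (fun Z => (E Z ∧ ¬fals γ C Z ∧ stars γ C Z = β) ∧ posS Z = P) ≤
      r ^ P.card * (r ^ β.card * Pr U q (fun Z => E Z ∧ ¬fals γ C Z)) := by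
    intro P _
    have := Pr_erase' (U := U) hq hr (P.disjSum β) (fun i _ => hqr i)
      (E := fun Z => (E Z ∧ ¬fals γ C Z ∧ stars γ C Z = β) ∧ posS Z = P)
      (F := fun Z => E Z ∧ ¬fals γ C Z) ?_
    · rw [Finset.card_disjSum, pow_add, mul_assoc] at this
      exact this
    · rintro Z Z1 hZ1 ⟨⟨hEZ, hf, hs⟩, hP⟩
      have hβ : ∀ w ∈ β, Sum.inr w ∈ Z := by
        intro w hw
        rw [← hs, mem_stars] at hw
        obtain ⟨l, _, h2, h3⟩ := hw
        rw [← h3]
        exact (pv_none.1 h2).2
      have hPm : ∀ v, v ∈ P ↔ (v, true) ∈ C ∧ γ v ∈ β ∧ Sum.inl v ∈ Z := by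
        intro v
        rw [← hP]
        simp only [posS, Finset.mem_filter, hvars, Finset.mem_image, List.mem_toFinset]
        constructor
        · exact fun h => h.2
        · exact fun h => ⟨⟨(v, true), h.1, rfl⟩, h⟩
      have hext : ExtZ γ Z Z1 := by
        intro v c hv
        unfold pv at hv ⊢
        by_cases a : Sum.inl v ∈ Z
        · by_cases b : Sum.inr (γ v) ∈ Z
          · simp [a, b] at hv
          · have : v ∉ P := fun hv' => b (hβ _ ((hPm v).1 hv').2.1)
            simp only [a, b, if_true, if_false] at hv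
            simp [hZ1, a, b, this, hv]
        · simp only [a, if_false] at hv
          simp [hZ1, a, hv]
      refine ⟨?_, hE Z _ hEZ hext, ?_⟩
      · intro i hi
        rcases i with v | w
        · exact ((hPm v).1 (Finset.inl_mem_disjSum.1 hi)).2.2
        · exact hβ w (Finset.inr_mem_disjSum.1 hi)
      · rintro ⟨l, hl, hfl⟩
        cases hp : pv γ Z l.1 with
        | some c =>
          rw [hext _ _ hp] at hfl
          exact hf ⟨l, hl, by rw [hp]; exact hfl⟩
        | none =>
          have hγ : γ l.1 ∈ β := by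
            rw [← hs, mem_stars]
            exact ⟨l, hl, hp, rfl⟩
          have hz := pv_none.1 hp
          obtain ⟨v, b⟩ := l
          cases b
          · have : v ∉ P := fun hv' => hcons v ⟨((hPm v).1 hv').1, hl⟩
            simp only at hγ hz
            simp [pv, hZ1, hz.1, this, hγ] at hfl
          · have : v ∈ P := (hPm v).2 ⟨hl, hγ, hz.1⟩
            simp [pv, hZ1, this] at hfl
  refine le_trans h1 (le_trans (Finset.sum_le_sum h2) ?_)
  rw [← Finset.sum_mul, sum_pow_card]
  have h3 : (1 + r) ^ vars.card ≤ (1 + r) ^ t := pow_le_pow_right₀ (by linarith) hcard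
  have h4 : 0 ≤ r ^ β.card * Pr U q (fun Z => E Z ∧ ¬fals γ C Z) :=
    mul_nonneg (pow_nonneg hr _) (Pr_nonneg hq _)
  calc _ ≤ (1 + r) ^ t * (r ^ β.card * Pr U q (fun Z => E Z ∧ ¬fals γ C Z)) :=
        mul_le_mul_of_nonneg_right h3 h4
    _ = _ := by ring

noncomputable def restr (γ : V → W) (β : Finset W) (x0 : V → Bool)
    (Φ : List (List (V × Bool))) : List (List (V × Bool)) :=
  Φ.filterMap (fun C => if ∀ l ∈ C, γ l.1 ∈ β → x0 l.1 = l.2 then
    some (C.filter (fun l => decide (γ l.1 ∉ β))) else none)

theorem restr_width {β : Finset W} {x0 : V → Bool} {Φ : List (List (V × Bool))} {t : ℕ}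
    (h : ∀ C ∈ Φ, C.length ≤ t) : ∀ C ∈ restr γ β x0 Φ, C.length ≤ t := by
  intro C hC
  obtain ⟨C', h1, h2⟩ := List.mem_filterMap.1 hC
  split_ifs at h2
  obtain rfl := Option.some.inj h2
  exact le_trans (List.length_filter_le _ _) (h C' h1)

theorem evalD_restr (β : Finset W) (x0 : V → Bool) (Φ : List (List (V × Bool)))
    (x : V → Bool) :
    evalD (restr γ β x0 Φ) x = evalD Φ (fun v => if γ v ∈ β then x0 v else x v) := by
  unfold evalD
  congr 1
  apply propext
  constructor
  · rintro ⟨C, hC, hs⟩
    obtain ⟨C', h1, h2⟩ := List.mem_filterMap.1 hC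
    split_ifs at h2 with h3
    obtain rfl := Option.some.inj h2
    refine ⟨C', h1, fun l hl => ?_⟩
    by_cases hl' : γ l.1 ∈ β
    · simp only [hl', if_true]
      exact h3 l hl hl'
    · simp only [hl', if_false]
      exact hs l (List.mem_filter.2 ⟨hl, by simpa using hl'⟩)
  · rintro ⟨C, hC, hs⟩
    refine ⟨C.filter (fun l => decide (γ l.1 ∉ β)), List.mem_filterMap.2 ⟨C, hC, ?_⟩, ?_⟩
    · rw [if_pos]
      intro l hl hl'
      have := hs l hl
      simpa [hl'] using this
    · intro l hl
      obtain ⟨a, b⟩ := List.mem_filter.1 hl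
      have b' : γ l.1 ∉ β := by simpa using b
      have := hs l a
      simpa [b'] using this

def gateP (γ : V → W) (β : Finset W) : V ⊕ W → Prop
  | Sum.inl v => γ v ∈ β
  | Sum.inr w => w ∈ β

theorem pv_mix (β : Finset W) (Z Z' : Finset (V ⊕ W)) (v : V) :
    pv γ (mix (gateP γ β) Z Z') v = if γ v ∈ β then pv γ Z v else pv γ Z' v := by
  unfold pv
  by_cases h : γ v ∈ β <;> simp [mem_mix, gateP, h]

theorem proj_mix (β : Finset W) (Z Z' : Finset (V ⊕ W)) (π y : W → Bool) (v : V) :
    proj γ (mix (gateP γ β) Z Z') (ovr β π y) v =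
      if γ v ∈ β then proj γ Z π v else proj γ Z' y v := by
  unfold proj
  by_cases h : γ v ∈ β <;> simp [mem_mix, gateP, h, ovr]

def badD (γ : V → W) (Φ : List (List (V × Bool))) (s : ℕ) (Z : Finset (V ⊕ W)) : Prop :=
  ¬Sh s (fun y => evalD Φ (proj γ Z y))

theorem evalD_cons_of_not {C : List (V × Bool)} {Φ : List (List (V × Bool))} {x : V → Bool}
    (h : ¬satT C x) : evalD (C :: Φ) x = evalD Φ x := by
  unfold evalD
  simp [h]

theorem evalD_cons_of_sat {C : List (V × Bool)} {Φ : List (List (V × Bool))} {x : V → Bool}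
    (h : satT C x) : evalD (C :: Φ) x = true := by
  unfold evalD
  simp [h]

theorem bad_step {C : List (V × Bool)} {Φ : List (List (V × Bool))} {β : Finset W}
    {Z0 Z' : Finset (V ⊕ W)} {s : ℕ} (hk : β.card ≤ s)
    (hf : ¬fals γ C (mix (gateP γ β) Z0 Z')) (hs : stars γ C (mix (gateP γ β) Z0 Z') = β)
    (hb : badD γ (C :: Φ) s (mix (gateP γ β) Z0 Z')) :
    ∃ P ∈ β.powerset, badD γ (restr γ β (proj γ Z0 (fun w => decide (w ∈ P))) Φ)
      (s - β.card) Z' := by
  by_contra hc
  push Not at hc
  apply hb
  have e : s = (s - β.card) + β.card := by omega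
  rw [e]
  apply sh_of_ovr
  intro π
  set P := β.filter (fun w => π w = true) with hP
  have hP' := hc P (Finset.mem_powerset.2 (Finset.filter_subset _ _))
  unfold badD at hP'
  push Not at hP'
  have hπ : ∀ y, ovr β π y = ovr β (fun w => decide (w ∈ P)) y := by
    intro y
    funext w
    unfold ovr
    by_cases hw : w ∈ β
    · simp [hw, hP]
    · simp [hw]
  set π' : W → Bool := fun w => decide (w ∈ P) with hπ'
  have hx : ∀ y, proj γ (mix (gateP γ β) Z0 Z') (ovr β π y) =
      fun v => if γ v ∈ β then proj γ Z0 π' v else proj γ Z' y v := by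
    intro y
    funext v
    rw [hπ, proj_mix]
  by_cases hsat : ∀ l ∈ C, γ l.1 ∈ β → proj γ Z0 π' l.1 = l.2
  · refine (Sh.const _ true).congr ?_
    intro y
    symm
    apply evalD_cons_of_sat
    intro l hl
    by_cases hl' : γ l.1 ∈ β
    · rw [hx]
      simp only [hl', if_true]
      exact hsat l hl hl'
    · cases hp : pv γ (mix (gateP γ β) Z0 Z') l.1 with
      | none =>
        exfalso
        apply hl'
        rw [← hs, mem_stars]
        exact ⟨l, hl, hp, rfl⟩
      | some c =>
        rw [proj_of_pv hp]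
        by_contra hne
        apply hf
        refine ⟨l, hl, ?_⟩
        rw [hp]
        congr 1
        revert hne
        cases c <;> cases l.2 <;> simp
  · refine hP'.congr ?_
    intro y
    rw [evalD_restr, evalD_cons_of_not, hx]
    intro hs'
    apply hsat
    intro l hl hl'
    have := hs' l hl
    rw [hx] at this
    simpa [hl'] using this

theorem switching_aux (hq : ∀ i, 0 ≤ q i ∧ q i ≤ 1) {r : ℝ} (hr : 0 ≤ r)
    (hqr : ∀ i, q i ≤ r * (1 - q i)) {t : ℕ} (hrt : 16 * (t * r) ≤ 1) (n : ℕ) :
    ∀ Φ : List (List (V × Bool)), Φ.length ≤ n → (∀ C ∈ Φ, C.length ≤ t) → ∀ s : ℕ,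
      ∀ E : Finset (V ⊕ W) → Prop, ClosedE γ E →
        Pr U q (fun Z => E Z ∧ badD γ Φ s Z) ≤ (1 / 2) ^ s * Pr U q E := by
  induction n with
  | zero =>
    intro Φ hΦ _ s E _
    have : Φ = [] := List.length_eq_zero_iff.1 (by omega)
    subst this
    refine le_trans (Pr_mono hq (F := fun _ => False) ?_) ?_
    · rintro Z _ ⟨_, hb⟩
      apply hb
      exact (Sh.const s false).congr (by intro y; simp [evalD])
    · rw [Pr_false]
      exact mul_nonneg (by positivity) (Pr_nonneg hq _)
  | succ n ih =>
    intro Φ hΦ hw s E hE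
    cases Φ with
    | nil => exact ih [] (by simp) (by simp) s E hE
    | cons C Φ =>
      have hΦ' : Φ.length ≤ n := by simpa using hΦ
      have hw' : ∀ C ∈ Φ, C.length ≤ t := fun C' h => hw C' (by simp [h])
      have hC : C.length ≤ t := hw C (by simp)
      by_cases hcons : ∀ v, ¬((v, true) ∈ C ∧ (v, false) ∈ C)
      swap
      · push Not at hcons
        obtain ⟨v, h1, h2⟩ := hcons
        refine le_trans (Pr_mono hq ?_) (ih Φ hΦ' hw' s E hE)
        rintro Z _ ⟨a, b⟩
        refine ⟨a, fun hsh => b (hsh.congr ?_)⟩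
        intro y
        rw [evalD_cons_of_not]
        intro hs
        have e1 := hs _ h1
        have e2 := hs _ h2
        simp only at e1 e2
        rw [e1] at e2
        exact Bool.noConfusion e2
      rw [Pr_split _ (fals γ C), Pr_split E (fals γ C), mul_add]
      apply add_le_add
      · refine le_trans (Pr_mono hq ?_) (ih Φ hΦ' hw' s (fun Z => E Z ∧ fals γ C Z) ?_)
        · rintro Z _ ⟨⟨a, b⟩, c⟩
          refine ⟨⟨a, c⟩, fun hsh => b (hsh.congr ?_)⟩
          intro y
          rw [evalD_cons_of_not]
          intro hs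
          obtain ⟨l, hl, hp⟩ := c
          have e1 := hs l hl
          rw [proj_of_pv hp] at e1
          cases h2 : l.2 <;> simp [h2] at e1
        · rintro Z Z' ⟨a, l, hl, hp⟩ hext
          exact ⟨hE Z Z' a hext, l, hl, hext _ _ hp⟩
      · set gates : Finset W := C.toFinset.image (fun l => γ l.1) with hgates
        have hcard : gates.card ≤ t :=
          le_trans Finset.card_image_le (le_trans (List.toFinset_card_le C) hC)
        have h1 : Pr U q (fun Z => (E Z ∧ badD γ (C :: Φ) s Z) ∧ ¬fals γ C Z) ≤
            ∑ β ∈ gates.powerset.erase ∅, Pr U q (fun Z =>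
              (E Z ∧ ¬fals γ C Z ∧ stars γ C Z = β) ∧ badD γ (C :: Φ) s Z) := by
          refine le_trans (Pr_mono hq ?_) (Pr_exists hq _ _)
          rintro Z _ ⟨⟨a, b⟩, c⟩
          refine ⟨stars γ C Z, ?_, ⟨a, c, rfl⟩, b⟩
          rw [Finset.mem_erase, Finset.mem_powerset]
          constructor
          · intro he
            apply b
            refine (Sh.const _ true).congr ?_
            intro y
            symm
            apply evalD_cons_of_sat
            intro l hl
            cases hp : pv γ Z l.1 with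
            | none =>
              exfalso
              have : γ l.1 ∈ stars γ C Z := mem_stars.2 ⟨l, hl, hp, rfl⟩
              rw [he] at this
              simp at this
            | some d =>
              rw [proj_of_pv hp]
              by_contra hne
              apply c
              refine ⟨l, hl, ?_⟩
              rw [hp]
              congr 1
              revert hne
              cases d <;> cases l.2 <;> simp
          · intro w hw
            obtain ⟨l, hl, _, h3⟩ := mem_stars.1 hw
            exact Finset.mem_image.2 ⟨l, List.mem_toFinset.2 hl, h3⟩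
        have h2 : ∀ β : Finset W, Pr U q (fun Z =>
              (E Z ∧ ¬fals γ C Z ∧ stars γ C Z = β) ∧ badD γ (C :: Φ) s Z) ≤
            4 ^ β.card * (1 / 2) ^ s *
              Pr U q (fun Z => E Z ∧ ¬fals γ C Z ∧ stars γ C Z = β) := by
          intro β
          by_cases hk : β.card ≤ s
          · rw [Pr_mix (gateP γ β), Pr_mix (gateP γ β)
              (fun Z => E Z ∧ ¬fals γ C Z ∧ stars γ C Z = β), Finset.mul_sum]
            apply Finset.sum_le_sum
            intro Z0 _
            rw [mul_left_comm]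
            apply mul_le_mul_of_nonneg_left _ (wt_nonneg hq Z0)
            set G : Finset (V ⊕ W) → Prop := fun Z' => E (mix (gateP γ β) Z0 Z') ∧
              ¬fals γ C (mix (gateP γ β) Z0 Z') ∧ stars γ C (mix (gateP γ β) Z0 Z') = β
              with hG
            have hGc : ClosedE γ G := by
              rintro Z' Z'' ⟨a, b, c⟩ hext
              have hext' : ExtZ γ (mix (gateP γ β) Z0 Z') (mix (gateP γ β) Z0 Z'') := by
                intro v d hv
                rw [pv_mix] at hv ⊢
                split_ifs at hv ⊢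
                · exact hv
                · exact hext v d hv
              have hsame : ∀ l ∈ C, pv γ (mix (gateP γ β) Z0 Z'') l.1 =
                  pv γ (mix (gateP γ β) Z0 Z') l.1 := by
                intro l hl
                cases hp : pv γ (mix (gateP γ β) Z0 Z') l.1 with
                | some d => exact hext' _ _ hp
                | none =>
                  have : γ l.1 ∈ β := by
                    rw [← c, mem_stars]
                    exact ⟨l, hl, hp, rfl⟩
                  rw [pv_mix, if_pos this] at hp ⊢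
                  exact hp
              refine ⟨hE _ _ a hext', ?_, ?_⟩
              · rintro ⟨l, hl, hp⟩
                exact b ⟨l, hl, by rw [← hsame l hl]; exact hp⟩
              · refine Eq.trans ?_ c
                ext w
                simp only [mem_stars]
                constructor
                · rintro ⟨l, hl, hp, e⟩
                  exact ⟨l, hl, by rw [← hsame l hl]; exact hp, e⟩
                · rintro ⟨l, hl, hp, e⟩
                  exact ⟨l, hl, by rw [hsame l hl]; exact hp, e⟩
            have h3 : Pr U q (fun Z' => G Z' ∧ badD γ (C :: Φ) s (mix (gateP γ β) Z0 Z')) ≤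
                ∑ P ∈ β.powerset, Pr U q (fun Z' => G Z' ∧
                  badD γ (restr γ β (proj γ Z0 (fun w => decide (w ∈ P))) Φ)
                    (s - β.card) Z') := by
              refine le_trans (Pr_mono hq ?_) (Pr_exists hq _ _)
              rintro Z' _ ⟨a, b⟩
              obtain ⟨P, hP, hb⟩ := bad_step hk a.2.1 a.2.2 b
              exact ⟨P, hP, a, hb⟩
            refine le_trans h3 ?_
            have h4 : ∀ P ∈ β.powerset, Pr U q (fun Z' => G Z' ∧
                  badD γ (restr γ β (proj γ Z0 (fun w => decide (w ∈ P))) Φ)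
                    (s - β.card) Z') ≤ (1 / 2) ^ (s - β.card) * Pr U q G := by
              intro P _
              apply ih _ _ (restr_width hw') _ G hGc
              exact le_trans (List.length_filterMap_le _ _) hΦ'
            refine le_trans (Finset.sum_le_sum h4) ?_
            rw [Finset.sum_const, Finset.card_powerset, nsmul_eq_mul, ← mul_assoc]
            apply le_of_eq
            congr 1
            obtain ⟨u, rfl⟩ := Nat.exists_eq_add_of_le hk
            rw [Nat.add_sub_cancel_left, pow_add]
            push_cast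
            have : (4 : ℝ) ^ β.card * (1 / 2) ^ β.card = 2 ^ β.card := by
              rw [← mul_pow]; norm_num
            rw [← mul_assoc, this]
          · refine le_trans (Pr_mono hq (fun Z _ h => h.1)) ?_
            apply le_mul_of_one_le_left (Pr_nonneg hq _)
            have hk' : s ≤ β.card := by omega
            have a : (1 / 2 : ℝ) ^ β.card ≤ (1 / 2) ^ s :=
              pow_le_pow_of_le_one (by norm_num) (by norm_num) hk'
            have b : (4 : ℝ) ^ β.card * (1 / 2) ^ β.card = 2 ^ β.card := by
              rw [← mul_pow]; norm_num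
            have c : (1 : ℝ) ≤ 2 ^ β.card := one_le_pow₀ (by norm_num)
            have d : (0 : ℝ) ≤ 4 ^ β.card := by positivity
            nlinarith
        set X := Pr U q (fun Z => E Z ∧ ¬fals γ C Z) with hX
        have hX0 : 0 ≤ X := Pr_nonneg hq _
        have h5 : ∀ β ∈ gates.powerset.erase ∅, Pr U q (fun Z =>
              (E Z ∧ ¬fals γ C Z ∧ stars γ C Z = β) ∧ badD γ (C :: Φ) s Z) ≤
            (4 * r) ^ β.card * ((1 + r) ^ t * ((1 / 2) ^ s * X)) := by
          intro β _
          refine le_trans (h2 β) ?_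
          have := key_count (γ := γ) (U := U) hq hr hqr C hC hcons hE β
          calc _ ≤ 4 ^ β.card * (1 / 2) ^ s * (r ^ β.card * (1 + r) ^ t * X) :=
                mul_le_mul_of_nonneg_left this (by positivity)
            _ = _ := by rw [mul_pow]; ring
        refine le_trans h1 (le_trans (Finset.sum_le_sum h5) ?_)
        rw [← Finset.sum_mul]
        have h6 : ∑ β ∈ gates.powerset.erase ∅, (4 * r) ^ β.card =
            (1 + 4 * r) ^ gates.card - 1 := by
          rw [← sum_pow_card, ← Finset.add_sum_erase _ _ (Finset.empty_mem_powerset gates)]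
          simp
        rw [h6]
        have h7 : (1 + 4 * r) ^ gates.card ≤ (1 + 4 * r) ^ t :=
          pow_le_pow_right₀ (by linarith) hcard
        have h8 := one_add_pow_le (x := 4 * r) (by linarith) t
        have h9 := one_add_pow_le hr t
        have p1 : (0 : ℝ) ≤ (1 + 4 * r) ^ t := by positivity
        have p2 : (0 : ℝ) ≤ (1 + r) ^ t := by positivity
        have h10 : (1 + 4 * r) ^ t ≤ 4 / 3 := by nlinarith
        have h11 : (1 + r) ^ t ≤ 16 / 15 := by nlinarith
        have p3 : 0 ≤ (1 / 2 : ℝ) ^ s * X := by positivity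
        have h12 : ((1 + 4 * r) ^ gates.card - 1) * (1 + r) ^ t ≤ 1 := by
          have : (1 + 4 * r) ^ gates.card - 1 ≤ 1 / 3 := by linarith
          nlinarith
        calc _ = (((1 + 4 * r) ^ gates.card - 1) * (1 + r) ^ t) * ((1 / 2) ^ s * X) := by ring
          _ ≤ 1 * ((1 / 2) ^ s * X) := mul_le_mul_of_nonneg_right h12 p3
          _ = _ := by ring

theorem switching (hq : ∀ i, 0 ≤ q i ∧ q i ≤ 1) {r : ℝ} (hr : 0 ≤ r)
    (hqr : ∀ i, q i ≤ r * (1 - q i)) {t : ℕ} (hrt : 16 * (t * r) ≤ 1)
    (Φ : List (List (V × Bool))) (hw : ∀ C ∈ Φ, C.length ≤ t) (s : ℕ) :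
    Pr U q (badD γ Φ s) ≤ (1 / 2) ^ s := by
  have := switching_aux (γ := γ) (U := U) hq hr hqr hrt Φ.length Φ le_rfl hw s (fun _ => True)
    (fun _ _ _ _ => trivial)
  rw [Pr_true, mul_one] at this
  exact le_trans (Pr_mono hq (fun Z _ h => ⟨trivial, h⟩)) this

end Pool.Agent.Lib.MP_646b81
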